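import Pool.Agent.Lib.MP_d476f3_gt.Prism

set_option autoImplicit false

open Set Finsupp Filter Topology

noncomputable section

namespace Pool.Agent.Lib.MP_d476f3_gt

variable {X Y Z : Type*} [TopologicalSpace X] [TopologicalSpace Y] [TopologicalSpace Z]

/-- `(n+1)`-cycles in `A` -/
def Cy (n : ℕ) (A : Set X) : Submodule ℤ (Chain (n + 1) X) :=
  Ch (n + 1) A ⊓ LinearMap.ker (bd n X)

lemma push_Cy {g : X → Y} {A : Set X} {B : Set Y} (hg : ContinuousOn g A) (h : MapsTo g A B)
    {n : ℕ} {w : Chain (n + 1) X} (hw : w ∈ Cy n A) : push g (n + 1) w ∈ Cy n B :=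
  ⟨push_mem hg h hw.1, by
    have := hw.2
    rw [SetLike.mem_coe, LinearMap.mem_ker] at this ⊢
    rw [bd_push hg hw.1, this, map_zero]⟩

lemma bd_mem_Cy {n : ℕ} {A : Set X} {w : Chain (n + 2) X} (h : bd (n + 1) X w ∈ Ch (n + 1) A) :
    bd (n + 1) X w ∈ Cy n A := ⟨h, bd_bd _ _⟩

lemma Bd_le_Cy {n : ℕ} {A : Set X} : Bd (n + 1) A ≤ Cy n A := by
  rintro _ ⟨c, hc, rfl⟩
  exact bd_mem_Cy (bd_mem hc)

/-- an injective integer valued invariant of homology classes of the punctured space -/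
structure Wind (E : Type*) [TopologicalSpace E] [Zero E] (n : ℕ) (μ : ℕ → E → E) where
  ω : Chain (n + 1) E → ℤ
  add : ∀ v ∈ Cy n {0}ᶜ, ∀ w ∈ Cy n {0}ᶜ, ω (v + w) = ω v + ω w
  ker : ∀ v ∈ Cy n {0}ᶜ, ω v = 0 ↔ v ∈ Bd (n + 1) {0}ᶜ
  mul : ∀ P, ∀ v ∈ Cy n {0}ᶜ, ω (push (μ P) (n + 1) v) = P * ω v

namespace Wind

variable {E : Type*} [TopologicalSpace E] [Zero E] {n : ℕ} {μ : ℕ → E → E} (W : Wind E n μ)

/-- the invariant as a homomorphism -/
def hom : Cy n ({0}ᶜ : Set E) →+ ℤ :=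
  AddMonoidHom.mk' (fun v => W.ω v) fun v w => W.add v v.2 w w.2

lemma zero : W.ω 0 = 0 := W.hom.map_zero

lemma sub {v w : Chain (n + 1) E} (hv : v ∈ Cy n {0}ᶜ) (hw : w ∈ Cy n {0}ᶜ) :
    W.ω (v - w) = W.ω v - W.ω w := W.hom.map_sub ⟨v, hv⟩ ⟨w, hw⟩

lemma smul (a : ℤ) {v : Chain (n + 1) E} (hv : v ∈ Cy n {0}ᶜ) : W.ω (a • v) = a * W.ω v :=
  map_zsmul W.hom a ⟨v, hv⟩

lemma sum {ι : Type*} (s : Finset ι) {v : ι → Chain (n + 1) E} (hv : ∀ i, v i ∈ Cy n {0}ᶜ) :
    W.ω (∑ i ∈ s, v i) = ∑ i ∈ s, W.ω (v i) := by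
  have h : (⟨∑ i ∈ s, v i, Submodule.sum_mem _ fun i _ => hv i⟩ : Cy n ({0}ᶜ : Set E)) =
      ∑ i ∈ s, ⟨v i, hv i⟩ := Subtype.ext (by simp)
  exact (congrArg W.hom h).trans (map_sum W.hom (fun i => ⟨v i, hv i⟩) s)

lemma congr {v w : Chain (n + 1) E} (hw : w ∈ Cy n {0}ᶜ) (h : v - w ∈ Bd (n + 1) {0}ᶜ) :
    W.ω v = W.ω w := by
  have h1 := W.add _ (Bd_le_Cy h) _ hw
  rwa [(W.ker _ (Bd_le_Cy h)).2 h, zero_add, sub_add_cancel] at h1

end Wind

section Base

open Complex

lemma zero_eq_const (σ : C(Δ 0, X)) : σ = ContinuousMap.const _ (σ (vert 0 0)) :=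
  ContinuousMap.ext fun x => congrArg σ (Subsingleton.elim _ _)

lemma bd_one (σ : C(Δ 1, X)) : bd 0 X (single σ 1) =
    single (ContinuousMap.const _ (σ (vert 1 1))) 1 -
      single (ContinuousMap.const _ (σ (vert 1 0))) 1 := by
  rw [bd_single, Fin.sum_univ_two, zero_eq_const (σ.comp (face 0)), zero_eq_const (σ.comp (face 1))]
  simp [face, vert, sub_eq_add_neg]

lemma exists_log {n : ℕ} (σ : C(Δ n, ℂ)) (h : range σ ⊆ {0}ᶜ) :
    ∃ l : C(Δ n, ℂ), exp ∘ l = σ := by
  have := (convex_stdSimplex ℝ (Fin (n + 1))).contractibleSpace ⟨_, (vert n 0).2⟩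
  have := (convex_stdSimplex ℝ (Fin (n + 1))).locallyPathConnectedSpace
  obtain ⟨l, ⟨-, hl⟩, -⟩ := isCoveringMapOn_exp.existsUnique_continuousMap_lifts σ
    (exp_log (h ⟨vert n 0, rfl⟩)) fun x => h ⟨x, rfl⟩
  exact ⟨l, hl⟩

open Classical in
/-- a lift of chains through the exponential -/
def up (n : ℕ) : Chain n ℂ →ₗ[ℤ] Chain n ℂ :=
  linearCombination ℤ fun σ => if h : range σ ⊆ {0}ᶜ then single (exists_log σ h).choose 1 else 0

lemma push_up {n : ℕ} {w : Chain n ℂ} (hw : w ∈ Ch n {0}ᶜ) : push exp n (up n w) = w := by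
  refine Ch_ext (push exp n ∘ₗ up n) LinearMap.id (fun σ hσ => ?_) hw
  simp only [LinearMap.comp_apply, up, linearCombination_single, one_smul, dif_pos hσ]
  rw [push_single (continuous_exp.comp (ContinuousMap.continuous _))]
  simp only [(exists_log σ hσ).choose_spec]
  rfl

/-- sum of the points of a `0`-chain -/
def ev0 : Chain 0 ℂ →ₗ[ℤ] ℂ := linearCombination ℤ fun σ => σ (vert 0 0)

lemma ev0_up (c : Chain 1 ℂ) : ev0 (bd 0 ℂ (up 1 (push exp 1 c))) = ev0 (bd 0 ℂ c) := by
  refine lin_ext (f := ev0 ∘ₗ bd 0 ℂ ∘ₗ up 1 ∘ₗ push exp 1) (g := ev0 ∘ₗ bd 0 ℂ) (fun l => ?_) c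
  simp only [LinearMap.comp_apply]
  rw [push_single (continuous_exp.comp l.continuous)]
  have h : range (⟨exp ∘ l, continuous_exp.comp l.continuous⟩ : C(Δ 1, ℂ)) ⊆ {0}ᶜ := by
    rintro _ ⟨x, rfl⟩; exact exp_ne_zero _
  simp only [up, linearCombination_single, one_smul, dif_pos h]
  have hs := (exists_log _ h).choose_spec
  generalize (exists_log _ h).choose = l' at hs
  have := isCoveringMap_exp.const_of_comp (g := fun x => l' x - l x) (by fun_prop)
    (fun a b => Subtype.ext (by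
      have h1 := congrFun hs a
      have h2 := congrFun hs b
      simp only [Function.comp_apply, ContinuousMap.coe_mk] at h1 h2
      simp [exp_sub, h1, h2])) (vert 1 1) (vert 1 0)
  simp only [bd_one, map_sub, ev0, linearCombination_single, one_smul, ContinuousMap.const_apply]
  linear_combination this

lemma exists_branch (p : ℂ) : ∃ n : ℤ, p = log (exp p) + n * (2 * Real.pi * I) :=
  exp_eq_exp_iff_exists_int.1 (exp_log (exp_ne_zero p)).symm

/-- the branch of the logarithm -/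
def br : Chain 0 ℂ →ₗ[ℤ] ℤ := linearCombination ℤ fun σ => (exists_branch (σ (vert 0 0))).choose

/-- principal logarithms of the points -/
def lg : Chain 0 ℂ →ₗ[ℤ] Chain 0 ℂ :=
  linearCombination ℤ fun σ => single (ContinuousMap.const _ (log (σ (vert 0 0)))) 1

/-- segment from the origin -/
def seg (p : ℂ) : C(Δ 1, ℂ) :=
  ⟨fun x => x.1 1 • p, ((continuous_apply 1).comp continuous_subtype_val).smul continuous_const⟩

lemma bd_seg (p : ℂ) : bd 0 ℂ (single (seg p) 1) =
    single (ContinuousMap.const _ p) 1 - single (ContinuousMap.const _ 0) 1 := by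
  simp [bd_one, seg, vert]

/-- cone of a `0`-chain -/
def cn : Chain 0 ℂ →ₗ[ℤ] Chain 1 ℂ := linearCombination ℤ fun σ => single (seg (σ (vert 0 0))) 1

lemma ev0_eq (b : Chain 0 ℂ) :
    ev0 b = ev0 (lg (push exp 0 b)) + br b • (2 * Real.pi * I) := by
  refine lin_ext (g := ev0 ∘ₗ lg ∘ₗ push exp 0 + br.smulRight (2 * Real.pi * I)) (fun σ => ?_) b
  simp only [LinearMap.add_apply, LinearMap.comp_apply, LinearMap.smulRight_apply]
  rw [push_single (continuous_exp.comp σ.continuous)]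
  simpa [ev0, lg, br] using (exists_branch (σ (vert 0 0))).choose_spec

lemma exp_Bd {c : Chain 1 ℂ} (h : bd 0 ℂ c = 0) : push exp 1 c ∈ Bd 1 {0}ᶜ :=
  push_Bd continuous_exp.continuousOn (fun x _ => exp_ne_zero x)
    (acyc_of_convex convex_univ 0 c (mem_Ch_univ c) h)

lemma seg_step (p : ℂ) : push exp 1 (single (seg (p + 2 * Real.pi * I)) 1) -
    push exp 1 (single (seg p) 1) - push exp 1 (single (seg (2 * Real.pi * I)) 1) ∈ Bd 1 {0}ᶜ := by
  have hc : Continuous fun z : ℂ => z + 2 * Real.pi * I := by fun_prop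
  have h1 := exp_Bd (c := single (seg (p + 2 * Real.pi * I)) 1 -
    push (fun z => z + 2 * Real.pi * I) 1 (single (seg p) 1) - single (seg (2 * Real.pi * I)) 1) (by
      rw [map_sub, map_sub, bd_push hc.continuousOn (mem_Ch_univ _), bd_seg, bd_seg, bd_seg,
        map_sub, push_single (hc.comp (ContinuousMap.continuous _)),
        push_single (hc.comp (ContinuousMap.continuous _)),
        zero_eq_const ⟨_, hc.comp (ContinuousMap.continuous _)⟩,
        zero_eq_const ⟨_, hc.comp (ContinuousMap.continuous (ContinuousMap.const _ 0))⟩]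
      simp)
  rw [map_sub, map_sub, push_push' hc continuous_exp] at h1
  have : (exp ∘ fun z => z + 2 * Real.pi * I) = exp := by
    funext z; simp [exp_add]
  rwa [this] at h1

lemma seg_int (p : ℂ) (n : ℤ) : push exp 1 (single (seg (p + n * (2 * Real.pi * I))) 1) -
    push exp 1 (single (seg p) 1) - n • push exp 1 (single (seg (2 * Real.pi * I)) 1) ∈
      Bd 1 {0}ᶜ := by
  induction n using Int.induction_on with
  | zero => simp
  | succ n ih =>
    have := Submodule.add_mem _ ih (seg_step (p + (n : ℤ) * (2 * Real.pi * I)))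
    have e : p + ((n : ℤ) + 1 : ℤ) * (2 * Real.pi * I) =
        p + (n : ℤ) * (2 * Real.pi * I) + 2 * Real.pi * I := by push_cast; ring
    rw [e, add_smul, one_smul]
    exact (congrArg (· ∈ Bd 1 {0}ᶜ) (by abel)).mp this
  | pred n ih =>
    have := Submodule.sub_mem _ ih (seg_step (p + (-(n : ℤ) - 1 : ℤ) * (2 * Real.pi * I)))
    have e : p + (-(n : ℤ) - 1 : ℤ) * (2 * Real.pi * I) + 2 * Real.pi * I =
        p + (-(n : ℤ) : ℤ) * (2 * Real.pi * I) := by push_cast; ring
    rw [e] at this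
    rw [sub_smul, one_smul]
    exact (congrArg (· ∈ Bd 1 {0}ᶜ) (by abel)).mp this

lemma cn_Bd (b : Chain 0 ℂ) : push exp 1 (cn b) - push exp 1 (cn (lg (push exp 0 b))) -
    br b • push exp 1 (single (seg (2 * Real.pi * I)) 1) ∈ Bd 1 {0}ᶜ := by
  refine Ch_mem (push exp 1 ∘ₗ cn - push exp 1 ∘ₗ cn ∘ₗ lg ∘ₗ push exp 0 -
    br.smulRight (push exp 1 (single (seg (2 * Real.pi * I)) 1))) _ (fun σ _ => ?_) (mem_Ch_univ b)
  simp only [LinearMap.sub_apply, LinearMap.comp_apply, LinearMap.smulRight_apply]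
  rw [push_single (continuous_exp.comp σ.continuous)]
  have := seg_int (log (exp (σ (vert 0 0)))) (exists_branch (σ (vert 0 0))).choose
  rw [← (exists_branch (σ (vert 0 0))).choose_spec] at this
  simpa [cn, lg, br] using this

lemma bd_cn (c : Chain 1 ℂ) : bd 0 ℂ (cn (bd 0 ℂ c)) = bd 0 ℂ c := by
  refine lin_ext (f := bd 0 ℂ ∘ₗ cn ∘ₗ bd 0 ℂ) (fun σ => ?_) c
  simp [bd_one, cn, seg, vert]

lemma br_up {v : Chain 1 ℂ} (hv : v ∈ Cy 0 {0}ᶜ) :
    push exp 0 (bd 0 ℂ (up 1 v)) = 0 ∧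
      ev0 (bd 0 ℂ (up 1 v)) = br (bd 0 ℂ (up 1 v)) • (2 * Real.pi * I) := by
  have h : push exp 0 (bd 0 ℂ (up 1 v)) = 0 := by
    rw [← bd_push continuous_exp.continuousOn (mem_Ch_univ _), push_up hv.1]
    exact hv.2
  refine ⟨h, ?_⟩
  rw [ev0_eq, h]
  simp

lemma ev0_mul (a : ℂ) (b : Chain 0 ℂ) : ev0 (push (fun z => a * z) 0 b) = a * ev0 b := by
  refine lin_ext (f := ev0 ∘ₗ push (fun z => a * z) 0)
    (g := (LinearMap.mulLeft ℤ a) ∘ₗ ev0) (fun σ => ?_) b
  simp only [LinearMap.comp_apply]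
  rw [push_single (by fun_prop)]
  simp [ev0]

/-- the winding number -/
def windC : Wind ℂ 0 (fun P z => z ^ P) where
  ω v := br (bd 0 ℂ (up 1 v))
  add v _ w _ := by simp
  ker v hv := by
    obtain ⟨h1, h2⟩ := br_up hv
    constructor
    · intro h
      have h3 := cn_Bd (bd 0 ℂ (up 1 v))
      rw [h1, h] at h3
      have h4 := exp_Bd (c := up 1 v - cn (bd 0 ℂ (up 1 v))) (by rw [map_sub, bd_cn, sub_self])
      rw [map_sub, push_up hv.1] at h4
      simpa using Submodule.add_mem _ h4 h3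
    · rintro ⟨c, hc, rfl⟩
      have h3 := ev0_up (bd 1 ℂ (up 2 c))
      rw [← bd_push continuous_exp.continuousOn (mem_Ch_univ _), push_up hc, h2, bd_bd] at h3
      simpa using h3
  mul P v hv := by
    have hc : Continuous fun z : ℂ => z ^ P := by fun_prop
    have hc' : Continuous fun z : ℂ => (P : ℂ) * z := by fun_prop
    have h1 := (br_up (push_Cy hc.continuousOn (B := {0}ᶜ) (fun z hz => pow_ne_zero P hz) hv)).2
    have h2 : push (fun z : ℂ => z ^ P) 1 v = push exp 1 (push (fun z => (P : ℂ) * z) 1 (up 1 v)) := by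
      conv_lhs => rw [← push_up hv.1]
      rw [push_push' continuous_exp hc, push_push' hc' continuous_exp]
      congr 2
      funext z
      simp [exp_nat_mul]
    conv_lhs at h1 => rw [h2, ev0_up, bd_push hc'.continuousOn (mem_Ch_univ _), ev0_mul,
      (br_up hv).2]
    have h3 : (2 * Real.pi * I : ℂ) ≠ 0 := two_pi_I_ne_zero
    rw [zsmul_eq_mul, zsmul_eq_mul, ← mul_assoc] at h1
    exact_mod_cast (mul_right_cancel₀ h3 h1).symm

end Base

section MV

variable {E : Type*} [TopologicalSpace E] [Zero E] {n : ℕ} {μ : ℕ → E → E} (W : Wind E n μ)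

open Classical in
/-- the local degree of `g` on a cycle: Mayer-Vietoris boundary followed by `g` -/
def Wind.deg (U V : Set X) (g : X → E) (w : Chain (n + 2) X) : ℤ :=
  if h : ∃ p : Chain (n + 2) X × Chain (n + 2) X, p.1 ∈ Ch (n + 2) U ∧ p.2 ∈ Ch (n + 2) V ∧
      w - (p.1 + p.2) ∈ Bd (n + 2) (U ∪ V) then
    W.ω (push g (n + 1) (bd (n + 1) X h.choose.1)) else 0

lemma bd_decomp {U V A : Set X} {w w1 w2 : Chain (n + 2) X} (hw : bd (n + 1) X w = 0)
    (h1 : w1 ∈ Ch (n + 2) U) (h2 : w2 ∈ Ch (n + 2) V) (h : w - (w1 + w2) ∈ Bd (n + 2) A) :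
    bd (n + 1) X w1 ∈ Cy n (U ∩ V) := by
  refine bd_mem_Cy (Ch_inter (bd_mem h1) ?_)
  have := bd_of_mem_Bd h
  rw [map_sub, hw, zero_sub, neg_eq_zero, map_add] at this
  rw [eq_neg_of_add_eq_zero_left this]
  exact Submodule.neg_mem _ (bd_mem h2)

variable {U V : Set X} {g : X → E} (hU : IsOpen U) (hV : IsOpen V) (hg : ContinuousOn g (U ∩ V))
  (hg0 : MapsTo g (U ∩ V) {0}ᶜ)
include hU hV hg hg0

lemma Wind.deg_eq {w w1 w2 : Chain (n + 2) X} (hw : bd (n + 1) X w = 0) (h1 : w1 ∈ Ch (n + 2) U)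
    (h2 : w2 ∈ Ch (n + 2) V) (h : w - (w1 + w2) ∈ Bd (n + 2) (U ∪ V)) :
    W.deg U V g w = W.ω (push g (n + 1) (bd (n + 1) X w1)) := by
  have hex : ∃ p : Chain (n + 2) X × Chain (n + 2) X, p.1 ∈ Ch (n + 2) U ∧ p.2 ∈ Ch (n + 2) V ∧
      w - (p.1 + p.2) ∈ Bd (n + 2) (U ∪ V) := ⟨(w1, w2), h1, h2, h⟩
  rw [Wind.deg, dif_pos hex]
  obtain ⟨a1, a2, a3⟩ := hex.choose_spec
  generalize hex.choose = p at a1 a2 a3
  refine W.congr (push_Cy hg hg0 (bd_decomp hw h1 h2 h)) ?_
  rw [← map_sub, ← map_sub]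
  refine push_Bd hg hg0 (mv_unique hU hV (Submodule.sub_mem _ a1 h1) (Submodule.sub_mem _ a2 h2) ?_)
  exact (congrArg (· ∈ Bd (n + 2) (U ∪ V)) (by abel)).mp (Submodule.sub_mem _ h a3)

lemma Wind.deg_add {v w : Chain (n + 2) X} (hv : v ∈ Cy (n + 1) (U ∪ V))
    (hw : w ∈ Cy (n + 1) (U ∪ V)) : W.deg U V g (v + w) = W.deg U V g v + W.deg U V g w := by
  obtain ⟨v1, a1, v2, a2, a3, -⟩ := exists_decomp_cycle hU hV Subset.rfl hv.1 hv.2
  obtain ⟨w1, b1, w2, b2, b3, -⟩ := exists_decomp_cycle hU hV Subset.rfl hw.1 hw.2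
  replace a1 := Ch_mono inter_subset_right a1
  replace a2 := Ch_mono inter_subset_right a2
  replace b1 := Ch_mono inter_subset_right b1
  replace b2 := Ch_mono inter_subset_right b2
  rw [W.deg_eq hU hV hg hg0 hv.2 a1 a2 a3, W.deg_eq hU hV hg hg0 hw.2 b1 b2 b3,
    W.deg_eq hU hV hg hg0 (Submodule.add_mem _ hv hw).2 (Submodule.add_mem _ a1 b1)
      (Submodule.add_mem _ a2 b2)
      ((congrArg (· ∈ Bd (n + 2) (U ∪ V)) (by abel)).mp (Submodule.add_mem _ a3 b3)),
    map_add, map_add, W.add _ (push_Cy hg hg0 (bd_decomp hv.2 a1 a2 a3)) _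
      (push_Cy hg hg0 (bd_decomp hw.2 b1 b2 b3))]

end MV

lemma mem_Bd_of_decomp {n : ℕ} {U V : Set X} (h1 : Acyc (n + 1) U) (h2 : Acyc (n + 1) V)
    {w1 w2 : Chain (n + 2) X} (a1 : w1 ∈ Ch (n + 2) U) (a2 : w2 ∈ Ch (n + 2) V)
    (a5 : bd (n + 1) X w1 + bd (n + 1) X w2 = 0) (h3 : bd (n + 1) X w1 ∈ Bd (n + 1) (U ∩ V)) :
    w1 + w2 ∈ Bd (n + 2) (U ∪ V) := by
  obtain ⟨c, hc, hc'⟩ := h3
  have b1 := h1 (w1 - c) (Submodule.sub_mem _ a1 (Ch_mono inter_subset_left hc))
    (by rw [map_sub, hc', sub_self])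
  have b2 := h2 (w2 + c) (Submodule.add_mem _ a2 (Ch_mono inter_subset_right hc))
    (by rw [map_add, hc', ← a5]; abel)
  simpa using Submodule.add_mem _ (Bd_mono subset_union_left b1) (Bd_mono subset_union_right b2)

section Susp

variable {E F : Type*} [NormedAddCommGroup E] [NormedSpace ℝ E] [NormedAddCommGroup F]
  [NormedSpace ℝ F] {n : ℕ} {μ : ℕ → E → E}

/-- complement of a ray -/
def coray (E : Type*) [Zero E] (s : ℝ) : Set (E × ℝ) := {x | x.1 ≠ 0 ∨ 0 < s * x.2}

lemma isOpen_coray (s : ℝ) : IsOpen (coray E s) :=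
  (isOpen_ne.preimage continuous_fst).union
    (isOpen_lt continuous_const (continuous_const.mul continuous_snd))

lemma coray_union : coray E 1 ∪ coray E (-1) = {0}ᶜ := by
  ext ⟨x, t⟩
  by_cases h : x = 0
  · simp [coray, h, Prod.ext_iff, lt_or_lt_iff_ne, eq_comm]
  · simp [coray, h, Prod.ext_iff]

lemma coray_inter : coray E 1 ∩ coray E (-1) = {x | x.1 ≠ 0} := by
  ext ⟨x, t⟩
  by_cases h : x = 0
  · simp only [coray, h, mem_inter_iff, mem_ofPred_eq]
    simp only [ne_eq, not_true_eq_false, false_or, iff_false, not_and, not_lt]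
    intro h; linarith
  · simp [coray, h]

lemma star_coray {s : ℝ} (hs : s * s = 1) : StarConvex ℝ ((0 : E), s) (coray E s) := by
  rintro ⟨x, t⟩ hx a b ha hb hab
  rcases hb.eq_or_lt with rfl | hb
  · right
    simp only [add_zero] at hab
    simp [hab, hs]
  rcases hx with hx | hx
  · left
    simpa [hb.ne'] using hx
  · right
    simp only [Prod.smul_mk, Prod.mk_add_mk, smul_eq_mul] at hx ⊢
    nlinarith [mul_pos hb hx]

/-- suspension -/
def Wind.susp (W : Wind E n μ) (hc : ∀ P, Continuous (μ P)) (h0 : ∀ P x, x ≠ 0 → μ P x ≠ 0) :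
    Wind (E × ℝ) (n + 1) (fun P => Prod.map (μ P) id) :=
  have hg0 : MapsTo (Prod.fst : E × ℝ → E) (coray E 1 ∩ coray E (-1)) {0}ᶜ := by
    rw [coray_inter]; exact fun x hx => hx
  { ω := W.deg (coray E 1) (coray E (-1)) Prod.fst
    add v hv w hw := W.deg_add (isOpen_coray _) (isOpen_coray _) continuousOn_fst hg0
      (coray_union (E := E) ▸ hv) (coray_union (E := E) ▸ hw)
    ker v hv := by
      rw [← coray_union] at hv ⊢
      constructor
      · intro h
        obtain ⟨w1, a1, w2, a2, a3, -, a5⟩ := exists_decomp_cycle (isOpen_coray 1)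
          (isOpen_coray (-1)) Subset.rfl hv.1 hv.2
        replace a1 := Ch_mono inter_subset_right a1
        replace a2 := Ch_mono inter_subset_right a2
        have b := bd_decomp hv.2 a1 a2 a3
        rw [W.deg_eq (isOpen_coray _) (isOpen_coray _) continuousOn_fst hg0 hv.2 a1 a2 a3,
          W.ker _ (push_Cy continuousOn_fst hg0 b)] at h
        have hi : Continuous fun x : E => (x, (0 : ℝ)) := by fun_prop
        have h2 := push_Bd (B := coray E 1 ∩ coray E (-1)) hi.continuousOn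
          (by rw [coray_inter]; exact fun x hx => hx) h
        rw [push_push' continuous_fst hi] at h2
        have h3 := push_sub_push (B := coray E 1 ∩ coray E (-1))
          (hi.comp continuous_fst).continuousOn continuousOn_id (by
            rw [coray_inter]
            rintro x hx _ ⟨a, b, -, -, hab, rfl⟩
            simpa [← add_smul, hab] using hx) b.1 b.2
        rw [push_id] at h3
        have h4 := mem_Bd_of_decomp (acyc_of_star (star_coray (by norm_num)) _)
          (acyc_of_star (star_coray (by norm_num)) _) a1 a2 a5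
          (by simpa using Submodule.add_mem _ h3 h2)
        simpa using Submodule.add_mem _ a3 h4
      · intro h
        rw [W.deg_eq (isOpen_coray _) (isOpen_coray _) continuousOn_fst hg0 hv.2
          (Submodule.zero_mem _) (Submodule.zero_mem _) (by simpa using h)]
        simpa using W.zero
    mul P v hv := by
      rw [← coray_union] at hv
      obtain ⟨w1, a1, w2, a2, a3, -⟩ := exists_decomp_cycle (isOpen_coray 1)
        (isOpen_coray (-1)) Subset.rfl hv.1 hv.2
      replace a1 := Ch_mono inter_subset_right a1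
      replace a2 := Ch_mono inter_subset_right a2
      have hm : Continuous (Prod.map (μ P) (id : ℝ → ℝ)) := (hc P).prodMap continuous_id
      have hs : ∀ s, MapsTo (Prod.map (μ P) (id : ℝ → ℝ)) (coray E s) (coray E s) :=
        fun s x hx => hx.imp_left (h0 P _)
      have hs' := (hs 1).union_union (hs (-1))
      have a3' := push_Bd hm.continuousOn hs' a3
      rw [map_sub, map_add] at a3'
      rw [W.deg_eq (isOpen_coray _) (isOpen_coray _) continuousOn_fst hg0 hv.2 a1 a2 a3,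
        W.deg_eq (isOpen_coray _) (isOpen_coray _) continuousOn_fst hg0
          (push_Cy hm.continuousOn hs' hv).2 (push_mem hm.continuousOn (hs _) a1)
          (push_mem hm.continuousOn (hs _) a2) a3',
        ← W.mul P _ (push_Cy continuousOn_fst hg0 (bd_decomp hv.2 a1 a2 a3)),
        bd_push hm.continuousOn (mem_Ch_univ _), push_push' hm continuous_fst,
        push_push' continuous_fst (hc P)]
      rfl }

/-- transport along a linear homeomorphism -/
def Wind.transfer (W : Wind E n μ) (hc : ∀ P, Continuous (μ P)) (L : F ≃L[ℝ] E) :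
    Wind F n (fun P => L.symm ∘ μ P ∘ L) :=
  have hL : MapsTo L ({0}ᶜ : Set F) {0}ᶜ := fun x hx => by simpa using hx
  have hL' : MapsTo L.symm ({0}ᶜ : Set E) {0}ᶜ := fun x hx => by simpa using hx
  { ω v := W.ω (push L (n + 1) v)
    add v hv w hw := by
      rw [map_add, W.add _ (push_Cy L.continuous.continuousOn hL hv) _
        (push_Cy L.continuous.continuousOn hL hw)]
    ker v hv := by
      rw [W.ker _ (push_Cy L.continuous.continuousOn hL hv)]
      refine ⟨fun h => ?_, push_Bd L.continuous.continuousOn hL⟩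
      have := push_Bd L.symm.continuous.continuousOn hL' h
      rwa [push_push' L.continuous L.symm.continuous, L.symm_comp_self, push_id] at this
    mul P v hv := by
      rw [← W.mul P _ (push_Cy L.continuous.continuousOn hL hv), push_push' L.continuous (hc P),
        push_push' (L.symm.continuous.comp ((hc P).comp L.continuous)) L.continuous]
      congr 3
      funext x
      simp }

lemma Wind.smul_pos (W : Wind E n μ) {c : ℝ} (hc : 0 < c) {v : Chain (n + 1) E}
    (hv : v ∈ Cy n {0}ᶜ) : W.ω (push (fun x => c • x) (n + 1) v) = W.ω v := by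
  refine W.congr hv ?_
  have := push_sub_push (B := {0}ᶜ) (f := id) (g := fun x => c • x) continuousOn_id (by fun_prop)
    (by
      rintro x hx _ ⟨a, b, ha, hb, hab, rfl⟩
      have : a + b * c ≠ 0 := by
        rcases hb.eq_or_lt with rfl | hb
        · simp only [add_zero] at hab; simp [hab]
        · exact (add_pos_of_nonneg_of_pos ha (mul_pos hb hc)).ne'
      simpa [smul_smul, ← add_smul, this] using hx) hv.1 hv.2
  rwa [push_id] at this

end Susp

end Pool.Agent.Lib.MP_d476f3_gt
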