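import Pool.Agent.Lib.MP_d476f3_gt.Pat

set_option autoImplicit false

open Set MeasureTheory
open scoped Manifold ContDiff ENNReal NNReal

namespace Pool.Agent.Lib.MP_d476f3_gt

theorem tau_prob : IsProbabilityMeasure (volume.restrict (Icc (0 : ℝ) 1)) := ⟨by simp⟩

instance (ι : Type) [Fintype ι] : IsProbabilityMeasure (cube ι) := by
  haveI := tau_prob
  unfold cube
  infer_instance

theorem cube_ae (ι : Type) [Fintype ι] : ∀ᵐ a ∂(cube ι), ∀ i, a i ∈ Icc (0 : ℝ) 1 :=
  ae_all_iff.2 fun i => (Measure.tendsto_eval_ae_ae (μ := fun _ : ι =>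
    volume.restrict (Icc (0 : ℝ) 1)) (i := i)).eventually (ae_restrict_mem measurableSet_Icc)

theorem cube_proj_le {ι κ : Type} [Fintype ι] [Fintype κ] (T : κ ↪ ι) (E : Set (κ → ℝ)) :
    cube ι {a | (fun j => a (T j)) ∈ E} ≤ volume E := by
  haveI := tau_prob
  have hm : Measurable fun (a : ι → ℝ) (j : κ) => a (T j) := by fun_prop
  have h1 : cube κ = (cube ι).map fun (a : ι → ℝ) (j : κ) => a (T j) := by
    refine Measure.pi_eq fun s hs => ?_
    rw [Measure.map_apply hm (MeasurableSet.univ_pi hs)]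
    have e : (fun (a : ι → ℝ) (j : κ) => a (T j)) ⁻¹' Set.pi univ s =
        Set.pi univ (Function.extend T s fun _ => univ) := by
      ext a
      simp only [mem_preimage, mem_univ_pi]
      constructor
      · intro h i
        by_cases hi : ∃ j, T j = i
        · obtain ⟨j, rfl⟩ := hi
          rw [T.injective.extend_apply]; exact h j
        · rw [Function.extend_apply' _ _ _ hi]; trivial
      · intro h j
        have := h (T j)
        rwa [T.injective.extend_apply] at this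
    rw [e, cube, Measure.pi_pi, ← Finset.prod_subset (Finset.subset_univ (Finset.univ.map T)),
      Finset.prod_map]
    · exact Finset.prod_congr rfl fun j _ => by rw [T.injective.extend_apply]
    · intro i _ hi
      rw [Function.extend_apply' _ _ _ (by simpa using hi), measure_univ]
  have h2 : cube κ ≤ volume := by
    rw [cube, ← Measure.restrict_pi_pi, ← volume_pi]
    exact Measure.restrict_le_self
  exact (Measure.le_map_apply hm.aemeasurable E).trans (h1 ▸ h2 E)

theorem tau_isOpen {N m : ℕ} (d p : ℕ) (r : ℝ) : IsOpen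
    {q : (Fin (N + 1) × Fin m → ℝ) × (Fin m → ℝ) | q.2 ∈ Unres d p q.1 r} := by
  have e : {q : (Fin (N + 1) × Fin m → ℝ) × (Fin m → ℝ) | q.2 ∈ Unres d p q.1 r} =
      ⋃ π : Finset (Fin (N + 1) × Fin m), ⋃ _ : π.card = d ∧
        ((π.image Prod.fst).erase 0).card ≤ p, ⋂ s ∈ π, ⋃ n : ℤ,
          {q : (Fin (N + 1) × Fin m → ℝ) × (Fin m → ℝ) | |q.2 s.2 - q.1 s - (n : ℝ)| < r} := by
    ext q
    simp only [Unres, near, mem_ofPred_eq, Finset.subset_iff, Finset.mem_filter, Finset.mem_univ,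
      true_and, mem_iUnion, mem_iInter, exists_prop]
    exact exists_congr fun π => by tauto
  rw [e]
  exact isOpen_iUnion fun π => isOpen_iUnion fun _ => isOpen_biInter_finset fun s _ =>
    isOpen_iUnion fun n => isOpen_lt (by fun_prop) continuous_const

theorem isOpen_Unres {N m : ℕ} (d p : ℕ) (τ : Fin (N + 1) × Fin m → ℝ) (r : ℝ) :
    IsOpen (Unres d p τ r) :=
  (tau_isOpen d p r).preimage (f := fun x => (τ, x)) (by fun_prop)

theorem tau_slab (u r : ℝ) (hr : 0 < r) (hr1 : r ≤ 1) :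
    volume {t | t ∈ Icc (0 : ℝ) 1 ∧ ∃ n : ℤ, |u - t - n| < r} ≤ 6 * ENNReal.ofReal r := by
  have hsub : {t | t ∈ Icc (0 : ℝ) 1 ∧ ∃ n : ℤ, |u - t - n| < r} ⊆
      Ioo (u - ⌊u⌋ + 1 - r) (u - ⌊u⌋ + 1 + r) ∪ Ioo (u - ⌊u⌋ - r) (u - ⌊u⌋ + r)
        ∪ Ioo (u - ⌊u⌋ - 1 - r) (u - ⌊u⌋ - 1 + r) := by
    rintro t ⟨⟨h0, h1⟩, n, hn⟩
    rw [abs_lt] at hn
    have f1 := Int.floor_le u
    have f2 := Int.lt_floor_add_one u
    have a1 : ⌊u⌋ - 2 < n := by
      have : ((⌊u⌋ - 2 : ℤ) : ℝ) < n := by push_cast; linarith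
      exact_mod_cast this
    have a2 : n < ⌊u⌋ + 2 := by
      have : (n : ℝ) < ((⌊u⌋ + 2 : ℤ) : ℝ) := by push_cast; linarith
      exact_mod_cast this
    obtain h | h | h : n = ⌊u⌋ - 1 ∨ n = ⌊u⌋ ∨ n = ⌊u⌋ + 1 := by omega
    all_goals
      rw [h] at hn
      push_cast at hn
      simp only [mem_union, mem_Ioo]
    · exact Or.inl (Or.inl ⟨by linarith, by linarith⟩)
    · exact Or.inl (Or.inr ⟨by linarith, by linarith⟩)
    · exact Or.inr ⟨by linarith, by linarith⟩
  refine (measure_mono hsub).trans ((measure_union_le _ _).trans ?_)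
  refine (add_le_add_left (measure_union_le _ _) _).trans (le_of_eq ?_)
  have e : ∀ a : ℝ, volume (Ioo (a - r) (a + r)) = 2 * ENNReal.ofReal r := fun a => by
    rw [Real.volume_Ioo, show a + r - (a - r) = 2 * r by ring, ENNReal.ofReal_mul (by norm_num)]
    simp
  rw [e, e, e]; ring

theorem tau_count (N m d p : ℕ) : (Finset.univ.filter fun π : Finset (Fin (N + 1) × Fin m) =>
    π.card = d ∧ ((π.image Prod.fst).erase 0).card ≤ p).card ≤
      (N + 1) ^ p * 2 ^ ((p + 1) * m) := by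
  classical
  have hsub : (Finset.univ.filter fun π : Finset (Fin (N + 1) × Fin m) =>
      π.card = d ∧ ((π.image Prod.fst).erase 0).card ≤ p) ⊆
      Finset.univ.biUnion fun f : Fin p → Fin (N + 1) =>
        ((insert 0 (Finset.univ.image f)) ×ˢ (Finset.univ : Finset (Fin m))).powerset := by
    intro π hπ
    obtain ⟨-, -, hp⟩ := Finset.mem_filter.1 hπ
    set A := (π.image Prod.fst).erase 0 with hA
    refine Finset.mem_biUnion.2 ⟨fun i => if h : (i : ℕ) < A.card then
      (A.equivFin.symm ⟨i, h⟩ : Fin (N + 1)) else 0, Finset.mem_univ _, ?_⟩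
    rw [Finset.mem_powerset]
    intro s hs
    simp only [Finset.mem_product, Finset.mem_insert, Finset.mem_image, Finset.mem_univ, true_and,
      and_true]
    by_cases h0 : s.1 = 0
    · exact Or.inl h0
    · have hsA : s.1 ∈ A := Finset.mem_erase.2 ⟨h0, Finset.mem_image_of_mem _ hs⟩
      refine Or.inr ⟨⟨A.equivFin ⟨s.1, hsA⟩, (A.equivFin ⟨s.1, hsA⟩).2.trans_le hp⟩, ?_⟩
      simp
  refine (Finset.card_le_card hsub).trans ((Finset.card_biUnion_le_card_mul _ _
    (2 ^ ((p + 1) * m)) fun f _ => ?_).trans (by simp))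
  rw [Finset.card_powerset, Finset.card_product, Finset.card_univ, Fintype.card_fin]
  refine Nat.pow_le_pow_right (by norm_num) (Nat.mul_le_mul_right _ ?_)
  refine (Finset.card_insert_le _ _).trans (Nat.succ_le_succ (Finset.card_image_le.trans ?_))
  simp

theorem tau_point {N m : ℕ} (d p : ℕ) (r : ℝ) (hr : 0 < r) (hr1 : r ≤ 1) (x : Fin m → ℝ) :
    cube (Fin (N + 1) × Fin m) {τ | x ∈ Unres d p τ r} ≤
      ((N : ℝ≥0∞) + 1) ^ p * 2 ^ ((p + 1) * m) * (6 * ENNReal.ofReal r) ^ d := by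
  classical
  set Adm := Finset.univ.filter fun π : Finset (Fin (N + 1) × Fin m) =>
    π.card = d ∧ ((π.image Prod.fst).erase 0).card ≤ p with hAdm
  have hsub : {τ | x ∈ Unres d p τ r} ⊆ ⋃ π ∈ Adm, {τ | π ⊆ near τ r x} := by
    rintro τ ⟨π, h1, h2⟩
    exact mem_biUnion (Finset.mem_coe.2 (Finset.mem_filter.2 ⟨Finset.mem_univ _, h2⟩)) h1
  have one : ∀ π ∈ Adm, cube (Fin (N + 1) × Fin m) {τ | π ⊆ near τ r x} ≤
      (6 * ENNReal.ofReal r) ^ d := fun π hπ => by
    obtain ⟨-, hd, -⟩ := Finset.mem_filter.1 hπ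
    have h := cube_proj_le (κ := π) (Function.Embedding.subtype (· ∈ π))
      (Set.pi univ fun s => {t | t ∈ Icc (0 : ℝ) 1 ∧ ∃ n : ℤ, |x s.1.2 - t - n| < r})
    refine (measure_mono_ae ?_).trans (h.trans ?_)
    · filter_upwards [cube_ae (Fin (N + 1) × Fin m)] with τ hτ hπτ s _
      exact ⟨hτ _, (Finset.mem_filter.1 (hπτ s.2)).2⟩
    · rw [volume_pi_pi]
      refine (Finset.prod_le_pow_card _ _ _ fun s _ => tau_slab _ r hr hr1).trans ?_
      simp [hd]
  refine (measure_mono hsub).trans ((measure_biUnion_finset_le _ _).trans ?_)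
  refine (Finset.sum_le_card_nsmul _ _ _ one).trans ?_
  rw [nsmul_eq_mul]
  refine mul_le_mul_left ?_ _
  exact_mod_cast tau_count N m d p

theorem tau_good (d m N : ℕ) (K : Set (Fin m → ℝ)) (hK : IsCompact K)
    (hnull : ∀ (ι : Type) [Fintype ι], d < Fintype.card ι → ∀ (t : ι → Fin m) (c : ι → ℝ),
      volume ((fun (x : Fin m → ℝ) (i : ι) => x (t i) + c i) '' K) = 0) :
    ∃ ρ : ℝ, 0 < ρ ∧ 1 / 2 < cube (Fin (N + 1) × Fin m) {τ | ∀ x ∈ K, (near τ ρ x).card ≤ d} := by
  classical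
  set Bad : Set (Fin (N + 1) × Fin m → ℝ) := ⋃ π : Finset (Fin (N + 1) × Fin m), ⋃ _ : d < π.card,
    ⋃ n : π → ℤ, {τ | (fun s : π => τ s.1) ∈
      (fun (x : Fin m → ℝ) (s : π) => x s.1.2 + -(n s : ℝ)) '' K} with hBad
  have hB : cube (Fin (N + 1) × Fin m) Bad = 0 :=
    measure_iUnion_null fun π => measure_iUnion_null fun hπ => measure_iUnion_null fun n =>
      nonpos_iff_eq_zero.1 ((cube_proj_le (κ := π) (Function.Embedding.subtype (· ∈ π)) _).trans
        (hnull π (by simpa using hπ) (fun s => s.1.2) fun s => -(n s : ℝ)).le)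
  set Good : ℕ → Set (Fin (N + 1) × Fin m → ℝ) := fun k =>
    {τ | ∀ x ∈ K, (near τ (1 / ((k : ℝ) + 1)) x).card ≤ d} with hGood
  have hmono : Monotone Good := fun k l hkl τ hτ x hx => by
    refine (Finset.card_le_card fun s hs => ?_).trans (hτ x hx)
    obtain ⟨-, n, hn⟩ := Finset.mem_filter.1 hs
    exact Finset.mem_filter.2 ⟨Finset.mem_univ _, n, hn.trans_le (Nat.one_div_le_one_div hkl)⟩
  have hcov : univ ⊆ (⋃ k, Good k) ∪ Bad := fun τ _ => by
    by_cases hτ : τ ∈ Bad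
    · exact Or.inr hτ
    left
    have key : ∀ᶠ ρ in nhds (0 : ℝ), ∀ x ∈ K, (near τ ρ x).card ≤ d := by
      refine hK.eventually_forall_of_forall_eventually
        (P := fun ρ x => (near τ ρ x).card ≤ d) fun y hy => ?_
      set π := Finset.univ.filter fun s : Fin (N + 1) × Fin m =>
        y s.2 - τ s ∈ range (Int.cast : ℤ → ℝ) with hπ
      have hcard : π.card ≤ d := by
        by_contra hc
        apply hτ
        choose n hn using fun s : π => (Finset.mem_filter.1 s.2).2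
        refine mem_iUnion.2 ⟨π, mem_iUnion.2 ⟨not_le.1 hc, mem_iUnion.2 ⟨n, y, hy, ?_⟩⟩⟩
        funext s
        simp only [hn s]; ring
      have ev : ∀ s, ∀ᶠ z : ℝ × (Fin m → ℝ) in nhds (0, y), s ∉ π →
          z.1 < Metric.infDist (z.2 s.2 - τ s) (range (Int.cast : ℤ → ℝ)) := fun s => by
        by_cases hs : s ∈ π
        · exact Filter.Eventually.of_forall fun _ h => absurd hs h
        have hpos : 0 < Metric.infDist (y s.2 - τ s) (range (Int.cast : ℤ → ℝ)) :=
          (Int.isClosedEmbedding_coe_real.isClosed_range.notMem_iff_infDist_pos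
            (range_nonempty _)).1 fun h => hs (Finset.mem_filter.2 ⟨Finset.mem_univ _, h⟩)
        have := ContinuousAt.eventually_lt (f := fun z : ℝ × (Fin m → ℝ) => z.1)
          (g := fun z => Metric.infDist (z.2 s.2 - τ s) (range (Int.cast : ℤ → ℝ)))
          (x₀ := (0, y)) continuousAt_fst
          (((Metric.continuous_infDist_pt _).comp (by fun_prop)).continuousAt) hpos
        exact this.mono fun _ h _ => h
      filter_upwards [Filter.eventually_all.2 ev] with z hz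
      refine (Finset.card_le_card fun s hs => ?_).trans hcard
      by_contra hsπ
      obtain ⟨-, n, hn⟩ := Finset.mem_filter.1 hs
      have := (hz s hsπ).trans_le (Metric.infDist_le_dist_of_mem (mem_range_self n))
      rw [Real.dist_eq] at this
      linarith
    obtain ⟨k, hk⟩ := (tendsto_one_div_add_atTop_nhds_zero_nat.eventually key).exists
    exact mem_iUnion.2 ⟨k, hk⟩
  have h1 : (1 : ℝ≥0∞) / 2 < ⨆ k, cube (Fin (N + 1) × Fin m) (Good k) := by
    rw [← hmono.measure_iUnion]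
    have := (measure_mono hcov).trans (measure_union_le (μ := cube (Fin (N + 1) × Fin m)) _ _)
    rw [hB, add_zero, measure_univ] at this
    exact (ENNReal.half_lt_self one_ne_zero ENNReal.one_ne_top).trans_le this
  obtain ⟨k, hk⟩ := lt_iSup_iff.1 h1
  exact ⟨_, Nat.one_div_pos_of_nat, hk⟩

theorem exists_tau (d p m : ℕ) (K : Set (Fin m → ℝ)) (hK : IsCompact K)
    (hnull : ∀ (ι : Type) [Fintype ι], d < Fintype.card ι → ∀ (t : ι → Fin m) (c : ι → ℝ),
      volume ((fun (x : Fin m → ℝ) (i : ι) => x (t i) + c i) '' K) = 0)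
    (lam : Measure (Fin m → ℝ)) [IsFiniteMeasure lam] :
    ∃ C : ℝ≥0, ∀ N : ℕ, ∃ ρ : ℝ, 0 < ρ ∧ ∀ r : ℝ, 0 < r → r ≤ 1 →
      ∃ τ : Fin (N + 1) × Fin m → ℝ, (∀ s, τ s ∈ Icc (0 : ℝ) 1) ∧
        (∀ x ∈ K, (near τ ρ x).card ≤ d) ∧
        lam (Unres d p τ r) ≤ C * ((N : ℝ≥0∞) + 1) ^ p * ENNReal.ofReal r ^ d := by
  set C₀ : ℝ≥0 := 2 ^ ((p + 1) * m) * 6 ^ d * (lam univ).toNNReal + 1 with hC₀
  refine ⟨2 * C₀, fun N => ?_⟩
  obtain ⟨ρ, hρ, hgood⟩ := tau_good d m N K hK hnull
  refine ⟨ρ, hρ, fun r hr hr1 => ?_⟩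
  set E : ℝ≥0∞ := C₀ * ((N : ℝ≥0∞) + 1) ^ p * ENNReal.ofReal r ^ d with hE
  have hE0 : E ≠ 0 := mul_ne_zero (mul_ne_zero (by simp [hC₀]) (by simp))
    (pow_ne_zero _ (by simpa using hr))
  have hEt : E ≠ ⊤ := ENNReal.mul_ne_top (ENNReal.mul_ne_top (by simp)
    (ENNReal.pow_ne_top (by simp))) (ENNReal.pow_ne_top (by simp))
  have hW := (tau_isOpen (N := N) (m := m) d p r).measurableSet
  have hint : ∫⁻ τ, lam (Unres d p τ r) ∂(cube (Fin (N + 1) × Fin m)) ≤ E := by
    have e1 := Measure.prod_apply (μ := cube (Fin (N + 1) × Fin m)) (ν := lam) hW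
    have e2 := Measure.prod_apply_symm (μ := cube (Fin (N + 1) × Fin m)) (ν := lam) hW
    have e3 : ∫⁻ τ, lam (Unres d p τ r) ∂(cube (Fin (N + 1) × Fin m)) =
        ∫⁻ x, cube (Fin (N + 1) × Fin m) {τ | x ∈ Unres d p τ r} ∂lam := e1.symm.trans e2
    rw [e3]
    refine (lintegral_mono fun x => tau_point d p r hr hr1 x).trans ?_
    rw [lintegral_const, hE, hC₀]
    push_cast
    rw [ENNReal.coe_toNNReal (measure_ne_top _ _), mul_assoc (_ + 1), add_mul (_ * lam univ),
      mul_pow]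
    refine le_trans (le_of_eq ?_) le_self_add
    ring
  have hmk := (mul_meas_ge_le_lintegral (μ := cube (Fin (N + 1) × Fin m))
    (f := fun τ => lam (Unres d p τ r)) (measurable_measure_prodMk_left hW) (2 * E)).trans hint
  have hhalf : cube (Fin (N + 1) × Fin m) {τ | 2 * E ≤ lam (Unres d p τ r)} ≤ 1 / 2 := by
    rw [ENNReal.le_div_iff_mul_le (by simp) (by simp), ← ENNReal.mul_le_mul_iff_right hE0 hEt]
    calc _ = 2 * E * _ := by ring
      _ ≤ E := hmk
      _ = _ := by ring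
  by_contra hn
  push Not at hn
  refine (hgood.trans_le ((measure_mono_ae ?_).trans hhalf)).false
  filter_upwards [cube_ae (Fin (N + 1) × Fin m)] with τ hτ hg
  refine le_of_eq_of_le ?_ (hn τ hτ hg).le
  rw [hE]; push_cast; ring

end Pool.Agent.Lib.MP_d476f3_gt
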