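import Mathlib

set_option autoImplicit false

open Set
open scoped Manifold ContDiff

namespace Pool.Agent.Lib.MP_d476f3_gt

/-- One gluing step: extend a local retraction over a further compact piece lying in a chart. -/
theorem retract_step {M X E : Type*} [TopologicalSpace M] [T2Space M] [Nonempty M]
    [MetricSpace X] [LocallyCompactSpace X]
    [NormedAddCommGroup E] [NormedSpace ℝ E] [FiniteDimensional ℝ E]
    (e : M → X) (he : Topology.IsClosedEmbedding e)
    (φ : OpenPartialHomeomorph M E) (K K1 K2 : Set M) (hK : IsCompact K)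
    (hK2 : IsCompact K2) (h12 : K1 ⊆ interior K2) (h2 : K2 ⊆ φ.source)
    (O : Set X) (hO : IsOpen O) (hKO : e '' K ⊆ O) (r : X → M) (hr : ContinuousOn r O)
    (hre : ∀ p, e p ∈ O → r (e p) = p) :
    ∃ O' : Set X, IsOpen O' ∧ e '' (K ∪ K1) ⊆ O' ∧ ∃ r' : X → M, ContinuousOn r' O' ∧
      ∀ p, e p ∈ O' → r' (e p) = p := by
  classical
  obtain ⟨A, hA, hKA, hAO⟩ := exists_compact_between (hK.image he.continuous) hO hKO
  have hAc : IsClosed A := hA.isClosed
  have hrA : ContinuousOn r A := hr.mono hAO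
  let g : X → M := fun x => if x ∈ A then r x else Function.invFun e x
  have hge : ∀ p, g (e p) = p := by
    intro p
    by_cases h : e p ∈ A
    · simp only [g, if_pos h]; exact hre p (hAO h)
    · simp only [g, if_neg h]; exact Function.leftInverse_invFun he.injective p
  have hgA : ∀ x ∈ A, g x = r x := fun x hx => by simp only [g, if_pos hx]
  have hZ1 : IsClosed (A ∩ r ⁻¹' K2) := hrA.preimage_isClosed_of_isClosed hAc hK2.isClosed
  have hZ2 : IsClosed (e '' K2) := (hK2.image he.continuous).isClosed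
  have hg1 : ContinuousOn g (A ∩ r ⁻¹' K2) :=
    (hrA.mono inter_subset_left).congr (fun x hx => hgA x hx.1)
  have hg2 : ContinuousOn g (e '' K2) := by
    rw [he.isInducing.continuousOn_image_iff]
    exact continuousOn_id.congr (fun p _ => hge p)
  have hgZ : ContinuousOn g ((A ∩ r ⁻¹' K2) ∪ e '' K2) := hg1.union_of_isClosed hg2 hZ1 hZ2
  have hmaps : MapsTo g ((A ∩ r ⁻¹' K2) ∪ e '' K2) φ.source := by
    rintro x (hx | ⟨p, hp, rfl⟩)
    · rw [hgA x hx.1]; exact h2 hx.2
    · rw [hge]; exact h2 hp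
  have hφg : ContinuousOn (φ ∘ g) ((A ∩ r ⁻¹' K2) ∪ e '' K2) := φ.continuousOn.comp hgZ hmaps
  have : TietzeExtension E := TietzeExtension.of_tvs ℝ
  obtain ⟨Φ, hΦ⟩ := ContinuousMap.exists_restrict_eq (hZ1.union hZ2)
    (⟨_, continuousOn_iff_continuous_domRestrict.1 hφg⟩ : C(↥((A ∩ r ⁻¹' K2) ∪ e '' K2), E))
  have hΦZ : ∀ x ∈ (A ∩ r ⁻¹' K2) ∪ e '' K2, Φ x = φ (g x) := by
    intro x hx
    have := DFunLike.congr_fun hΦ ⟨x, hx⟩
    exact this
  have hc1 : IsClosed (e '' (interior K2)ᶜ) := he.isClosedMap _ isOpen_interior.isClosed_compl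
  have hc2 : IsClosed (A ∩ r ⁻¹' (interior K2)ᶜ) :=
    hrA.preimage_isClosed_of_isClosed hAc isOpen_interior.isClosed_compl
  let W : Set X := (Φ ⁻¹' φ.target ∩ (e '' (interior K2)ᶜ)ᶜ) ∩ (A ∩ r ⁻¹' (interior K2)ᶜ)ᶜ
  have hW : IsOpen W :=
    ((φ.open_target.preimage Φ.continuous).inter hc1.isOpen_compl).inter hc2.isOpen_compl
  let r' : X → M := fun x => if x ∈ A then r x else φ.symm (Φ x)
  have hr'A : ∀ x ∈ A, r' x = r x := fun x hx => by simp only [r', if_pos hx]
  have hr'W : ∀ x ∈ W, r' x = φ.symm (Φ x) := by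
    intro x hx
    by_cases h : x ∈ A
    · have h1 : r x ∈ interior K2 := by
        by_contra hcon
        exact hx.2 ⟨h, hcon⟩
      have h3 : r x ∈ K2 := interior_subset h1
      rw [hr'A x h, hΦZ x (Or.inl ⟨h, h3⟩), hgA x h, φ.left_inv (h2 h3)]
    · simp only [r', if_neg h]
  refine ⟨interior A ∪ W, isOpen_interior.union hW, ?_, r', ?_, ?_⟩
  · rintro x ⟨p, hp | hp, rfl⟩
    · exact Or.inl (hKA ⟨p, hp, rfl⟩)
    · have hp1 : p ∈ interior K2 := h12 hp
      have hp2 : p ∈ K2 := interior_subset hp1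
      refine Or.inr ⟨⟨?_, ?_⟩, ?_⟩
      · show Φ (e p) ∈ φ.target
        rw [hΦZ _ (Or.inr ⟨p, hp2, rfl⟩), hge]
        exact φ.map_source (h2 hp2)
      · rintro ⟨q, hq, hqp⟩
        rw [he.injective hqp] at hq
        exact hq hp1
      · rintro ⟨h3, h4⟩
        apply h4
        rw [hre p (hAO h3)]
        exact hp1
  · have h1 : ContinuousOn r' (interior A) :=
      (hrA.mono interior_subset).congr (fun x hx => hr'A x (interior_subset hx))
    have h3 : ContinuousOn r' W := by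
      refine ContinuousOn.congr (f := fun x => φ.symm (Φ x)) ?_ hr'W
      exact φ.continuousOn_symm.comp Φ.continuous.continuousOn (fun x hx => hx.1.1)
    exact h1.union_of_isOpen h3 isOpen_interior hW
  · rintro p (hp | hp)
    · rw [hr'A _ (interior_subset hp)]
      exact hre p (hAO (interior_subset hp))
    · have h1 : p ∈ interior K2 := by
        by_contra hcon
        exact hp.1.2 ⟨p, hcon, rfl⟩
      have h3 : p ∈ K2 := interior_subset h1
      rw [hr'W _ hp, hΦZ _ (Or.inr ⟨p, h3, rfl⟩), hge, φ.left_inv (h2 h3)]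

/-- A closed embedding of a compact topological manifold is a neighbourhood retract. -/
theorem retract_nhds {M X E : Type*} [TopologicalSpace M] [T2Space M] [Nonempty M]
    [CompactSpace M] [MetricSpace X] [LocallyCompactSpace X]
    [NormedAddCommGroup E] [NormedSpace ℝ E] [FiniteDimensional ℝ E] [ChartedSpace E M]
    (e : M → X) (he : Topology.IsClosedEmbedding e) :
    ∃ O : Set X, IsOpen O ∧ range e ⊆ O ∧ ∃ r : X → M, ContinuousOn r O ∧
      ∀ p, r (e p) = p := by
  classical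
  have h1 : ∀ x : M, ∃ K1 K2 : Set M, IsCompact K1 ∧ K1 ∈ nhds x ∧ IsCompact K2 ∧
      K1 ⊆ interior K2 ∧ K2 ⊆ (chartAt E x).source := by
    intro x
    obtain ⟨K2, hK2, hx2, h2⟩ := exists_compact_subset (chartAt E x).open_source
      (mem_chart_source E x)
    obtain ⟨K1, hK1, hx1, h1⟩ := exists_compact_subset isOpen_interior hx2
    exact ⟨K1, K2, hK1, mem_interior_iff_mem_nhds.1 hx1, hK2, h1, h2⟩
  choose K1 K2 hK1 hn hK2 h12 h2 using h1
  obtain ⟨t, ht⟩ := CompactSpace.elim_nhds_subcover K1 hn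
  have key : ∀ s : Finset M, ∃ O : Set X, IsOpen O ∧ e '' (⋃ x ∈ s, K1 x) ⊆ O ∧
      ∃ r : X → M, ContinuousOn r O ∧ ∀ p, e p ∈ O → r (e p) = p := by
    intro s
    induction s using Finset.induction_on with
    | empty =>
      exact ⟨∅, isOpen_empty, by simp, fun _ => Classical.arbitrary M, continuousOn_empty _,
        fun p hp => hp.elim⟩
    | insert a s _ ih =>
      obtain ⟨O, hO, hKO, r, hr, hre⟩ := ih
      have := retract_step e he (chartAt E a) (⋃ x ∈ s, K1 x) (K1 a) (K2 a)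
        (s.isCompact_biUnion fun x _ => hK1 x) (hK2 a) (h12 a) (h2 a) O hO hKO r hr hre
      rw [Finset.set_biUnion_insert, union_comm]
      exact this
  obtain ⟨O, hO, hKO, r, hr, hre⟩ := key t
  rw [ht, top_eq_univ, image_univ] at hKO
  exact ⟨O, hO, hKO, r, hr, fun p => hre p (hKO ⟨p, rfl⟩)⟩

theorem exists_retract (d : ℕ) (M : Type*) [TopologicalSpace M]
    [ChartedSpace (EuclideanSpace ℝ (Fin d)) M] [IsManifold (𝓡 d) ∞ M] [T2Space M]
    [CompactSpace M] [Nonempty M] :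
    ∃ (m : ℕ) (e : M → (Fin m → ℝ)) (r : (Fin m → ℝ) → M),
      ContMDiff (𝓡 d) 𝓘(ℝ, Fin m → ℝ) ∞ e ∧
      (∀ x, Function.Injective (mfderiv (𝓡 d) 𝓘(ℝ, Fin m → ℝ) e x)) ∧
      ContinuousOn r (Metric.thickening 10 (range e)) ∧ ∀ p, r (e p) = p := by
  obtain ⟨m, e0, hs, hemb, hinj⟩ := exists_embedding_euclidean_of_compact (I := 𝓡 d) (M := M)
  let L : EuclideanSpace ℝ (Fin m) ≃L[ℝ] (Fin m → ℝ) := EuclideanSpace.equiv (Fin m) ℝ
  have he1 : Topology.IsClosedEmbedding (L ∘ e0) :=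
    L.toHomeomorph.isClosedEmbedding.comp hemb
  obtain ⟨O, hO, hrange, r, hr, hre⟩ :=
    retract_nhds (E := EuclideanSpace ℝ (Fin d)) (L ∘ e0) he1
  obtain ⟨δ, hδ, hth⟩ := (isCompact_range he1.continuous).exists_thickening_subset_open hO hrange
  have hc : (10 / δ : ℝ) ≠ 0 := by positivity
  let T : EuclideanSpace ℝ (Fin m) →L[ℝ] (Fin m → ℝ) :=
    (10 / δ : ℝ) • (L : EuclideanSpace ℝ (Fin m) →L[ℝ] (Fin m → ℝ))
  have hT : ∀ v, T v = (10 / δ : ℝ) • L v := fun v => rfl
  have hTi : Function.Injective T := by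
    intro v w h
    rw [hT, hT] at h
    exact L.injective (smul_right_injective _ hc h)
  have hback : ∀ v, (δ / 10 : ℝ) • T v = L v := by
    intro v
    rw [hT, smul_smul]
    have : (δ / 10 * (10 / δ) : ℝ) = 1 := by field_simp
    rw [this, one_smul]
  refine ⟨m, T ∘ e0, fun x => r ((δ / 10 : ℝ) • x), T.contMDiff.comp hs, ?_, ?_, ?_⟩
  · intro x
    have h1 : MDifferentiableAt (𝓡 d) 𝓘(ℝ, EuclideanSpace ℝ (Fin m)) e0 x :=
      hs.mdifferentiableAt (by simp)
    rw [mfderiv_comp x T.mdifferentiableAt h1, T.mfderiv_eq]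
    exact hTi.comp (hinj x)
  · refine hr.comp (continuous_const_smul (δ / 10 : ℝ)).continuousOn ?_
    intro x hx
    apply hth
    rw [Metric.mem_thickening_iff] at hx ⊢
    obtain ⟨z, ⟨p, rfl⟩, hz⟩ := hx
    refine ⟨(L ∘ e0) p, ⟨p, rfl⟩, ?_⟩
    have h1 : (L ∘ e0) p = (δ / 10 : ℝ) • (T ∘ e0) p := (hback _).symm
    rw [h1, dist_smul₀, Real.norm_of_nonneg (by positivity)]
    calc δ / 10 * dist x ((T ∘ e0) p) < δ / 10 * 10 := by gcongr
      _ = δ := by ring
  · intro p
    show r ((δ / 10 : ℝ) • T (e0 p)) = p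
    rw [hback]
    exact hre p

end Pool.Agent.Lib.MP_d476f3_gt
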