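import Pool.Agent.Lib.MP_d476f3_gt.Wind

set_option autoImplicit false

open Set Finsupp Filter Topology
open scoped ContDiff

noncomputable section

namespace Pool.Agent.Lib.MP_d476f3_gt

/-- the properties of the branched covering that are used -/
structure MuProp {V : Type*} [NormedAddCommGroup V] [NormedSpace ℝ V] (μ : V → V)
    (D : ℝ → V → V) (n0 : ℕ) : Prop where
  smooth : ContDiff ℝ ∞ μ
  zero : μ 0 = 0
  small : ∀ c > 0, ∃ ε > 0, ∀ v, ‖μ v‖ ≤ ε → ‖v‖ ≤ c
  contD : Continuous fun x : ℝ × V => D x.1 x.2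
  D1 : ∀ c, D 1 c = c
  D0 : ∀ c, D 0 c = 0
  fib : ∀ l, 0 ≤ l → ∀ v c, μ v = D l c → ∃ m, μ m = c ∧ v = l • m
  fin : ∀ c, ∃ s : Finset V, s.card ≤ n0 ∧ ∀ m, μ m = c → m ∈ s

variable {E F : Type*} [NormedAddCommGroup E] [NormedSpace ℝ E] [NormedAddCommGroup F]
  [NormedSpace ℝ F]

lemma MuProp.eq_zero {μ : E → E} {D : ℝ → E → E} {n0 : ℕ} (h : MuProp μ D n0) {v : E}
    (hv : μ v = 0) : v = 0 := by
  refine norm_le_zero_iff.1 (le_of_forall_pos_le_add fun c hc => ?_)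
  obtain ⟨ε, hε, H⟩ := h.small c hc
  simpa using H v (by simp [hv, hε.le])

lemma clm_small (L : E ≃L[ℝ] F) (c : ℝ) (hc : 0 < c) : ∃ ε > 0, ∀ v, ‖v‖ ≤ ε → ‖L v‖ ≤ c := by
  obtain ⟨δ, hδ, H⟩ := Metric.continuousAt_iff.1 (L.continuous.continuousAt (x := 0)) c hc
  refine ⟨δ / 2, by positivity, fun v hv => ?_⟩
  have := H (x := v) (by simp; linarith)
  simpa using this.le

lemma MuProp.transfer {μ : E → E} {D : ℝ → E → E} {n0 : ℕ} (h : MuProp μ D n0) (L : F ≃L[ℝ] E) :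
    MuProp (L.symm ∘ μ ∘ L) (fun l => L.symm ∘ D l ∘ L) n0 where
  smooth := L.symm.contDiff.comp (h.smooth.comp L.contDiff)
  zero := by simp [h.zero]
  small c hc := by
    obtain ⟨c1, h1, H1⟩ := clm_small L.symm c hc
    obtain ⟨c2, h2, H2⟩ := h.small c1 h1
    obtain ⟨c3, h3, H3⟩ := clm_small L c2 h2
    refine ⟨c3, h3, fun v hv => ?_⟩
    simpa using H1 _ (H2 (L v) (by simpa using H3 _ hv))
  contD := L.symm.continuous.comp (h.contD.comp
    (continuous_fst.prodMk (L.continuous.comp continuous_snd)))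
  D1 c := by simp [h.D1]
  D0 c := by simp [h.D0]
  fib l hl v c hv := by
    obtain ⟨m, h1, h2⟩ := h.fib l hl (L v) (L c) (by simpa using hv)
    exact ⟨L.symm m, by simp [h1], by rw [← map_smul, ← h2]; simp⟩
  fin c := by
    classical
    obtain ⟨s, h1, h2⟩ := h.fin (L c)
    refine ⟨s.image L.symm, Finset.card_image_le.trans h1, fun m hm => ?_⟩
    exact Finset.mem_image.2 ⟨L m, h2 _ (by simp [← hm]), by simp⟩

lemma muProp_model (P : ℕ) (hP : P ≠ 0) :
    MuProp (Prod.map (fun z : ℂ => z ^ P) (id : E → E))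
      (fun l x => ((l ^ P : ℝ) • x.1, l • x.2)) P where
  smooth := (contDiff_id.pow P).prodMap contDiff_id
  zero := by ext <;> simp [hP]
  small c hc := by
    refine ⟨min c (c ^ P), by positivity, fun v hv => ?_⟩
    rw [Prod.norm_def, max_le_iff, le_min_iff, le_min_iff] at hv
    refine max_le ?_ hv.2.1
    have := hv.1.2
    rw [Prod.map_fst, norm_pow] at this
    exact (pow_le_pow_iff_left₀ (norm_nonneg _) hc.le hP).1 this
  contD := by fun_prop
  D1 c := by simp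
  D0 c := by simp [hP]
  fib l hl v c hv := by
    simp only [Prod.ext_iff, Prod.map_fst, Prod.map_snd, id] at hv
    rcases hl.eq_or_lt with rfl | hl
    · obtain ⟨z, hz⟩ := IsAlgClosed.exists_pow_nat_eq c.1 (Nat.pos_of_ne_zero hP)
      refine ⟨(z, c.2), by simp [hz], ?_⟩
      simpa [hP, Prod.ext_iff] using hv
    · refine ⟨l⁻¹ • v, ?_, by simp [smul_smul, hl.ne']⟩
      ext
      · simp only [Prod.map_fst, Prod.smul_fst, smul_pow, hv.1, smul_smul]
        rw [← mul_pow, inv_mul_cancel₀ hl.ne']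
        simp
      · simp [hv.2, smul_smul, hl.ne']
  fin c := by
    classical
    refine ⟨(Polynomial.nthRoots P c.1).toFinset.image fun z => (z, c.2), ?_, fun m hm => ?_⟩
    · exact Finset.card_image_le.trans ((Multiset.toFinset_card_le _).trans
        (Polynomial.card_nthRoots _ _))
    · refine Finset.mem_image.2 ⟨m.1, ?_, by simp [← hm]⟩
      rw [Multiset.mem_toFinset, Polynomial.mem_nthRoots (Nat.pos_of_ne_zero hP), ← hm]
      rfl

lemma wind_model : ∀ j : ℕ,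
    Nonempty (Wind (ℂ × (Fin j → ℝ)) j fun P => Prod.map (fun z : ℂ => z ^ P) id) := by
  intro j
  induction j with
  | zero =>
    have := windC.transfer (fun P => by fun_prop) (ContinuousLinearEquiv.prodUnique ℝ ℂ (Fin 0 → ℝ))
    refine ⟨(congrArg (Wind _ 0) ?_).mp this⟩
    funext P x
    exact Prod.ext rfl (Subsingleton.elim _ _)
  | succ j ih =>
    obtain ⟨W⟩ := ih
    have L : (Fin (j + 1) → ℝ) ≃L[ℝ] (Fin j → ℝ) × ℝ := ContinuousLinearEquiv.ofFinrankEq (by simp)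
    have := (W.susp (fun P => by fun_prop) (fun P x hx h => hx (by
      rw [Prod.ext_iff] at h ⊢
      exact ⟨eq_zero_of_pow_eq_zero h.1, h.2⟩))).transfer (fun P => by fun_prop)
        (((ContinuousLinearEquiv.refl ℝ ℂ).prodCongr L).trans
          (ContinuousLinearEquiv.prodAssoc ℝ ℂ (Fin j → ℝ) ℝ).symm)
    refine ⟨(congrArg (Wind _ (j + 1)) ?_).mp this⟩
    funext P x
    exact Prod.ext rfl (L.symm_apply_apply x.2)

theorem exists_mu (j : ℕ) : ∃ μ : ℕ → (Fin (j + 2) → ℝ) → (Fin (j + 2) → ℝ),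
    Nonempty (Wind (Fin (j + 2) → ℝ) j μ) ∧ ∀ P ≠ 0, ∃ D, MuProp (μ P) D P := by
  have L : (Fin (j + 2) → ℝ) ≃L[ℝ] ℂ × (Fin j → ℝ) :=
    ContinuousLinearEquiv.ofFinrankEq (by simp [add_comm])
  obtain ⟨W⟩ := wind_model j
  exact ⟨_, ⟨W.transfer (fun P => by fun_prop) L⟩, fun P hP => ⟨_, (muProp_model P hP).transfer L⟩⟩

end Pool.Agent.Lib.MP_d476f3_gt
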