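import Mathlib

set_option autoImplicit false

open Set MeasureTheory

noncomputable section

namespace Pool.Agent.Lib.MP_d476f3_gt

/-- the uniform probability measure on the unit cube -/
def cube (ι : Type) [Fintype ι] : Measure (ι → ℝ) :=
  Measure.pi fun _ => volume.restrict (Icc (0 : ℝ) 1)

open Classical in
/-- the pairs (copy, coordinate) whose family of hyperplanes passes within `ρ` of `x` -/
def near {N m : ℕ} (τ : Fin (N + 1) × Fin m → ℝ) (ρ : ℝ) (x : Fin m → ℝ) :
    Finset (Fin (N + 1) × Fin m) :=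
  Finset.univ.filter fun s => ∃ n : ℤ, |x s.2 - τ s - n| < ρ

/-- points with a full pattern involving at most `p` nonzero copies -/
def Unres {N m : ℕ} (d p : ℕ) (τ : Fin (N + 1) × Fin m → ℝ) (r : ℝ) : Set (Fin m → ℝ) :=
  {x | ∃ π : Finset (Fin (N + 1) × Fin m), π ⊆ near τ r x ∧ π.card = d ∧
    ((π.image Prod.fst).erase 0).card ≤ p}

end Pool.Agent.Lib.MP_d476f3_gt
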