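import Pool.Agent.Lib.MP_d476f3_gt.Grid
import Pool.Agent.Lib.MP_d476f3_gt.Mu
import Pool.Agent.Lib.MP_d476f3_gt.Pat

set_option autoImplicit false

open Set Filter Topology
open scoped ContDiff

noncomputable section

namespace Pool.Agent.Lib.MP_d476f3_gt

section Y

variable {V : Type*} [NormedAddCommGroup V] [NormedSpace ℝ V]

/-- first component of the interpolating map -/
def y1 (μ : V → V) (t : ℝ) (a b : V) : V :=
  (1 - t) • ((1 - t) • a - t • b) + t • μ (t • a + (1 - t) • b)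

/-- second component of the interpolating map -/
def y2 (μ : V → V) (t : ℝ) (a b : V) : V :=
  (1 - t) • μ (t • a + (1 - t) • b) - t • ((1 - t) • a - t • b)

@[simp] lemma y1_zero (μ : V → V) (a b : V) : y1 μ 0 a b = a := by simp [y1]
@[simp] lemma y1_one (μ : V → V) (a b : V) : y1 μ 1 a b = μ a := by simp [y1]
@[simp] lemma y2_zero (μ : V → V) (a b : V) : y2 μ 0 a b = μ b := by simp [y2]
@[simp] lemma y2_one (μ : V → V) (a b : V) : y2 μ 1 a b = b := by simp [y2]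

lemma rot_small {t c : ℝ} (ht : t ∈ Icc (0 : ℝ) 1) {a b : V} (h1 : ‖(1 - t) • a - t • b‖ ≤ c)
    (h2 : ‖t • a + (1 - t) • b‖ ≤ c) : ‖a‖ ≤ 2 * c ∧ ‖b‖ ≤ 2 * c := by
  have hA : 1 / 2 ≤ (1 - t) ^ 2 + t ^ 2 := by nlinarith [sq_nonneg (2 * t - 1)]
  have h0 : 0 ≤ 1 - t := sub_nonneg.2 ht.2
  have key : ∀ u v w : V, ((1 - t) ^ 2 + t ^ 2) • u = (1 - t) • v + t • w → ‖v‖ ≤ c → ‖w‖ ≤ c →
      ‖u‖ ≤ 2 * c := fun u v w h hv hw => by
    have := (congrArg norm h).trans_le (norm_add_le _ _)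
    rw [norm_smul, norm_smul, norm_smul, Real.norm_of_nonneg (by positivity),
      Real.norm_of_nonneg h0, Real.norm_of_nonneg ht.1] at this
    nlinarith [mul_le_mul_of_nonneg_left hv h0, mul_le_mul_of_nonneg_left hw ht.1,
      mul_le_mul_of_nonneg_right hA (norm_nonneg u)]
  refine ⟨key _ _ _ (by module) h1 h2, key b _ (-((1 - t) • a - t • b)) (by module) h2 ?_⟩
  rwa [norm_neg]

lemma MuProp.exists_es {μ : V → V} {D : ℝ → V → V} {n0 : ℕ} (h : MuProp μ D n0) {c : ℝ}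
    (hc : 0 < c) : ∃ es > 0, 2 * es ≤ c ∧ ∀ t ∈ Icc (0 : ℝ) 1, ∀ a b, ‖y1 μ t a b‖ ≤ 2 * es →
      ‖y2 μ t a b‖ ≤ 2 * es → ‖a‖ ≤ c ∧ ‖b‖ ≤ c := by
  obtain ⟨ε, hε, H⟩ := h.small (c / 2) (by positivity)
  refine ⟨min (c / 8) (ε / 4), by positivity, by linarith [min_le_left (c / 8) (ε / 4)],
    fun t ht a b h1 h2 => ?_⟩
  have := rot_small (a := μ (t • a + (1 - t) • b)) (b := (1 - t) • a - t • b) ht h2
    (by rwa [add_comm])
  have h3 := rot_small (c := c / 2) ht (this.2.trans (by linarith [min_le_left (c / 8) (ε / 4)]))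
    (H _ (this.1.trans (by linarith [min_le_right (c / 8) (ε / 4)])))
  exact ⟨by linarith [h3.1], by linarith [h3.2]⟩

end Y

/-- the data of the construction -/
structure Cfg (m k N : ℕ) where
  d : ℕ
  n0 : ℕ
  P : ℕ
  K : Set (Fin m → ℝ)
  τ : Fin (N + 1) × Fin m → ℝ
  ρ : ℝ
  ε : ℝ
  es : ℝ
  c0 : ℝ
  μ : (Fin k → ℝ) → (Fin k → ℝ)
  D : ℝ → (Fin k → ℝ) → (Fin k → ℝ)
  hk : 2 ≤ k
  hkd : k < d
  hρ : 0 < ρ
  hρ' : ρ ≤ 1 / 10
  hε : 0 < ε
  hεs : 2 * ε ≤ es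
  hes : 2 * es ≤ c0
  hc0 : 40 * k * c0 ^ 2 ≤ 1
  hεd : 40 * d * ε ^ 2 < 1
  hμ : MuProp μ D P
  hy : ∀ t ∈ Icc (0 : ℝ) 1, ∀ a b, ‖y1 μ t a b‖ ≤ 2 * es → ‖y2 μ t a b‖ ≤ 2 * es →
    ‖a‖ ≤ c0 ∧ ‖b‖ ≤ c0
  hsm : ∀ v, ‖μ v‖ ≤ ε → ‖v‖ ≤ es / 2
  hτ : ∀ s, τ s ∈ Icc (0 : ℝ) 1
  good : ∀ x ∈ K, (near τ (3 * ρ) x).card ≤ d
  bnd : ∀ x ∈ K, ∀ t, |x t| + 6 ≤ n0

lemma mem_near {N m : ℕ} {τ : Fin (N + 1) × Fin m → ℝ} {ρ : ℝ} {x : Fin m → ℝ}
    {s : Fin (N + 1) × Fin m} : s ∈ near τ ρ x ↔ ∃ n : ℤ, |x s.2 - τ s - n| < ρ := by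
  simp [near]

namespace Cfg

variable {m k N : ℕ} (c : Cfg m k N)

lemma c0_le : c.c0 ≤ 1 := by
  have h1 : (2 : ℝ) ≤ k := by exact_mod_cast c.hk
  have := c.hc0
  nlinarith [sq_nonneg (c.c0 - 1), mul_le_mul_of_nonneg_right h1 (sq_nonneg c.c0)]

lemma es_pos : 0 < c.es := by linarith [c.hε, c.hεs]

lemma ε_le : c.ε ≤ 1 / 4 := by linarith [c.c0_le, c.hεs, c.hes]

/-- affine subspaces of codimension `k` -/
abbrev Sheet := Fin (N + 1) × Dir m k × (Fin k → Finset.Icc (-(c.n0 : ℤ)) c.n0)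

variable {c}

/-- normal coordinates -/
def X (γ : c.Sheet) (x : Fin m → ℝ) : Fin k → ℝ := fun j =>
  c.ρ⁻¹ * (x (γ.2.1.emb j) - c.τ (γ.1, γ.2.1.emb j) - (γ.2.2 j : ℤ))

/-- the pairs (copy, coordinate) of a sheet -/
def pairs (γ : c.Sheet) : Finset (Fin (N + 1) × Fin m) := {γ.1} ×ˢ γ.2.1.1

lemma contDiff_X (γ : c.Sheet) : ContDiff ℝ ∞ (X γ) := by
  unfold X; fun_prop

lemma X_lt {γ : c.Sheet} {x : Fin m → ℝ} {a : ℝ} (h : ‖X γ x‖ < a) (j : Fin k) :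
    |x (γ.2.1.emb j) - c.τ (γ.1, γ.2.1.emb j) - (γ.2.2 j : ℤ)| < a * c.ρ := by
  have := (norm_le_pi_norm _ j).trans_lt h
  rwa [X, Real.norm_eq_abs, abs_mul, abs_of_pos (inv_pos.2 c.hρ), inv_mul_lt_iff₀' c.hρ] at this

lemma pairs_subset {γ : c.Sheet} {x : Fin m → ℝ} {a : ℝ} (h : ‖X γ x‖ < a) :
    pairs γ ⊆ near c.τ (a * c.ρ) x := by
  rintro ⟨i, t⟩ hs
  simp only [pairs, Finset.mem_product, Finset.mem_singleton] at hs
  obtain ⟨rfl, ht⟩ := hs
  obtain ⟨j, rfl⟩ := γ.2.1.exists_emb ht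
  exact mem_near.2 ⟨_, X_lt h j⟩

lemma sheet_ext {γ γ' : c.Sheet} {x : Fin m → ℝ} (h : ‖X γ x‖ < 3) (h' : ‖X γ' x‖ < 3)
    (h1 : γ.1 = γ'.1) (h2 : γ.2.1.1 ⊆ γ'.2.1.1) : γ = γ' := by
  obtain ⟨i, T, n⟩ := γ
  obtain ⟨i', T', n'⟩ := γ'
  obtain rfl : i = i' := h1
  obtain rfl : T = T' := Subtype.ext (Finset.eq_of_subset_of_card_le h2 (T'.2.trans T.2.symm).le)
  congr 2
  funext j
  have a := abs_lt.1 (X_lt h j)
  have b := abs_lt.1 (X_lt h' j)
  refine Subtype.ext (int_eq_of_abs (abs_lt.2 ⟨?_, ?_⟩)) <;>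
    simp only at a b <;> linarith [a.1, a.2, b.1, b.2, c.hρ']

lemma card_pairs {B : Finset c.Sheet} (h : InjOn Prod.fst (B : Set c.Sheet)) :
    (B.biUnion pairs).card = B.card * k := by
  rw [Finset.card_biUnion]
  · simp [pairs, Subtype.property]
  · intro γ hγ γ' hγ' e
    exact Finset.disjoint_product.2 (Or.inl (Finset.disjoint_singleton.2 fun e' => e (h hγ hγ' e')))

lemma card_active {x : Fin m → ℝ} (hx : x ∈ c.K) :
    (Finset.univ.filter fun γ : c.Sheet => ‖X γ x‖ < 3).card ≤ 2 ^ c.d := by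
  refine (Finset.card_le_card_of_injOn pairs (t := (near c.τ (3 * c.ρ) x).powerset)
    (fun γ hγ => ?_) fun γ hγ γ' hγ' e => ?_).trans ?_
  · exact Finset.mem_powerset.2 (pairs_subset (by simpa using hγ))
  · have : ∀ t ∈ γ.2.1.1, (γ.1, t) ∈ pairs γ' := fun t ht => by rw [← e]; simpa [pairs] using ht
    simp only [pairs, Finset.mem_product, Finset.mem_singleton] at this
    exact sheet_ext (by simpa using hγ) (by simpa using hγ')
      (this _ (γ.2.1.emb_mem ⟨0, by linarith [c.hk]⟩)).1 fun t ht => (this t ht).2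
  · rw [Finset.card_powerset]
    exact Nat.pow_le_pow_right two_pos (c.good x hx)

variable (c) in
/-- full crossings that are resolved -/
abbrev Box := {B : Finset c.Sheet // B.card * k = c.d ∧ InjOn Prod.fst (B : Set c.Sheet) ∧
  ∀ γ ∈ B, γ.1 ≠ 0}

lemma Box.exists_pair (B : c.Box) : ∃ p : c.Sheet × c.Sheet, p.1 ∈ B.1 ∧ p.2 ∈ B.1 ∧ p.1 ≠ p.2 := by
  have : 1 < B.1.card := by
    by_contra! h
    have := Nat.mul_le_mul_right k h
    linarith [B.2.1, c.hkd]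
  obtain ⟨a, ha, b, hb, h⟩ := Finset.one_lt_card.1 this
  exact ⟨(a, b), ha, hb, h⟩

/-- the first distinguished sheet -/
def Box.g1 (B : c.Box) : c.Sheet := B.exists_pair.choose.1

/-- the second distinguished sheet -/
def Box.g2 (B : c.Box) : c.Sheet := B.exists_pair.choose.2

lemma Box.g1_mem (B : c.Box) : B.g1 ∈ B.1 := B.exists_pair.choose_spec.1
lemma Box.g2_mem (B : c.Box) : B.g2 ∈ B.1 := B.exists_pair.choose_spec.2.1
lemma Box.g_ne (B : c.Box) : B.g1 ≠ B.g2 := B.exists_pair.choose_spec.2.2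

/-- the radial function of a box -/
def Box.S (B : c.Box) (x : Fin m → ℝ) : ℝ := 10 * ∑ γ ∈ B.1, ∑ j, X γ x j ^ 2

lemma Box.contDiff_S (B : c.Box) : ContDiff ℝ ∞ B.S :=
  contDiff_const.mul (ContDiff.sum fun γ _ => ContDiff.sum fun j _ =>
    ((contDiff_apply ℝ ℝ j).comp (contDiff_X γ)).pow 2)

lemma Box.S_nonneg (B : c.Box) (x : Fin m → ℝ) : 0 ≤ B.S x := by
  unfold Box.S; positivity

lemma Box.X_lt (B : c.Box) {x : Fin m → ℝ} (h : B.S x < 10) {γ : c.Sheet} (hγ : γ ∈ B.1) :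
    ‖X γ x‖ < 1 := by
  refine (pi_norm_lt_iff one_pos).2 fun j => ?_
  have h1 := Finset.single_le_sum (f := fun γ => ∑ j, X γ x j ^ 2) (fun _ _ => by positivity) hγ
  have h2 := Finset.single_le_sum (f := fun j => X γ x j ^ 2) (fun _ _ => by positivity)
    (Finset.mem_univ j)
  rw [Real.norm_eq_abs, ← sq_lt_one_iff_abs_lt_one]
  unfold Box.S at h
  linarith

lemma Box.near_eq (B : c.Box) {x : Fin m → ℝ} (hx : x ∈ c.K) (h : B.S x < 10) :
    B.1.biUnion pairs = near c.τ (3 * c.ρ) x :=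
  Finset.eq_of_subset_of_card_le
    (Finset.biUnion_subset.2 fun _ hγ => pairs_subset ((B.X_lt h hγ).trans (by norm_num)))
    (by rw [card_pairs B.2.2.1, B.2.1]; exact c.good x hx)

lemma Box.mem_dir (B : c.Box) {x : Fin m → ℝ} (hx : x ∈ c.K) (h : B.S x < 10) {γ : c.Sheet}
    (hγ : γ ∈ B.1) {t : Fin m} (ht : (γ.1, t) ∈ near c.τ (3 * c.ρ) x) : t ∈ γ.2.1.1 := by
  rw [← B.near_eq hx h, Finset.mem_biUnion] at ht
  obtain ⟨γ', h1, h2⟩ := ht
  simp only [pairs, Finset.mem_product, Finset.mem_singleton] at h2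
  rw [B.2.2.1 hγ h1 h2.1]
  exact h2.2

lemma Box.mem (B : c.Box) {x : Fin m → ℝ} (hx : x ∈ c.K) (h : B.S x < 10) {γ : c.Sheet}
    (hγ : ‖X γ x‖ < 3) : γ ∈ B.1 := by
  have h1 := pairs_subset hγ
  have h2 : (γ.1, γ.2.1.emb ⟨0, by linarith [c.hk]⟩) ∈ B.1.biUnion pairs := by
    rw [B.near_eq hx h]
    exact h1 (by simp [pairs, Dir.emb_mem])
  obtain ⟨γ', h3, h4⟩ := Finset.mem_biUnion.1 h2
  simp only [pairs, Finset.mem_product, Finset.mem_singleton] at h4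
  rw [sheet_ext hγ ((B.X_lt h h3).trans (by norm_num)) h4.1 fun t ht =>
    B.mem_dir hx h h3 (h4.1 ▸ h1 (by simpa [pairs] using ht))]
  exact h3

lemma Box.unique {B B' : c.Box} {x : Fin m → ℝ} (hx : x ∈ c.K) (h : B.S x < 10)
    (h' : B'.S x < 10) : B = B' :=
  Subtype.ext (Finset.Subset.antisymm
    (fun _ hγ => B'.mem hx h' ((B.X_lt h hγ).trans (by norm_num)))
    fun _ hγ => B.mem hx h ((B'.X_lt h' hγ).trans (by norm_num)))

/-- the interpolation parameter -/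
def Box.t (B : c.Box) (x : Fin m → ℝ) : ℝ := Real.smoothTransition (6 - B.S x)

lemma Box.contDiff_t (B : c.Box) : ContDiff ℝ ∞ B.t :=
  Real.smoothTransition.contDiff.comp (contDiff_const.sub B.contDiff_S)

lemma Box.t_one (B : c.Box) {x : Fin m → ℝ} (h : B.S x ≤ 5) : B.t x = 1 :=
  Real.smoothTransition.one_of_one_le (by linarith)

lemma Box.t_zero (B : c.Box) {x : Fin m → ℝ} (h : 6 ≤ B.S x) : B.t x = 0 :=
  Real.smoothTransition.zero_of_nonpos (by linarith)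

/-- the four recorded coordinates in a box -/
def Box.v (B : c.Box) (l : Fin 4) (x : Fin m → ℝ) : Fin k → ℝ :=
  ![y1 c.μ (B.t x) (X B.g1 x) (X B.g2 x), X B.g1 x, X B.g2 x,
    y2 c.μ (B.t x) (X B.g1 x) (X B.g2 x)] l

lemma Box.contDiff_v (B : c.Box) (l : Fin 4) : ContDiff ℝ ∞ (B.v l) := by
  have h1 := B.contDiff_t
  have h2 := contDiff_X B.g1
  have h3 := contDiff_X B.g2
  have h4 := c.hμ.smooth
  unfold Box.v
  fin_cases l <;> simp [y1, y2] <;> fun_prop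

end Cfg

/-- the standard bump function -/
def bump (k : ℕ) : ContDiffBump (0 : Fin k → ℝ) := ⟨1, 2, one_pos, one_lt_two⟩

/-- the identity of the unit cube, cut off -/
def Phi (k : ℕ) (u : Fin k → ℝ) : Fin k → ℝ := bump k u • u

lemma contDiff_Phi (k : ℕ) : ContDiff ℝ ∞ (Phi k) := (bump k).contDiff.smul contDiff_id

lemma bump_one {k : ℕ} {u : Fin k → ℝ} (h : ‖u‖ ≤ 1) : bump k u = 1 :=
  (bump k).one_of_mem_closedBall (mem_closedBall_zero_iff.2 h)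

lemma bump_zero {k : ℕ} {u : Fin k → ℝ} (h : 2 ≤ ‖u‖) : bump k u = 0 :=
  (bump k).zero_of_le_dist (by simpa [bump] using h)

/-- lower ends of the layers -/
def lo : Fin 4 → ℝ := ![4, 2, 7, 0]

/-- upper ends of the layers -/
def hi : Fin 4 → ℝ := ![9, 4, 9, 7]

/-- cut-off of a layer -/
def cut (l : Fin 4) (s : ℝ) : ℝ :=
  Real.smoothTransition (2 * (s - lo l) + 1) * Real.smoothTransition (2 * (hi l - s) + 1)

lemma contDiff_cut (l : Fin 4) : ContDiff ℝ ∞ (cut l) :=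
  (Real.smoothTransition.contDiff.comp (by fun_prop)).mul
    (Real.smoothTransition.contDiff.comp (by fun_prop))

lemma cut_one {l : Fin 4} {s : ℝ} (h : s ∈ Icc (lo l) (hi l)) : cut l s = 1 := by
  rw [cut, Real.smoothTransition.one_of_one_le (by linarith [h.1]),
    Real.smoothTransition.one_of_one_le (by linarith [h.2]), one_mul]

lemma cut_zero {l : Fin 4} {s : ℝ} (h : s ≤ lo l - 1 / 2 ∨ hi l + 1 / 2 ≤ s) : cut l s = 0 := by
  rcases h with h | h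
  · rw [cut, Real.smoothTransition.zero_of_nonpos (by linarith), zero_mul]
  · rw [cut, Real.smoothTransition.zero_of_nonpos (x := 2 * (hi l - s) + 1) (by linarith), mul_zero]

lemma hi_le (l : Fin 4) : hi l ≤ 9 := by
  fin_cases l <;> simp [hi] <;> norm_num

namespace Cfg

variable {m k N : ℕ} {c : Cfg m k N}

open Classical in
/-- the stretched normal coordinates of a sheet -/
def main (γ : c.Sheet) (x : Fin m → ℝ) : Fin k → ℝ :=
  (∏ B : c.Box with B.g1 = γ ∨ B.g2 = γ, Real.smoothTransition (2 * B.S x - 17)) •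
    Phi k (c.ε⁻¹ • X γ x)

/-- the stretched coordinates in a layer of a box -/
def aux (Λ : ℝ) (B : c.Box) (l : Fin 4) (x : Fin m → ℝ) : (Fin k → ℝ) × ℝ :=
  (Λ * bump k (c.es⁻¹ • B.v l x) * cut l (B.S x)) • (B.v l x, B.S x)

lemma contDiff_main (γ : c.Sheet) : ContDiff ℝ ∞ (main γ) :=
  (contDiff_prod fun B _ => Real.smoothTransition.contDiff.comp
    ((contDiff_const.mul B.contDiff_S).sub contDiff_const)).smul
    ((contDiff_Phi k).comp ((contDiff_X γ).const_smul _))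

lemma contDiff_aux (Λ : ℝ) (B : c.Box) (l : Fin 4) : ContDiff ℝ ∞ (aux Λ B l) :=
  ((contDiff_const.mul ((bump k).contDiff.comp ((B.contDiff_v l).const_smul _))).mul
    ((contDiff_cut l).comp B.contDiff_S)).smul ((B.contDiff_v l).prodMk B.contDiff_S)

variable (c) in
/-- index set of the coordinates of the map defining the metric -/
abbrev Idx := (c.Sheet × Fin k) ⊕ (c.Box × Fin 4 × Option (Fin k))

/-- the coordinates of the map defining the metric -/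
def F (Λ : ℝ) : c.Idx → (Fin m → ℝ) → ℝ
  | .inl (γ, j) => fun x => main γ x j
  | .inr (B, l, some j) => fun x => (aux Λ B l x).1 j
  | .inr (B, l, none) => fun x => (aux Λ B l x).2

lemma contDiff_F (Λ : ℝ) : ∀ i : c.Idx, ContDiff ℝ ∞ (F Λ i)
  | .inl (γ, j) => (contDiff_apply ℝ ℝ j).comp (contDiff_main γ)
  | .inr (B, l, some j) => (contDiff_apply ℝ ℝ j).comp (contDiff_aux Λ B l).fst
  | .inr (B, l, none) => (contDiff_aux Λ B l).snd

end Cfg

end Pool.Agent.Lib.MP_d476f3_gt
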