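import Mathlib

set_option autoImplicit false

open Set MeasureTheory Bundle
open scoped Manifold ContDiff ENNReal

noncomputable section

namespace Pool.Agent.Lib.MP_d476f3_gt.Stmt

section Chains

/-- singular `n`-simplices: continuous maps from the standard `n`-simplex to `X` -/
def Sing (n : ℕ) (X : Type*) [TopologicalSpace X] := C(stdSimplex ℝ (Fin (n + 1)), X)

variable {X Y : Type*} [TopologicalSpace X] [TopologicalSpace Y] {n : ℕ}

/-- the `i`-th face of a singular simplex -/
def Sing.face (σ : Sing (n + 1) X) (i : Fin (n + 2)) : Sing n X :=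
  ContinuousMap.comp σ ⟨stdSimplex.map i.succAbove, stdSimplex.continuous_map _⟩

/-- the composite of a singular simplex with a continuous map -/
def Sing.along (f : C(X, Y)) (σ : Sing n X) : Sing n Y := ContinuousMap.comp f σ

/-- the image of a singular simplex -/
def Sing.img (σ : Sing n X) : Set X := range (ContinuousMap.toFun σ)

/-- integral singular `n`-chains -/
abbrev Chain (n : ℕ) (X : Type*) [TopologicalSpace X] := Sing n X →₀ ℤ

/-- the singular boundary of a chain -/
def bd (c : Chain (n + 1) X) : Chain n X :=
  c.sum fun σ a => ∑ i : Fin (n + 2), Finsupp.single (σ.face i) ((-1) ^ (i : ℕ) * a)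

/-- the image of a chain under a continuous map -/
def cmap (f : C(X, Y)) (c : Chain n X) : Chain n Y := c.mapDomain (Sing.along f)

/-- no simplex of the chain `c` meets the point `p` -/
def Avoids (c : Chain n X) (p : X) : Prop := ∀ σ ∈ c.support, p ∉ σ.img

/-- `z` is a fundamental cycle: a cycle whose class generates the relative homology
`H_{n+1}(X, X - p)` for every point `p` -/
def IsFundCycle (z : Chain (n + 1) X) : Prop :=
  bd z = 0 ∧ ∀ (p : X) (w : Chain (n + 1) X), Avoids (bd w) p →
    ∃ (a : ℤ) (c : Chain (n + 2) X), Avoids (w - a • z - bd c) p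

end Chains

section Riemannian

variable (E : Type*) [NormedAddCommGroup E] [NormedSpace ℝ E] (M : Type*) [TopologicalSpace M]
  [ChartedSpace E M] [IsManifold 𝓘(ℝ, E) ∞ M]

/-- smooth Riemannian metrics on the manifold `M` modelled on `E` -/
abbrev RMetric :=
  ContMDiffRiemannianMetric 𝓘(ℝ, E) ∞ E (fun x : M => TangentSpace 𝓘(ℝ, E) x)

/-- `A` is the image of a smooth embedding of a closed manifold `S` modelled on `F` which has a
fundamental `(j+1)`-cycle that is not a boundary in `M` -/
def IsEssential (F : Type*) [NormedAddCommGroup F] [NormedSpace ℝ F] (j : ℕ) (A : Set M) : Prop :=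
  ∃ (S : Type) (_ : TopologicalSpace S) (_ : T2Space S) (_ : CompactSpace S)
    (_ : ChartedSpace F S) (_ : IsManifold 𝓘(ℝ, F) ∞ S) (ι : C(S, M)) (z : Chain (j + 1) S),
    Manifold.IsSmoothEmbedding 𝓘(ℝ, F) 𝓘(ℝ, E) ∞ ι ∧ range ι = A ∧ IsFundCycle z ∧
      ¬ ∃ c : Chain (j + 2) M, bd c = cmap ι z

variable {E M}

/-- the inner products of `g` on the tangent spaces -/
@[reducible] def rbundle (g : RMetric E M) :
    RiemannianBundle (fun x : M => TangentSpace 𝓘(ℝ, E) x) :=
  ⟨g.toContinuousRiemannianMetric.toRiemannianMetric⟩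

theorem rbundle_continuous (g : RMetric E M) :
    letI := rbundle g
    IsContinuousRiemannianBundle E (fun x : M => TangentSpace 𝓘(ℝ, E) x) := inferInstance

variable [T2Space M] [CompactSpace M]

/-- the extended metric space structure given by the Riemannian distance of `g` -/
@[reducible] def rdist (g : RMetric E M) : EMetricSpace M :=
  letI := rbundle g
  haveI := rbundle_continuous g
  EMetricSpace.ofRiemannianMetric 𝓘(ℝ, E) M

/-- `k`-dimensional volume of a subset: the `k`-dimensional Hausdorff measure of the Riemannian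
distance of `g`, normalised to agree with Lebesgue measure on Euclidean `k`-space -/
def vol (g : RMetric E M) (k : ℕ) (A : Set M) : ℝ≥0∞ :=
  letI : EMetricSpace M := rdist g
  letI : MeasurableSpace M := borel M
  haveI : BorelSpace M := ⟨rfl⟩
  Measure.euclideanHausdorffMeasure k A

/-- the `(j+1)`-dimensional systole -/
def sys (g : RMetric E M) (j : ℕ) : ℝ≥0∞ :=
  ⨅ (A : Set M) (_ : IsEssential E M (EuclideanSpace ℝ (Fin (j + 1))) j A), vol g (j + 1) A

end Riemannian

end Pool.Agent.Lib.MP_d476f3_gt.Stmt
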