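import Pool.Agent.Lib.MP_d476f3_gt.Main
import Pool.Agent.Lib.MP_d476f3_gt.Stmt

set_option autoImplicit false

open Set
open scoped ENNReal NNReal Manifold ContDiff

noncomputable section

namespace Pool.Agent.Lib.MP_d476f3_gt

variable {X Y : Type*} [TopologicalSpace X] [TopologicalSpace Y] {n : ℕ}

lemma stmt_bd (c : Chain (n + 1) X) : Stmt.bd (n := n) (X := X) c = bd n X c := by
  rw [bd, Finsupp.linearCombination_apply]
  refine Finsupp.sum_congr fun σ _ => ?_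
  rw [Finset.smul_sum]
  refine Finset.sum_congr rfl fun i _ => ?_
  rw [smul_smul, Finsupp.smul_single, smul_eq_mul, mul_one, mul_comm]
  rfl

lemma stmt_cmap (f : C(X, Y)) (c : Chain n X) : Stmt.cmap (n := n) f c = cmap f n c := rfl

lemma stmt_avoids (c : Chain n X) (p : X) : Stmt.Avoids (n := n) c p ↔ c ∈ Ch n {p}ᶜ := by
  rw [Ch, Finsupp.mem_supported]
  exact forall₂_congr fun σ _ => subset_compl_singleton_iff.symm

lemma stmt_fund {z : Chain (n + 1) X} (h : Stmt.IsFundCycle (n := n) (X := X) z) :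
    IsFundCycle n X z := by
  refine ⟨(stmt_bd z).symm.trans h.1, fun p w hw => ?_⟩
  obtain ⟨a, c, hc⟩ := h.2 p w ((stmt_avoids _ p).2 (by rwa [stmt_bd]))
  refine ⟨a, c, ?_⟩
  rw [← stmt_bd]
  exact (stmt_avoids _ p).1 hc

theorem stmt_freedom (d j : ℕ) (hd : j + 2 < d) (M : Type*) [TopologicalSpace M]
    [ChartedSpace (EuclideanSpace ℝ (Fin d)) M] [IsManifold (𝓡 d) ∞ M] [T2Space M]
    [CompactSpace M] [Nonempty M] (a : ℝ≥0) (ha : 0 < a) :
    ∃ g : Stmt.RMetric (EuclideanSpace ℝ (Fin d)) M,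
      Stmt.vol g d univ ^ (j + 2) < a * Stmt.sys g (j + 1) ^ d := by
  obtain ⟨g, hg⟩ := systolic_freedom d j hd M a ha
  refine ⟨g, hg.trans_le ?_⟩
  gcongr
  refine le_iInf₂ ?_
  rintro _ ⟨S, _, _, _, _, _, ι, z, h1, rfl, h2, h3⟩
  exact iInf_le_of_le (⟨S, ι, h1, z, stmt_fund h2, fun ⟨c, hc⟩ =>
    h3 ⟨c, (stmt_bd c).trans hc⟩⟩ : EssSub d M (j + 1)) le_rfl

end Pool.Agent.Lib.MP_d476f3_gt
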