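import Mathlib

set_option autoImplicit false

open Set MeasureTheory Bundle
open scoped Manifold ContDiff ENNReal

noncomputable section

namespace Pool.Agent.Lib.MP_d476f3_gt

/-- the standard topological `n`-simplex -/
abbrev Δ (n : ℕ) : Type := stdSimplex ℝ (Fin (n + 1))

/-- the `i`-th face inclusion -/
def face {n : ℕ} (i : Fin (n + 2)) : C(Δ n, Δ (n + 1)) :=
  ⟨stdSimplex.map i.succAbove, stdSimplex.continuous_map _⟩

/-- integral singular `n`-chains -/
abbrev Chain (n : ℕ) (X : Type*) [TopologicalSpace X] := C(Δ n, X) →₀ ℤ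

/-- the singular boundary operator -/
def bd (n : ℕ) (X : Type*) [TopologicalSpace X] : Chain (n + 1) X →ₗ[ℤ] Chain n X :=
  Finsupp.linearCombination ℤ fun σ =>
    ∑ i : Fin (n + 2), (-1 : ℤ) ^ (i : ℕ) • Finsupp.single (σ.comp (face i)) (1 : ℤ)

/-- the map induced on chains by a continuous map -/
def cmap {X Y : Type*} [TopologicalSpace X] [TopologicalSpace Y] (f : C(X, Y)) (n : ℕ) :
    Chain n X →ₗ[ℤ] Chain n Y :=
  Finsupp.lmapDomain ℤ ℤ fun σ => f.comp σ

/-- chains all of whose simplices lie in `A` -/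
def Ch {X : Type*} [TopologicalSpace X] (n : ℕ) (A : Set X) : Submodule ℤ (Chain n X) :=
  Finsupp.supported ℤ ℤ {σ | range σ ⊆ A}

/-- `z` is a fundamental cycle: a cycle whose class generates the relative homology
`H_{n+1}(S, S - p)` for every point `p` -/
def IsFundCycle (n : ℕ) (S : Type*) [TopologicalSpace S] (z : Chain (n + 1) S) : Prop :=
  bd n S z = 0 ∧ ∀ (p : S) (w : Chain (n + 1) S), bd n S w ∈ Ch n {p}ᶜ →
    ∃ (a : ℤ) (c : Chain (n + 2) S), w - a • z - bd (n + 1) S c ∈ Ch (n + 1) {p}ᶜ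

section Riemannian

variable (d : ℕ) (M : Type*) [TopologicalSpace M] [ChartedSpace (EuclideanSpace ℝ (Fin d)) M]
  [IsManifold (𝓡 d) ∞ M]

/-- smooth Riemannian metrics on `M` -/
abbrev RMetric := ContMDiffRiemannianMetric (𝓡 d) ∞ (EuclideanSpace ℝ (Fin d))
  (fun x : M => TangentSpace (𝓡 d) x)

variable {d M} [T2Space M] [CompactSpace M]

/-- the extended metric space structure given by the Riemannian distance of `g` -/
@[reducible] def rdist (g : RMetric d M) : EMetricSpace M :=
  letI : RiemannianBundle (fun x : M => TangentSpace (𝓡 d) x) :=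
    ⟨g.toContinuousRiemannianMetric.toRiemannianMetric⟩
  EMetricSpace.ofRiemannianMetric (𝓡 d) M

/-- `k`-dimensional volume of a subset: the `k`-dimensional Hausdorff measure of the Riemannian
distance of `g`, normalised to agree with Lebesgue measure on Euclidean `k`-space -/
def vol (g : RMetric d M) (k : ℕ) (A : Set M) : ℝ≥0∞ :=
  letI : EMetricSpace M := rdist g
  letI : MeasurableSpace M := borel M
  haveI : BorelSpace M := ⟨rfl⟩
  Measure.euclideanHausdorffMeasure k A

variable (d M) in
/-- a closed `(j+1)`-dimensional submanifold of `M` with a fundamental cycle that is not a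
boundary in `M` -/
structure EssSub (j : ℕ) where
  S : Type
  [top : TopologicalSpace S]
  [t2 : T2Space S]
  [cpt : CompactSpace S]
  [chart : ChartedSpace (EuclideanSpace ℝ (Fin (j + 1))) S]
  [mfd : IsManifold (𝓡 (j + 1)) ∞ S]
  ι : C(S, M)
  emb : Manifold.IsSmoothEmbedding (𝓡 (j + 1)) (𝓡 d) ∞ ι
  z : Chain (j + 1) S
  fund : IsFundCycle j S z
  ess : ¬ ∃ c : Chain (j + 2) M, bd (j + 1) M c = cmap ι (j + 1) z

/-- the underlying subset of `M` -/
def EssSub.carrier {j : ℕ} (Z : EssSub d M j) : Set M :=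
  letI := Z.top
  range Z.ι

/-- the `(j+1)`-dimensional systole -/
def sys (g : RMetric d M) (j : ℕ) : ℝ≥0∞ := ⨅ Z : EssSub d M j, vol g (j + 1) Z.carrier

end Riemannian

end Pool.Agent.Lib.MP_d476f3_gt
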