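import Pool.Agent.Lib.MP_d476f3_gt.Grid

set_option autoImplicit false

open Set Finsupp Filter Topology

noncomputable section

namespace Pool.Agent.Lib.MP_d476f3_gt

variable {S : Type*} [TopologicalSpace S] {j : ℕ}

section Local

variable {E : Type*} [NormedAddCommGroup E] [NormedSpace ℝ E] {μ : ℕ → E → E} (W : Wind E j μ)

lemma Wind.exists_gen : ∃ c : ℤ, 0 ≤ c ∧ ∀ u ∈ Cy j {0}ᶜ, (∀ v ∈ Cy j {0}ᶜ, W.ω u ∣ W.ω v) →
    |W.ω u| ≤ c := by
  by_cases h : ∃ v ∈ Cy j {0}ᶜ, W.ω v ≠ 0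
  · obtain ⟨v, hv, h⟩ := h
    exact ⟨|W.ω v|, abs_nonneg _, fun u _ H =>
      Int.le_of_dvd (abs_pos.2 h) ((abs_dvd_abs _ _).2 (H v hv))⟩
  · push Not at h
    exact ⟨0, le_rfl, fun u hu _ => by simp [h u hu]⟩

lemma Wind.local_dvd [T1Space S] {z : Chain (j + 2) S} (hz : IsFundCycle (j + 1) S z) {p : S}
    {G : Set S} (hG : IsOpen G) (hp : p ∈ G) (φ : OpenPartialHomeomorph S E) (hφ : G ⊆ φ.source)
    (h0 : φ p = 0) {u : Chain (j + 2) S} (hu : u ∈ Ch (j + 2) G)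
    (hzu : z - u ∈ Bd (j + 2) univ ⊔ Ch (j + 2) {p}ᶜ) :
    push φ (j + 1) (bd (j + 1) S u) ∈ Cy j {0}ᶜ ∧
      ∀ v ∈ Cy j {0}ᶜ, W.ω (push φ (j + 1) (bd (j + 1) S u)) ∣ W.ω v := by
  obtain ⟨b, hb, e, he, hbe⟩ := Submodule.mem_sup.1 hzu
  have hm : MapsTo φ (G ∩ {p}ᶜ) {0}ᶜ := fun x hx h =>
    hx.2 (φ.injOn (hφ hx.1) (hφ hp) (h.trans h0.symm))
  have hc : ContinuousOn φ (G ∩ {p}ᶜ) := φ.continuousOn.mono (inter_subset_left.trans hφ)
  have h1 : bd (j + 1) S u ∈ Ch (j + 1) (G ∩ {p}ᶜ) := by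
    refine Ch_inter (bd_mem hu) ?_
    have := congrArg (bd (j + 1) S) hbe
    rw [map_add, map_sub, bd_of_mem_Bd hb, hz.1, zero_add, zero_sub] at this
    rw [← neg_neg (bd (j + 1) S u), ← this]
    exact Submodule.neg_mem _ (bd_mem he)
  have h2 := push_Cy hc hm (bd_mem_Cy h1)
  refine ⟨h2, fun v hv => ?_⟩
  obtain ⟨δ, hδ, hball⟩ := Metric.isOpen_iff.1 (φ.isOpen_image_of_subset_source hG hφ) 0
    ⟨p, hp, h0⟩
  obtain ⟨R, hR, hvR⟩ := exists_ball v
  have hl : 0 < δ / R := by positivity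
  have h3 : push (fun x => (δ / R) • x) (j + 1) v ∈ Cy j (Metric.ball 0 δ ∩ {0}ᶜ) :=
    push_Cy (A := Metric.ball 0 R ∩ {0}ᶜ) (by fun_prop) (fun x hx => mem_inter (by
      rw [mem_ball_zero_iff, norm_smul, Real.norm_of_nonneg hl.le, div_mul_eq_mul_div,
        div_lt_iff₀ (by positivity)]
      exact mul_lt_mul_of_pos_left (mem_ball_zero_iff.1 hx.1) hδ)
      (smul_ne_zero hl.ne' hx.2)) ⟨Ch_inter hvR hv.1, hv.2⟩
  rw [← W.smul_pos hl hv]
  generalize push (fun x => (δ / R) • x) (j + 1) v = v' at h3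
  obtain ⟨c', hc', rfl⟩ := acyc_of_convex (convex_ball (0 : E) δ) j v'
    (Ch_mono inter_subset_left h3.1) h3.2
  have ht : Metric.ball 0 δ ⊆ φ.target := hball.trans (image_subset_iff.2 fun x hx =>
    φ.map_source (hφ hx))
  have hs : MapsTo φ.symm (Metric.ball 0 δ) G := fun y hy => by
    obtain ⟨x, hx, rfl⟩ := hball hy
    rwa [φ.left_inv (hφ hx)]
  have hsc := φ.continuousOn_symm.mono ht
  have h4 : bd (j + 1) S (push φ.symm (j + 2) c') ∈ Ch (j + 1) {p}ᶜ := by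
    rw [bd_push hsc hc']
    refine push_mem (A := Metric.ball 0 δ ∩ {0}ᶜ) (B := {p}ᶜ) (hsc.mono inter_subset_left)
      (fun y hy h => hy.2 ?_) h3.1
    rw [← φ.right_inv (ht hy.1), h, h0]
    rfl
  obtain ⟨a, c, hac⟩ := hz.2 p _ h4
  have h5 := mv_unique hG isOpen_compl_singleton
    (Submodule.sub_mem _ (push_mem hsc hs hc') (Submodule.smul_mem _ a hu))
    (Submodule.neg_mem _ (Submodule.add_mem _ hac (Submodule.smul_mem _ a he))) (by
      have e1 : G ∪ {p}ᶜ = univ := eq_univ_of_forall fun x => by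
        by_cases hx : x = p
        · exact Or.inl (hx ▸ hp)
        · exact Or.inr hx
      have e2 : e = z - u - b := by rw [← hbe]; abel
      rw [e1, e2, smul_sub, smul_sub]
      exact (congrArg (· ∈ _) (by abel)).mp
        (Submodule.add_mem _ (bd_mem_Bd (mem_Ch_univ c)) (Submodule.smul_mem _ a hb)))
  have h6 := push_Bd hc hm h5
  rw [map_sub, map_sub, map_smul, map_smul, bd_push hsc hc', push_push hsc (φ.continuousOn.mono hφ)
    hs (bd_mem hc'), push_congr (g := φ ∘ φ.symm) (g' := id) (fun y hy => φ.right_inv (ht hy))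
      (bd_mem hc'),
    push_id] at h6
  rw [W.congr (Submodule.smul_mem _ a h2) h6, W.smul a h2]
  exact dvd_mul_left _ _

end Local

variable {m k : ℕ} {μ : ℕ → (Fin k → ℝ) → (Fin k → ℝ)} (W : Wind (Fin k → ℝ) j μ)

open Classical in
lemma Wind.D_push {ι : Type*} [Fintype ι] (φ : ι → Face m k) {h : S → (Fin m → ℝ)}
    (hh : Continuous h) (hW : ∀ x, h x ∈ Wle m k) {z w2 : Chain (j + 2) S}
    {u : ι → Chain (j + 2) S} (hz : bd (j + 1) S z = 0)
    (hu : ∀ i, u i ∈ Ch (j + 2) (h ⁻¹' (φ i).U)) (h2 : w2 ∈ Ch (j + 2) (h ⁻¹' Wlt m k))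
    (h3 : z - (∑ i, u i + w2) ∈ Bd (j + 2) univ)
    (hb : ∀ i, bd (j + 1) S (u i) ∈ Ch (j + 1) (h ⁻¹' Wlt m k)) (f : Face m k) :
    W.D f (push h (j + 2) z) =
      ∑ i with φ i = f, W.ω (push (f.π ∘ h) (j + 1) (bd (j + 1) S (u i))) := by
  have h4 := push_Bd hh.continuousOn (B := Wle m k) (fun x _ => hW x) h3
  rw [map_sub, map_add, map_sum] at h4
  rw [W.D_eq φ (by rw [bd_push hh.continuousOn (mem_Ch_univ _), hz, map_zero])
    (fun i => push_mem hh.continuousOn (mapsTo_preimage _ _) (hu i))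
    (push_mem hh.continuousOn (mapsTo_preimage _ _) h2) h4 (fun i => by
      rw [bd_push hh.continuousOn (mem_Ch_univ _)]
      exact push_mem hh.continuousOn (mapsTo_preimage _ _) (hb i))]
  refine Finset.sum_congr rfl fun i _ => ?_
  rw [bd_push hh.continuousOn (mem_Ch_univ _), push_push' hh f.continuous_π]

theorem Wind.bounded : ∃ c : ℤ, 0 ≤ c ∧ ∀ (S : Type) [TopologicalSpace S] [T2Space S]
    (z : Chain (j + 2) S), IsFundCycle (j + 1) S z → ∀ h : S → (Fin m → ℝ), Continuous h →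
    (∀ x, h x ∈ Wle m k) → ∀ s : Finset S, (∀ x, h x ∉ Wlt m k → x ∈ s) →
    (∀ x (f : Face m k), f.π (h x) = 0 → ∃ φ : OpenPartialHomeomorph S (Fin k → ℝ),
      x ∈ φ.source ∧ EqOn φ (f.π ∘ h) φ.source) →
    ∀ f : Face m k, |W.D f (push h (j + 2) z)| ≤ c * s.card := by
  classical
  obtain ⟨c, hc0, hc⟩ := W.exists_gen
  refine ⟨c, hc0, fun S _ _ z hz h hh hW s hs hreg f => ?_⟩
  let I := {x : s // h x ∉ Wlt m k}
  have h1 : ∀ x : I, ∃ f : Face m k, h x.1 ∈ f.U := fun x => exists_face (hW _) x.2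
  choose F hF using h1
  have h0 : ∀ x : I, (F x).π (h x.1) = 0 := fun x => by
    by_contra e
    exact x.2 ((F x).Wlt_of_ne (hF x) e)
  choose φ hφ hφ' using fun x : I => hreg _ _ (h0 x)
  obtain ⟨U, hU, hd⟩ := s.finite_toSet.t2_separation
  let G : I → Set S := fun x => U x.1 ∩ (φ x).source ∩ h ⁻¹' (F x).U
  have hG : ∀ x, IsOpen (G x) := fun x =>
    ((hU _).2.inter (φ x).open_source).inter ((isOpen_piece _ _).preimage hh)
  have hGd : Pairwise (Function.onFun Disjoint G) := fun x y e =>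
    Disjoint.mono (inter_subset_left.trans inter_subset_left)
      (inter_subset_left.trans inter_subset_left)
      (hd x.1.2 y.1.2 fun e' => e (Subtype.ext (Subtype.ext e')))
  have hGx : ∀ x : I, (x.1 : S) ∈ G x := fun x => ⟨⟨(hU _).1, hφ x⟩, hF x⟩
  obtain ⟨u, w2, a1, a2, a3, a4⟩ := exists_family_decomp hG hGd (isOpen_Wlt (k := k).preimage hh)
    (A := univ) (fun x _ => by
      by_cases e : h x ∈ Wlt m k
      · exact Or.inr e
      · exact Or.inl (mem_iUnion.2 ⟨⟨⟨x, hs x e⟩, e⟩, hGx _⟩)) (mem_Ch_univ z) hz.1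
  rw [W.D_push F hh hW hz.1 (fun x => Ch_mono (fun y hy => hy.1.2) (a1 x))
    (Ch_mono inter_subset_right a2) a3 (fun x => Ch_mono inter_subset_right (a4 x))]
  refine (Finset.abs_sum_le_sum_abs _ _).trans ((Finset.sum_le_card_nsmul _ _ c fun x hx => ?_
    ).trans ?_)
  · obtain rfl := (Finset.mem_filter.1 hx).2
    have hsub : G x ⊆ (φ x).source := fun y hy => hy.1.2
    have := W.local_dvd hz (hG x) (hGx x) (φ x) hsub ((hφ' x (hφ x)).trans (h0 x))
      (Ch_mono inter_subset_left (a1 x)) (by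
        have e : z - u x = (z - (∑ i, u i + w2)) + (∑ i ∈ Finset.univ.erase x, u i + w2) := by
          rw [← Finset.add_sum_erase _ _ (Finset.mem_univ x)]; abel
        rw [e]
        refine Submodule.add_mem_sup a3 (Submodule.add_mem _ (Submodule.sum_mem _ fun y hy =>
          Ch_mono ?_ (a1 y)) (Ch_mono ?_ a2))
        · rintro _ h' rfl
          exact disjoint_left.1 (hGd (Finset.ne_of_mem_erase hy)) h'.1 (hGx x)
        · rintro _ h' rfl
          exact x.2 h'.2)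
    rw [← push_congr ((hφ' x).mono hsub) (Ch_mono inter_subset_left (a4 x))]
    exact hc _ this.1 this.2
  · rw [nsmul_eq_mul, mul_comm]
    refine mul_le_mul_of_nonneg_left (Int.ofNat_le.2 ((Finset.card_filter_le _ _).trans ?_)) hc0
    exact (Fintype.card_subtype_le _).trans (Fintype.card_coe _).le

theorem Wind.dvd {K : Set (Fin m → ℝ)} (hK : Bornology.IsBounded K) {P : ℕ} (hP : P ≠ 0)
    (hμ : Continuous (μ P)) (hμ0 : μ P 0 = 0) (hμ1 : ∀ v, μ P v = 0 → v = 0)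
    {z : Chain (j + 2) S} (hz : bd (j + 1) S z = 0) {h : S → (Fin m → ℝ)} (hh : Continuous h)
    (hW : ∀ x, h x ∈ Metric.thickening 3 K ∩ Wle m k) {Z : Set S} (hZ : IsClosed Z)
    (hZ1 : ∀ x, h x ∉ Wlt m k → x ∈ Z) (hZ2 : ∀ x ∈ Z, ∃ f : Face m k, h x ∈ f.U)
    {c : ℝ} (hc : 0 < c) (f : Near k K) {g g' : S → (Fin k → ℝ)} (hg : Continuous g)
    (hg' : Continuous g') {G : Set S} (hG : IsOpen G)
    (H1 : ∀ x, h x ∈ f.1.U → x ∉ Z → g x = μ P (c • f.1.π (h x)))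
    (H2 : ∀ x, h x ∈ f.1.U → g x = 0 → x ∈ G ∧ x ∈ Z)
    (H3 : ∀ x ∈ G, g x = μ P (μ P (g' x))) : (P : ℤ) ∣ W.D f.1 (push h (j + 2) z) := by
  classical
  have := finite_Near (k := k) hK
  cases nonempty_fintype (Near k K)
  obtain ⟨u, w2, a1, a2, a3, a4⟩ := exists_family_decomp (U := fun f : Near k K => h ⁻¹' f.1.U)
    (fun f => (isOpen_piece _ _).preimage hh)
    (fun f f' e => (Face.disjoint fun e' => e (Subtype.ext e')).preimage h) hZ.isOpen_compl
    (A := univ) (fun x _ => by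
      by_cases e : x ∈ Z
      · obtain ⟨f, hf⟩ := hZ2 x e
        exact Or.inl (mem_iUnion.2 ⟨⟨f, _, hf, (hW x).1⟩, hf⟩)
      · exact Or.inr e) (mem_Ch_univ z) hz
  have hsub : Zᶜ ⊆ h ⁻¹' Wlt m k := fun x hx => by_contra fun e => hx (hZ1 x e)
  rw [W.D_push (fun f : Near k K => f.1) hh (fun x => (hW x).2) hz
    (fun x => Ch_mono inter_subset_left (a1 x)) (Ch_mono (inter_subset_right.trans hsub) a2) a3
    (fun x => Ch_mono (inter_subset_right.trans hsub) (a4 x)),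
    Finset.sum_eq_single_of_mem f (by simp)
      fun g hg e => absurd (Subtype.ext (Finset.mem_filter.1 hg).2) e]
  have hπ := f.1.continuous_π.comp hh
  have hm : MapsTo (μ P) {0}ᶜ {0}ᶜ := fun v hv e => hv (hμ1 v e)
  have b1 := push_Cy hπ.continuousOn (B := {0}ᶜ) (fun x hx => f.1.ne_of_Wlt (hsub hx.2))
    (bd_mem_Cy (a4 f))
  have hs : Continuous fun x : Fin k → ℝ => c • x := by fun_prop
  have b2 := W.mul P _ (push_Cy hs.continuousOn (B := {0}ᶜ) (fun x hx => smul_ne_zero hc.ne' hx) b1)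
  rw [W.smul_pos hc b1, push_push' hπ hs, push_push' (hs.comp hπ) hμ,
    push_congr (g := μ P ∘ (fun x => c • x) ∘ f.1.π ∘ h) (g' := g)
      (fun x hx => (H1 x hx.1 hx.2).symm) (a4 f)] at b2
  have hB : h ⁻¹' f.1.U ∩ Zᶜ ⊆ g ⁻¹' {0}ᶜ := fun x hx e => hx.2 (H2 x hx.1 e).2
  obtain ⟨w1, c1, w3, c2, c3⟩ := exists_decomp hG (isOpen_compl_singleton (x := 0).preimage hg)
    (A := h ⁻¹' f.1.U) (fun x hx => by
      by_cases e : g x = 0
      · exact Or.inl (H2 x hx e).1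
      · exact Or.inr e) (Ch_mono inter_subset_left (a1 f)) (Ch_mono hB (a4 f))
  obtain ⟨b, hb, e, he, hbe⟩ := Submodule.mem_sup.1 c3
  have c4 : bd (j + 1) S (u f) - bd (j + 1) S w1 = bd (j + 1) S (w3 + e) := by
    have := congrArg (bd (j + 1) S) hbe
    rw [map_add, map_sub, map_add, bd_of_mem_Bd hb, zero_add] at this
    rw [map_add, this]; abel
  have c5 := Submodule.add_mem _ (Ch_mono inter_subset_right c2) he
  have c6 : bd (j + 1) S w1 ∈ Cy j (G ∩ g ⁻¹' {0}ᶜ) := by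
    refine bd_mem_Cy (Ch_inter (bd_mem (Ch_mono inter_subset_right c1)) ?_)
    rw [← sub_sub_cancel (bd (j + 1) S (u f)) (bd (j + 1) S w1), c4]
    exact Submodule.sub_mem _ (Ch_mono hB (a4 f)) (bd_mem c5)
  have c7 := push_Bd hg.continuousOn (mapsTo_preimage _ _) (bd_mem_Bd c5)
  rw [← c4, map_sub] at c7
  have c8 := push_Cy hg'.continuousOn (B := {0}ᶜ) (fun x hx e => hx.2 (by
    rw [mem_singleton_iff] at e ⊢
    rw [H3 x hx.1, e, hμ0, hμ0])) c6
  rw [W.congr (push_Cy hg.continuousOn (fun x hx => hx.2) c6) c7,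
    push_congr (g' := μ P ∘ μ P ∘ g') (fun x hx => H3 x hx.1) c6.1,
    ← push_push' (hμ.comp hg') hμ, ← push_push' hg' hμ,
    W.mul P _ (push_Cy hμ.continuousOn hm c8), W.mul P _ c8] at b2
  exact ⟨_, (mul_left_cancel₀ (by exact_mod_cast hP) b2).symm⟩

end Pool.Agent.Lib.MP_d476f3_gt
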