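import Pool.Agent.Lib.MP_d476f3_gt.Wind

set_option autoImplicit false

open Set Finsupp Filter Topology

noncomputable section

namespace Pool.Agent.Lib.MP_d476f3_gt

lemma exists_modulus {Γ : Type*} [Fintype Γ] (K : AddSubgroup (Γ → ℤ)) (J : ℤ) :
    ∃ P : ℕ, P ≠ 0 ∧ ∀ v : Γ → ℤ, (∀ f, |v f| ≤ J) → ∀ u : Γ → ℤ, v - P • u ∈ K → v ∈ K := by
  classical
  have h1 : ∀ v : Γ → ℤ, ∃ P : ℕ, P ≠ 0 ∧ ∀ u : Γ → ℤ, v - P • u ∈ K → v ∈ K := by
    intro v
    by_cases hv : v ∈ K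
    · exact ⟨1, one_ne_zero, fun _ _ => hv⟩
    let K' := AddSubgroup.toIntSubmodule K
    have hx : K'.mkQ v ≠ 0 := fun h => hv ((Submodule.Quotient.mk_eq_zero K').1 h)
    obtain ⟨n, hn0, hn⟩ : ∃ n : ℕ, n ≠ 0 ∧ ∀ r : ℤ, (n : ℤ) ∣ r → r • K'.mkQ v ≠ K'.mkQ v := by
      by_cases h0 : addOrderOf (K'.mkQ v) = 0
      · refine ⟨2, two_ne_zero, fun r hr h => ?_⟩
        have : (addOrderOf (K'.mkQ v) : ℤ) ∣ r - 1 := by
          rw [addOrderOf_dvd_iff_zsmul_eq_zero, sub_smul, h, one_smul, sub_self]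
        rw [h0] at this
        omega
      · refine ⟨_, h0, fun r hr h => hx ?_⟩
        rw [← h]
        exact addOrderOf_dvd_iff_zsmul_eq_zero.1 hr
    have h2 : K'.mkQ v ∉ (⨅ i : ℕ, (Ideal.span {(n : ℤ)}) ^ i • ⊤ : Submodule ℤ _) := by
      rw [Ideal.mem_iInf_smul_pow_eq_bot_iff]
      rintro ⟨r, hr⟩
      exact hn r (Ideal.mem_span_singleton.1 r.2) hr
    obtain ⟨i, hi⟩ := not_forall.1 fun h => h2 ((Submodule.mem_iInf _).2 h)
    refine ⟨n ^ i, pow_ne_zero _ hn0, fun u hu => absurd ?_ hi⟩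
    have : K'.mkQ v = ((n : ℤ) ^ i) • K'.mkQ u := by
      rw [← map_smul, Submodule.mkQ_apply, Submodule.mkQ_apply, Submodule.Quotient.eq]
      have : v - ((n : ℤ) ^ i) • u ∈ K := by simpa using hu
      exact this
    rw [this]
    exact Submodule.smul_mem_smul (Ideal.pow_mem_pow (Ideal.mem_span_singleton_self _) _) trivial
  choose P hP0 hP using h1
  let s := Fintype.piFinset fun _ : Γ => Finset.Icc (-J) J
  refine ⟨∏ v ∈ s, P v, Finset.prod_ne_zero_iff.2 fun v _ => hP0 v, fun v hv u hu => ?_⟩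
  have : v ∈ s := by simpa [s, abs_le] using hv
  obtain ⟨c, hc⟩ := Finset.dvd_prod_of_mem P this
  exact hP v (c • u) (by rwa [smul_smul, ← hc])

lemma exists_ball {E : Type*} [NormedAddCommGroup E] {n : ℕ} (c : Chain n E) :
    ∃ R : ℝ, 1 ≤ R ∧ c ∈ Ch n (Metric.ball 0 R) := by
  obtain ⟨R, hR⟩ := (c.support.isCompact_biUnion
    fun σ _ => isCompact_range σ.continuous).isBounded.subset_ball 0
  refine ⟨max 1 R, le_max_left _ _, fun σ hσ => ?_⟩
  exact ((subset_biUnion_of_mem (u := fun σ : C(Δ n, E) => range σ) hσ).trans hR).trans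
    (Metric.ball_subset_ball (le_max_right _ _))

variable {m : ℕ}

/-- the convex pieces of the cover dual to the integer grid -/
def piece (Z : Finset (Fin m)) (c : Fin m → ℤ) : Set (Fin m → ℝ) :=
  {x | (∀ t ∈ Z, |x t - c t| < 1 / 2) ∧ (∀ t ∉ Z, c t < x t ∧ x t < c t + 1) ∧
    ∀ t ∈ Z, ∀ s ∉ Z, |x t - c t| < x s - c s ∧ |x t - c t| < c s + 1 - x s}

open Classical in
/-- the integral coordinates -/
def intc (x : Fin m → ℝ) : Finset (Fin m) := Finset.univ.filter fun t => ∃ n : ℤ, x t = n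

lemma mem_intc {x : Fin m → ℝ} {t : Fin m} : t ∈ intc x ↔ ∃ n : ℤ, x t = n := by
  simp [intc]

lemma isOpen_piece (Z : Finset (Fin m)) (c : Fin m → ℤ) : IsOpen (piece Z c) := by
  simp only [piece, ofPred_and, ofPred_forall]
  refine IsOpen.inter ?_ (IsOpen.inter ?_ ?_)
  · exact isOpen_iInter_of_finite fun t => isOpen_iInter_of_finite fun _ =>
      isOpen_lt (by fun_prop) (by fun_prop)
  · exact isOpen_iInter_of_finite fun t => isOpen_iInter_of_finite fun _ =>
      (isOpen_lt (by fun_prop) (by fun_prop)).inter (isOpen_lt (by fun_prop) (by fun_prop))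
  · exact isOpen_iInter_of_finite fun t => isOpen_iInter_of_finite fun _ =>
      isOpen_iInter_of_finite fun t => isOpen_iInter_of_finite fun _ =>
      (isOpen_lt (by fun_prop) (by fun_prop)).inter (isOpen_lt (by fun_prop) (by fun_prop))

lemma cvx_lt {a b p q : ℝ} (ha : 0 ≤ a) (hb : 0 ≤ b) (hab : a + b = 1) (hp : 0 < p) (hq : 0 < q) :
    0 < a * p + b * q := by
  rcases hb.eq_or_lt with rfl | hb
  · simp only [add_zero] at hab; simpa [hab] using hp
  · exact add_pos_of_nonneg_of_pos (mul_nonneg ha hp.le) (mul_pos hb hq)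

lemma convex_piece (Z : Finset (Fin m)) (c : Fin m → ℤ) : Convex ℝ (piece Z c) := by
  rintro x ⟨x1, x2, x3⟩ y ⟨y1, y2, y3⟩ a b ha hb hab
  obtain rfl : b = 1 - a := by linarith
  simp only [piece, abs_lt, mem_ofPred_eq, Pi.add_apply, Pi.smul_apply, smul_eq_mul] at *
  refine ⟨fun t ht => ⟨?_, ?_⟩, fun t ht => ⟨?_, ?_⟩, fun t ht s hs => ⟨⟨?_, ?_⟩, ?_, ?_⟩⟩
  · linarith [cvx_lt ha hb hab (sub_pos.2 (x1 t ht).1) (sub_pos.2 (y1 t ht).1)]
  · linarith [cvx_lt ha hb hab (sub_pos.2 (x1 t ht).2) (sub_pos.2 (y1 t ht).2)]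
  · linarith [cvx_lt ha hb hab (sub_pos.2 (x2 t ht).1) (sub_pos.2 (y2 t ht).1)]
  · linarith [cvx_lt ha hb hab (sub_pos.2 (x2 t ht).2) (sub_pos.2 (y2 t ht).2)]
  · linarith [cvx_lt ha hb hab (sub_pos.2 (x3 t ht s hs).1.1) (sub_pos.2 (y3 t ht s hs).1.1)]
  · linarith [cvx_lt ha hb hab (sub_pos.2 (x3 t ht s hs).1.2) (sub_pos.2 (y3 t ht s hs).1.2)]
  · linarith [cvx_lt ha hb hab (sub_pos.2 (x3 t ht s hs).2.1) (sub_pos.2 (y3 t ht s hs).2.1)]
  · linarith [cvx_lt ha hb hab (sub_pos.2 (x3 t ht s hs).2.2) (sub_pos.2 (y3 t ht s hs).2.2)]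

lemma int_le_or (a b : ℤ) : (a : ℝ) ≤ b ∨ (b : ℝ) + 1 ≤ a := by
  rcases le_or_gt a b with h | h
  · exact Or.inl (by exact_mod_cast h)
  · exact Or.inr (by exact_mod_cast h)

lemma int_eq_of_abs {a b : ℤ} (h : |(a : ℝ) - b| < 1) : a = b := by
  have : |a - b| < 1 := by exact_mod_cast h
  rw [abs_lt] at this
  omega

lemma piece_unique {Z Z' : Finset (Fin m)} {c c' : Fin m → ℤ} (h : Z.card = Z'.card)
    {x : Fin m → ℝ} (hx : x ∈ piece Z c) (hx' : x ∈ piece Z' c') : Z = Z' ∧ c = c' := by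
  have hZ : Z = Z' := by
    by_contra hne
    obtain ⟨t, ht, ht'⟩ : ∃ t ∈ Z, t ∉ Z' := by
      by_contra! H
      exact hne (Finset.eq_of_subset_of_card_le H h.ge)
    obtain ⟨s, hs, hs'⟩ : ∃ s ∈ Z', s ∉ Z := by
      by_contra! H
      exact hne (Finset.eq_of_subset_of_card_le H h.le).symm
    have a := hx.2.2 t ht s hs'
    have b := hx'.2.2 s hs t ht'
    have a1 := le_abs_self (x t - c t)
    have a2 := neg_abs_le (x t - c t)
    have b1 := le_abs_self (x s - c' s)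
    have b2 := neg_abs_le (x s - c' s)
    rcases int_le_or (c t) (c' t) with h1 | h1 <;> rcases int_le_or (c' s) (c s) with h2 | h2 <;>
      linarith [a.1, a.2, b.1, b.2]
  subst hZ
  refine ⟨rfl, funext fun t => int_eq_of_abs ?_⟩
  by_cases ht : t ∈ Z
  · have a := abs_lt.1 (hx.1 t ht)
    have b := abs_lt.1 (hx'.1 t ht)
    rw [abs_lt]; constructor <;> linarith [a.1, a.2, b.1, b.2]
  · have a := hx.2.1 t ht
    have b := hx'.2.1 t ht
    rw [abs_lt]; constructor <;> linarith [a.1, a.2, b.1, b.2]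

lemma intc_subset {Z : Finset (Fin m)} {c : Fin m → ℤ} {x : Fin m → ℝ} (hx : x ∈ piece Z c) :
    intc x ⊆ Z := by
  intro t ht
  by_contra h
  obtain ⟨n, hn⟩ := mem_intc.1 ht
  have := hx.2.1 t h
  rw [hn] at this
  rcases int_le_or n (c t) with h1 | h1 <;> linarith [this.1, this.2]

lemma mem_piece_intc (x : Fin m → ℝ) : x ∈ piece (intc x) fun t => ⌊x t⌋ := by
  have h1 : ∀ t ∈ intc x, x t - ⌊x t⌋ = 0 := fun t ht => by
    obtain ⟨n, hn⟩ := mem_intc.1 ht
    simp [hn]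
  have h2 : ∀ t ∉ intc x, ⌊x t⌋ < x t := fun t ht =>
    (Int.floor_le _).lt_of_ne fun h => ht (mem_intc.2 ⟨_, h.symm⟩)
  refine ⟨fun t ht => by simp [h1 t ht], fun t ht => ⟨h2 t ht, Int.lt_floor_add_one _⟩,
    fun t ht s hs => ?_⟩
  rw [h1 t ht, abs_zero]
  exact ⟨sub_pos.2 (h2 s hs), sub_pos.2 (Int.lt_floor_add_one _)⟩

lemma piece_near {Z : Finset (Fin m)} {c : Fin m → ℤ} {x : Fin m → ℝ} (hx : x ∈ piece Z c)
    (t : Fin m) : |x t - c t| < 1 := by
  by_cases ht : t ∈ Z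
  · linarith [hx.1 t ht]
  · have a := hx.2.1 t ht
    rw [abs_lt]; constructor <;> linarith [a.1, a.2]

lemma piece_thick {Z : Finset (Fin m)} {c : Fin m → ℤ} {K : Set (Fin m → ℝ)} {r : ℝ}
    (h : (piece Z c ∩ Metric.thickening r K).Nonempty) :
    piece Z c ⊆ Metric.thickening (r + 2) K := by
  obtain ⟨x, hx, hx'⟩ := h
  obtain ⟨z, hz, hz'⟩ := Metric.mem_thickening_iff.1 hx'
  refine fun y hy => Metric.mem_thickening_iff.2 ⟨z, hz, ?_⟩
  have : dist y x ≤ 2 := (dist_pi_le_iff two_pos.le).2 fun t => by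
    have a := abs_lt.1 (piece_near hx t)
    have b := abs_lt.1 (piece_near hy t)
    rw [Real.dist_eq, abs_le]; constructor <;> linarith [a.1, a.2, b.1, b.2]
  linarith [dist_triangle y x z]

lemma finite_pieces {B : Set (Fin m → ℝ)} (hB : Bornology.IsBounded B) :
    {p : Finset (Fin m) × (Fin m → ℤ) | (piece p.1 p.2 ∩ B).Nonempty}.Finite := by
  obtain ⟨R, hR⟩ := hB.subset_ball 0
  refine (finite_univ.prod (Finite.pi' fun _ : Fin m => finite_Icc (-⌈R + 1⌉) ⌈R + 1⌉)).subset ?_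
  rintro ⟨Z, c⟩ ⟨x, hx, hx'⟩
  refine ⟨trivial, fun t => abs_le.1 ?_⟩
  have a := abs_lt.1 (piece_near hx t)
  have b := abs_le.1 ((norm_le_pi_norm x t).trans (mem_ball_zero_iff.1 (hR hx')).le)
  have : |(c t : ℝ)| ≤ (⌈R + 1⌉ : ℤ) := by
    refine le_trans ?_ (Int.le_ceil _)
    rw [abs_le]; constructor <;> linarith [a.1, a.2, b.1, b.2]
  exact_mod_cast this

/-- sets of `k` coordinates -/
abbrev Dir (m k : ℕ) := {Z : Finset (Fin m) // Z.card = k}

/-- the enumeration of a set of coordinates -/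
def Dir.emb {k : ℕ} (T : Dir m k) : Fin k ↪ Fin m := (T.1.orderEmbOfFin T.2).toEmbedding

lemma Dir.emb_mem {k : ℕ} (T : Dir m k) (j : Fin k) : T.emb j ∈ T.1 :=
  Finset.orderEmbOfFin_mem _ _ _

lemma Dir.exists_emb {k : ℕ} (T : Dir m k) {t : Fin m} (h : t ∈ T.1) : ∃ j, T.emb j = t := by
  have : t ∈ range (T.1.orderEmbOfFin T.2) := by rwa [Finset.range_orderEmbOfFin]
  exact this

/-- faces of codimension `k` -/
abbrev Face (m k : ℕ) := Dir m k × (Fin m → ℤ)

variable {k : ℕ}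

/-- the neighbourhood of a face -/
def Face.U (f : Face m k) : Set (Fin m → ℝ) := piece f.1.1 f.2

/-- the normal coordinates of a face -/
def Face.π (f : Face m k) (x : Fin m → ℝ) : Fin k → ℝ := fun j => x (f.1.emb j) - f.2 (f.1.emb j)

/-- points with at most `k` integral coordinates -/
def Wle (m k : ℕ) : Set (Fin m → ℝ) := {x | (intc x).card ≤ k}

/-- points with less than `k` integral coordinates -/
def Wlt (m k : ℕ) : Set (Fin m → ℝ) := {x | (intc x).card < k}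

lemma isOpen_Wle : IsOpen (Wle m k) := isOpen_iff_mem_nhds.2 fun x hx =>
  mem_of_superset ((isOpen_piece _ _).mem_nhds (mem_piece_intc x)) fun _ hy =>
    (Finset.card_le_card (intc_subset hy)).trans hx

lemma isOpen_Wlt : IsOpen (Wlt m k) := isOpen_iff_mem_nhds.2 fun x hx =>
  mem_of_superset ((isOpen_piece _ _).mem_nhds (mem_piece_intc x)) fun _ hy =>
    (Finset.card_le_card (intc_subset hy)).trans_lt hx

lemma Face.continuous_π (f : Face m k) : Continuous f.π := by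
  unfold Face.π; fun_prop

lemma Face.U_sub (f : Face m k) : f.U ⊆ Wle m k := fun _ hx =>
  (Finset.card_le_card (intc_subset hx)).trans f.1.2.le

lemma Face.disjoint : Pairwise (Function.onFun Disjoint (Face.U : Face m k → _)) :=
  fun f f' h => disjoint_left.2 fun _ hx hx' => h <|
    Prod.ext (Subtype.ext (piece_unique (f.1.2.trans f'.1.2.symm) hx hx').1)
      (piece_unique (f.1.2.trans f'.1.2.symm) hx hx').2

lemma Face.ne_of_Wlt (f : Face m k) {x : Fin m → ℝ} (hx : x ∈ Wlt m k) : f.π x ≠ 0 := by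
  intro h
  refine absurd hx (not_lt.2 (f.1.2.ge.trans (Finset.card_le_card fun t ht => ?_)))
  obtain ⟨j, rfl⟩ := f.1.exists_emb ht
  exact mem_intc.2 ⟨_, sub_eq_zero.1 (congrFun h j)⟩

lemma Face.Wlt_of_ne (f : Face m k) {x : Fin m → ℝ} (hx : x ∈ f.U) (h : f.π x ≠ 0) :
    x ∈ Wlt m k := by
  refine (Finset.card_lt_card ((intc_subset hx).ssubset_of_ne fun e => h (funext fun j => ?_))
    ).trans_eq f.1.2
  obtain ⟨n, hn⟩ := mem_intc.1 (e ▸ f.1.emb_mem j : f.1.emb j ∈ intc x)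
  have := hx.1 _ (f.1.emb_mem j)
  rw [hn] at this
  simp [Face.π, hn, int_eq_of_abs (this.trans one_half_lt_one)]

lemma exists_face {x : Fin m → ℝ} (hx : x ∈ Wle m k) (hx' : x ∉ Wlt m k) :
    ∃ f : Face m k, x ∈ f.U :=
  ⟨(⟨intc x, le_antisymm hx (not_lt.1 hx')⟩, _), mem_piece_intc x⟩

/-- the complement of a face -/
def Face.V (f : Face m k) : Set (Fin m → ℝ) := Wlt m k ∪ ⋃ f' : {f' : Face m k // f' ≠ f}, f'.1.U

lemma Face.isOpen_V (f : Face m k) : IsOpen f.V :=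
  isOpen_Wlt.union (isOpen_iUnion fun _ => isOpen_piece _ _)

lemma Face.union (f : Face m k) : f.U ∪ f.V = Wle m k := by
  refine Subset.antisymm (union_subset f.U_sub (union_subset (fun x hx => Nat.le_of_lt hx)
    (iUnion_subset fun f' => f'.1.U_sub))) fun x hx => ?_
  by_cases h : x ∈ Wlt m k
  · exact Or.inr (Or.inl h)
  obtain ⟨f', hf'⟩ := exists_face hx h
  by_cases e : f' = f
  · exact Or.inl (e ▸ hf')
  · exact Or.inr (Or.inr (mem_iUnion.2 ⟨⟨f', e⟩, hf'⟩))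

lemma Face.mapsTo (f : Face m k) : MapsTo f.π (f.U ∩ f.V) {0}ᶜ := by
  rintro x ⟨h1, h2 | h2⟩
  · exact f.ne_of_Wlt h2
  · obtain ⟨f', hf'⟩ := mem_iUnion.1 h2
    exact absurd h1 (disjoint_left.1 (Face.disjoint f'.2) hf')

lemma Face.bound (f : Face m k) {n : ℕ} {v : Chain (n + 1) (Fin m → ℝ)}
    (hv : v ∈ Cy n (f.U ∩ Wlt m k)) (h : push f.π (n + 1) v ∈ Bd (n + 1) {0}ᶜ) :
    v ∈ Bd (n + 1) (f.U ∩ Wlt m k) := by
  classical
  obtain ⟨c, hc, hc'⟩ := h
  obtain ⟨R, hR, hcR⟩ := exists_ball c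
  let s : (Fin k → ℝ) → (Fin m → ℝ) := fun y t =>
    (if t ∈ f.1.1 then (f.2 t : ℝ) else f.2 t + 1 / 2) +
      ∑ j, if f.1.emb j = t then (2 * R)⁻¹ * y j else 0
  have hs : Continuous s := continuous_pi fun t => continuous_const.add
    (continuous_finsetSum _ fun j _ => by split_ifs <;> fun_prop)
  have s1 : ∀ y j, s y (f.1.emb j) = f.2 (f.1.emb j) + (2 * R)⁻¹ * y j := fun y j => by
    simp [s, f.1.emb_mem]
  have s2 : ∀ y, ∀ t ∉ f.1.1, s y t = f.2 t + 1 / 2 := fun y t ht => by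
    have : ∀ j, f.1.emb j ≠ t := fun j e => ht (e ▸ f.1.emb_mem j)
    simp [s, ht, this]
  have s3 : ∀ y, f.π (s y) = (2 * R)⁻¹ • y := fun y => funext fun j => by simp [Face.π, s1]
  have s4 : ∀ y ∈ Metric.ball 0 R, s y ∈ f.U := fun y hy => by
    have : ∀ t ∈ f.1.1, |s y t - f.2 t| < 1 / 2 := fun t ht => by
      obtain ⟨j, rfl⟩ := f.1.exists_emb ht
      have := (norm_le_pi_norm y j).trans_lt (mem_ball_zero_iff.1 hy)
      rw [s1, add_sub_cancel_left, abs_mul, abs_of_pos (by positivity), inv_mul_lt_iff₀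
        (by positivity)]
      rw [Real.norm_eq_abs] at this
      linarith
    refine ⟨this, fun t ht => ?_, fun t ht u hu => ?_⟩
    · rw [s2 y t ht]; constructor <;> linarith
    · rw [s2 y u hu]; constructor <;> linarith [this t ht]
  have hR' : 0 < (2 * R)⁻¹ := by positivity
  have h1 := bd_mem_Bd (push_mem (B := f.U ∩ Wlt m k) hs.continuousOn (fun y hy =>
    ⟨s4 y hy.2, f.Wlt_of_ne (s4 y hy.2) (by rw [s3]; exact smul_ne_zero hR'.ne' hy.1)⟩)
    (Ch_inter hc hcR))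
  rw [bd_push hs.continuousOn (mem_Ch_univ _), hc', push_push' f.continuous_π hs] at h1
  have h2 := push_sub_push (B := f.U ∩ Wlt m k) (hs.comp f.continuous_π).continuousOn
    continuousOn_id (fun x hx y hy => by
      have hx' : f.π x ∈ Metric.ball 0 R := by
        rw [mem_ball_zero_iff, pi_norm_lt_iff (by positivity)]
        exact fun j => (piece_near hx.1 _).trans_le hR
      have hy' := (convex_piece _ _).segment_subset (s4 _ hx') hx.1 hy
      refine ⟨hy', f.Wlt_of_ne hy' ?_⟩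
      obtain ⟨a, b, ha, hb, hab, rfl⟩ := hy
      have e : f.π (a • (s ∘ f.π) x + b • id x) = (a * (2 * R)⁻¹ + b * 1) • f.π x := by
        obtain rfl : b = 1 - a := by linarith
        funext j
        simp only [Face.π, Function.comp_apply, Pi.add_apply, Pi.smul_apply, s1, id, smul_eq_mul]
        ring
      rw [e]
      exact smul_ne_zero (cvx_lt ha hb hab hR' one_pos).ne' (f.ne_of_Wlt hx.2)) hv.1 hv.2
  rw [push_id] at h2
  simpa using Submodule.add_mem _ h2 h1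

variable {j : ℕ} {μ : ℕ → (Fin k → ℝ) → (Fin k → ℝ)} (W : Wind (Fin k → ℝ) j μ)

/-- the intersection number with a face -/
def Wind.D (f : Face m k) (w : Chain (j + 2) (Fin m → ℝ)) : ℤ := W.deg f.U f.V f.π w

lemma Wind.D_add (f : Face m k) {v w : Chain (j + 2) (Fin m → ℝ)} (hv : v ∈ Cy (j + 1) (Wle m k))
    (hw : w ∈ Cy (j + 1) (Wle m k)) : W.D f (v + w) = W.D f v + W.D f w :=
  W.deg_add (isOpen_piece _ _) f.isOpen_V f.continuous_π.continuousOn f.mapsTo
    (f.union ▸ hv) (f.union ▸ hw)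

open Classical in
lemma Wind.D_eq {ι : Type*} [Fintype ι] (φ : ι → Face m k) {w w2 : Chain (j + 2) (Fin m → ℝ)}
    {u : ι → Chain (j + 2) (Fin m → ℝ)} (hw : bd (j + 1) _ w = 0)
    (hu : ∀ i, u i ∈ Ch (j + 2) (φ i).U) (h2 : w2 ∈ Ch (j + 2) (Wlt m k))
    (h : w - (∑ i, u i + w2) ∈ Bd (j + 2) (Wle m k))
    (hb : ∀ i, bd (j + 1) _ (u i) ∈ Ch (j + 1) (Wlt m k)) (f : Face m k) :
    W.D f w = ∑ i with φ i = f, W.ω (push f.π (j + 1) (bd (j + 1) _ (u i))) := by
  rw [Wind.D, W.deg_eq (U := f.U) (isOpen_piece _ _) f.isOpen_V f.continuous_π.continuousOn f.mapsTo hw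
    (w1 := ∑ i with φ i = f, u i) (w2 := ∑ i with ¬ φ i = f, u i + w2), map_sum, map_sum, W.sum]
  · exact fun i => push_Cy f.continuous_π.continuousOn (fun x hx => f.ne_of_Wlt hx)
      (bd_mem_Cy (hb i))
  · exact Submodule.sum_mem _ fun i hi => (Finset.mem_filter.1 hi).2 ▸ hu i
  · refine Submodule.add_mem _ (Submodule.sum_mem _ fun i hi => Ch_mono ?_ (hu i))
      (Ch_mono subset_union_left h2)
    exact fun x hx => Or.inr (mem_iUnion.2 ⟨⟨φ i, (Finset.mem_filter.1 hi).2⟩, hx⟩)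
  · rwa [← add_assoc, Finset.sum_filter_add_sum_filter_not, f.union]

/-- the faces near `K` -/
abbrev Near (k : ℕ) (K : Set (Fin m → ℝ)) :=
  {f : Face m k // (f.U ∩ Metric.thickening 3 K).Nonempty}

lemma finite_Near {K : Set (Fin m → ℝ)} (hK : Bornology.IsBounded K) : Finite (Near k K) := by
  have := (finite_pieces (hK.thickening (δ := 3))).to_subtype
  refine Finite.of_injective (β := {p : Finset (Fin m) × (Fin m → ℤ) |
    (piece p.1 p.2 ∩ Metric.thickening 3 K).Nonempty}) (fun f => ⟨(f.1.1.1, f.1.2), f.2⟩) ?_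
  intro f f' h
  have := congrArg Subtype.val h
  simp only [Prod.mk.injEq] at this
  exact Subtype.ext (Prod.ext (Subtype.ext this.1) this.2)

lemma near_cover (K : Set (Fin m → ℝ)) :
    Metric.thickening 3 K ∩ Wle m k ⊆ (⋃ f : Near k K, f.1.U) ∪ Wlt m k := by
  intro x hx
  by_cases h : x ∈ Wlt m k
  · exact Or.inr h
  obtain ⟨f, hf⟩ := exists_face hx.2 h
  exact Or.inl (mem_iUnion.2 ⟨⟨f, x, hf, hx.1⟩, hf⟩)

lemma Wind.D_ker (hk : k = j + 2) {K : Set (Fin m → ℝ)} (hK : Bornology.IsBounded K)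
    {w : Chain (j + 2) (Fin m → ℝ)} (hw : w ∈ Cy (j + 1) (Metric.thickening 3 K ∩ Wle m k))
    (h : ∀ f : Near k K, W.D f.1 w = 0) : w ∈ Bd (j + 2) (Metric.thickening 10 K) := by
  classical
  have := finite_Near (k := k) hK
  cases nonempty_fintype (Near k K)
  obtain ⟨u, w2, h1, h2, h3, h4⟩ := exists_family_decomp (U := fun f : Near k K => f.1.U)
    (fun f => isOpen_piece _ _) (fun f f' e => Face.disjoint fun e' => e (Subtype.ext e'))
    isOpen_Wlt (near_cover K) hw.1 hw.2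
  have h5 : ∀ f : Near k K, ∃ c ∈ Ch (j + 2) (f.1.U ∩ Wlt m k),
      bd (j + 1) _ c = bd (j + 1) _ (u f) := fun f => by
    refine f.1.bound (bd_mem_Cy (h4 f)) ((W.ker _ (push_Cy f.1.continuous_π.continuousOn
      (fun x hx => f.1.ne_of_Wlt hx.2) (bd_mem_Cy (h4 f)))).1 ?_)
    have := W.D_eq (fun f : Near k K => f.1) hw.2 (fun f => Ch_mono inter_subset_left (h1 f))
      (Ch_mono inter_subset_right h2) (Bd_mono inter_subset_right h3)
      (fun f => Ch_mono inter_subset_right (h4 f)) f.1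
    rw [h, Finset.sum_eq_single_of_mem f (by simp)
      fun g hg e => absurd (Subtype.ext (Finset.mem_filter.1 hg).2) e] at this
    exact this.symm
  choose c hc hc' using h5
  have hU : ∀ f : Near k K, f.1.U ⊆ Metric.thickening 5 K := fun f =>
    (piece_thick f.2).trans (Metric.thickening_mono (by norm_num) _)
  let I := {p : Finset (Fin m) × (Fin m → ℤ) //
    (piece p.1 p.2 ∩ Metric.thickening 5 K).Nonempty ∧ p.1.card < k}
  have : Finite I := ((finite_pieces (hK.thickening (δ := 5))).subset fun p hp => hp.1).to_subtype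
  have hA := acyc_levels (j + 1) I (fun p => piece p.1.1 p.1.2) (fun p => p.1.1.card)
    (fun p => isOpen_piece _ _) (fun p => convex_piece _ _) (fun p => by have := p.2.2; omega)
    (fun p q hpq e => disjoint_left.2 fun x hx hx' => hpq
      (Subtype.ext (Prod.ext (piece_unique e hx hx').1 (piece_unique e hx hx').2))) _ le_rfl
  have hV : Metric.thickening 5 K ∩ Wlt m k ⊆ ⋃ p : I, piece p.1.1 p.1.2 := fun x hx =>
    mem_iUnion.2 ⟨⟨(intc x, _), ⟨x, mem_piece_intc x, hx.1⟩, hx.2⟩, mem_piece_intc x⟩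
  have h6 := hA (∑ f, c f + w2) (Ch_mono hV (Submodule.add_mem _ (Submodule.sum_mem _ fun f _ =>
    Ch_mono (inter_subset_inter_left _ (hU f)) (hc f)) (Ch_mono (inter_subset_inter_left _
      (inter_subset_left.trans (Metric.thickening_mono (by norm_num) _))) h2))) (by
        have := bd_of_mem_Bd h3
        rw [map_sub, hw.2, zero_sub, neg_eq_zero, map_add, map_sum] at this
        rw [map_add, map_sum]
        simpa only [hc'] using this)
  have h7 : ∑ f, (u f - c f) ∈ Bd (j + 2) (Metric.thickening 10 K) :=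
    Submodule.sum_mem _ fun f _ => Bd_mono ((hU f).trans (Metric.thickening_mono (by norm_num) _))
      (acyc_of_convex (convex_piece _ _) _ _ (Submodule.sub_mem _
        (Ch_mono inter_subset_left (h1 f)) (Ch_mono inter_subset_left (hc f)))
        (by rw [map_sub, hc', sub_self]))
  have h8 := Bd_mono (iUnion_subset fun p : I => (piece_thick p.2.1).trans
    (Metric.thickening_mono (by norm_num : (5 : ℝ) + 2 ≤ 10) _)) h6
  have h9 := Bd_mono (inter_subset_left.trans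
    (Metric.thickening_mono (by norm_num : (3 : ℝ) ≤ 10) K)) h3
  have := Submodule.add_mem _ h9 (Submodule.add_mem _ h7 h8)
  rw [Finset.sum_sub_distrib] at this
  exact (congrArg (· ∈ _) (by abel)).mp this

theorem Wind.detect (hk : k = j + 2) {K : Set (Fin m → ℝ)} (hK : Bornology.IsBounded K) (J : ℤ) :
    ∃ P : ℕ, P ≠ 0 ∧ ∀ w ∈ Cy (j + 1) (Metric.thickening 3 K ∩ Wle m k),
      ∀ w' ∈ Cy (j + 1) (Metric.thickening 3 K ∩ Wle m k),
      w - w' ∈ Bd (j + 2) (Metric.thickening 10 K) → (∀ f : Near k K, |W.D f.1 w| ≤ J) →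
      (∀ f : Near k K, (P : ℤ) ∣ W.D f.1 w') → w ∈ Bd (j + 2) (Metric.thickening 10 K) := by
  have := finite_Near (k := k) hK
  cases nonempty_fintype (Near k K)
  let Dh : Cy (j + 1) (Metric.thickening 3 K ∩ Wle m k) →+ (Near k K → ℤ) :=
    AddMonoidHom.mk' (fun w f => W.D f.1 w) fun v w => funext fun f => W.D_add f.1
      ⟨Ch_mono inter_subset_right v.2.1, v.2.2⟩ ⟨Ch_mono inter_subset_right w.2.1, w.2.2⟩
  obtain ⟨P, hP, H⟩ := exists_modulus
    (((Bd (j + 2) (Metric.thickening 10 K)).comap (Submodule.subtype _)).toAddSubgroup.map Dh) J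
  refine ⟨P, hP, fun w hw w' hw' h h1 h2 => ?_⟩
  choose u hu using h2
  obtain ⟨v, hv, hv'⟩ := H (Dh ⟨w, hw⟩) h1 u ⟨⟨w, hw⟩ - ⟨w', hw'⟩, h, by
    rw [map_sub]
    congr 1
    funext f
    simpa [Dh] using hu f⟩
  have h0 : Dh (⟨w, hw⟩ - v) = 0 := by rw [map_sub, hv', sub_self]
  have := W.D_ker hk hK (Submodule.sub_mem _ hw v.2) fun f => congrFun h0 f
  simpa using Submodule.add_mem _ this hv

end Pool.Agent.Lib.MP_d476f3_gt
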