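import Pool.Agent.Lib.MP_d476f3_gt.Topo
import Pool.Agent.Lib.MP_d476f3_gt.Tau

set_option autoImplicit false

open Set Filter Topology MeasureTheory
open scoped ENNReal NNReal

noncomputable section

namespace Pool.Agent.Lib.MP_d476f3_gt

lemma lipschitz_clamp : LipschitzWith 1 clamp :=
  (LipschitzWith.id.const_min 1).const_max 0

lemma cube_le {k : ℕ} (E : Set (Fin k → ℝ)) : cube (Fin k) E ≤ volume E :=
  cube_proj_le (Function.Embedding.refl _) E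

lemma norm_le_one_of_cube {ι : Type} [Fintype ι] {a : ι → ℝ} (h : ∀ t, a t ∈ Icc (0 : ℝ) 1) :
    ‖a‖ ≤ 1 :=
  (pi_norm_le_iff_of_nonneg zero_le_one).2 fun t => abs_le.2 ⟨by linarith [(h t).1], (h t).2⟩

lemma cube_le_of {ι : Type} [Fintype ι] {E : Set (ι → ℝ)} {β : ℝ≥0∞}
    (h : cube ι {a | (∀ t, a t ∈ Icc (0 : ℝ) 1) ∧ a ∈ E} ≤ β) : cube ι E ≤ β :=
  (measure_mono_ae ((cube_ae ι).mono fun _ ha hE => ⟨ha, hE⟩)).trans h

section Fubini

variable {X V ι κ : Type} [TopologicalSpace X] [NormedAddCommGroup V] [Fintype ι] [Fintype κ]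
  {G : (ι → ℝ) → (κ → ℝ) → X → V} {S : X → ℝ} {K : Set X} {I : Set ℝ} {β : ℝ≥0∞}

lemma closed_hit (hG : Continuous fun p : X × (ι → ℝ) × (κ → ℝ) => G p.2.1 p.2.2 p.1)
    (hS : Continuous S) (hK : IsCompact K) (hI : IsClosed I) :
    IsClosed {p : (ι → ℝ) × (κ → ℝ) | ∃ x ∈ K, S x ∈ I ∧ G p.1 p.2 x = 0} := by
  have := isCompact_iff_compactSpace.1 hK
  have h := isClosedMap_snd_of_compactSpace (X := K) (Y := (ι → ℝ) × (κ → ℝ))
    {q | S q.1 ∈ I ∧ G q.2.1 q.2.2 q.1 = 0}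
    ((hI.preimage (hS.comp (continuous_subtype_val.comp continuous_fst))).inter
      (isClosed_eq (hG.comp (continuous_subtype_val.prodMap continuous_id)) continuous_const))
  refine (congrArg IsClosed ?_).mp h
  ext p
  simp [and_left_comm]

lemma fubini_fst (hG : Continuous fun p : X × (ι → ℝ) × (κ → ℝ) => G p.2.1 p.2.2 p.1)
    (hS : Continuous S) (hK : IsCompact K) (hI : IsClosed I)
    (h : ∀ b, (∀ t, b t ∈ Icc (0 : ℝ) 1) →
      cube ι {a | (∀ t, a t ∈ Icc (0 : ℝ) 1) ∧ ∃ x ∈ K, S x ∈ I ∧ G a b x = 0} ≤ β) :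
    (cube ι).prod (cube κ) {p | ∃ x ∈ K, S x ∈ I ∧ G p.1 p.2 x = 0} ≤ β := by
  rw [Measure.prod_apply_symm (closed_hit hG hS hK hI).measurableSet]
  refine (lintegral_mono_ae ((cube_ae κ).mono fun b hb => cube_le_of (h b hb))).trans (by simp)

lemma fubini_snd (hG : Continuous fun p : X × (ι → ℝ) × (κ → ℝ) => G p.2.1 p.2.2 p.1)
    (hS : Continuous S) (hK : IsCompact K) (hI : IsClosed I)
    (h : ∀ a, (∀ t, a t ∈ Icc (0 : ℝ) 1) →
      cube κ {b | (∀ t, b t ∈ Icc (0 : ℝ) 1) ∧ ∃ x ∈ K, S x ∈ I ∧ G a b x = 0} ≤ β) :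
    (cube ι).prod (cube κ) {p | ∃ x ∈ K, S x ∈ I ∧ G p.1 p.2 x = 0} ≤ β := by
  rw [Measure.prod_apply (closed_hit hG hS hK hI).measurableSet]
  refine (lintegral_mono_ae ((cube_ae ι).mono fun a ha => cube_le_of (h a ha))).trans (by simp)

end Fubini

namespace Cfg

variable {m k N : ℕ} {c : Cfg m k N} {Λ : ℝ} {K' : Set (Fin m → ℝ)} {H : Measure (Fin m → ℝ)}

variable (c) in
/-- `H` bounds the volume of images under maps dominated by the coordinates `F` -/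
def LipH (Λ : ℝ) (K' : Set (Fin m → ℝ)) (H : Measure (Fin m → ℝ)) : Prop :=
  ∀ (f : (Fin m → ℝ) → (Fin k → ℝ)) (L : ℝ) (Q : Set (Fin m → ℝ)), 0 < L → Q ⊆ K' →
    MeasurableSet Q → (∀ x ∈ Q, ∀ y ∈ Q, ∀ D : ℝ,
      (∀ i : c.Idx, dist (F Λ i x) (F Λ i y) ≤ D) → dist (f x) (f y) ≤ L * D) →
    volume (f '' Q) ≤ ENNReal.ofReal L ^ k * H Q

variable (c) in
/-- the point `x` lies on the unmodified part of the `i`-th skeleton -/
def MH (i : Fin (N + 1)) (a x : Fin m → ℝ) : Prop :=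
  (∀ t, a t ∈ Icc (0 : ℝ) 1) ∧ ∃ γ : c.Sheet, γ.1 = i ∧
    (∀ B : c.Box, B.g1 = γ ∨ B.g2 = γ → 9 ≤ B.S x) ∧ X γ x = c.ε • aT γ a

lemma norm_aT (γ : c.Sheet) {a : Fin m → ℝ} (ha : ∀ t, a t ∈ Icc (0 : ℝ) 1) : ‖aT γ a‖ ≤ 1 :=
  norm_le_one_of_cube fun _ => ha _

lemma norm_eps {v : Fin k → ℝ} (h : ‖v‖ ≤ 1) : ‖c.ε • v‖ ≤ c.ε := by
  rw [norm_smul, Real.norm_of_nonneg c.hε.le]
  exact mul_le_of_le_one_right c.hε.le h

lemma measurable_act (γ : c.Sheet) : MeasurableSet {x | ‖X γ x‖ < 3} :=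
  (isOpen_lt (contDiff_X γ).continuous.norm continuous_const).measurableSet

lemma main_hit (hH : c.LipH Λ K' H) {Q : Set (Fin m → ℝ)} (hQ : Q ⊆ K') (hm : MeasurableSet Q)
    (i : Fin (N + 1)) : cube (Fin m) {a | ∃ x ∈ Q, c.MH i a x} ≤
      ∑ γ : c.Sheet with γ.1 = i, H (Q ∩ {x | ‖X γ x‖ < 3}) := by
  refine (measure_mono (t := ⋃ γ ∈ Finset.univ.filter fun γ : c.Sheet => γ.1 = i,
    {a | aT γ a ∈ main γ '' (Q ∩ {x | ‖X γ x‖ < 3})}) ?_).trans
    ((measure_biUnion_finset_le _ _).trans (Finset.sum_le_sum fun γ _ => ?_))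
  · rintro a ⟨x, hx, ha, γ, h1, h2, h3⟩
    refine mem_biUnion (x := γ) (by simpa using h1) ⟨x, ⟨hx, ?_⟩, ?_⟩
    · exact (h3 ▸ norm_eps (norm_aT γ ha)).trans_lt (by linarith [c.ε_le])
    · rw [main, Finset.prod_eq_one fun B hB => Real.smoothTransition.one_of_one_le
        (by linarith [h2 B (by simpa using hB)]), h3, smul_smul, inv_mul_cancel₀ c.hε.ne', one_smul,
        one_smul, Phi, bump_one (norm_aT γ ha), one_smul]
  · refine (cube_proj_le γ.2.1.emb _).trans ((hH _ 1 _ one_pos (inter_subset_left.trans hQ)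
      (hm.inter (measurable_act γ)) fun x _ y _ D hD => ?_).trans (by simp))
    rw [one_mul]
    exact (dist_pi_le_iff (dist_nonneg.trans (hD (.inl (γ, ⟨0, by linarith [c.hk]⟩))))).2
      fun j => hD (.inl (γ, j))

lemma overlap {Q : Set (Fin m → ℝ)} (hQ : Q ⊆ c.K) (hm : MeasurableSet Q) :
    ∑ γ : c.Sheet, H (Q ∩ {x | ‖X γ x‖ < 3}) ≤ 2 ^ c.d * H Q := by
  have h1 : ∀ γ : c.Sheet, H (Q ∩ {x | ‖X γ x‖ < 3}) =
      ∫⁻ x in Q, {x | ‖X γ x‖ < 3}.indicator 1 x ∂H := fun γ => by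
    rw [lintegral_indicator_one (measurable_act γ), Measure.restrict_apply (measurable_act γ),
      inter_comm]
  simp_rw [h1]
  rw [← lintegral_finsetSum _ fun γ _ => measurable_one.indicator (measurable_act γ),
    ← setLIntegral_const]
  refine setLIntegral_mono' hm fun x hx => ?_
  simp only [indicator, mem_ofPred_eq, Pi.one_apply, Finset.sum_boole]
  exact_mod_cast card_active (hQ hx)

variable (hH : c.LipH Λ K' H) (hK' : IsCompact K') (hΛ : 0 < Λ) {L : ℝ≥0} (hL : 1 ≤ L)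
include hH hK' hΛ hL

lemma slice (B : c.Box) (l : Fin 4) {ν : (Fin k → ℝ) → (Fin k → ℝ)}
    (hν : LipschitzOnWith L ν (Metric.closedBall 0 2)) {κ : ℝ → ℝ}
    (hκ : ∃ s0, κ = (fun s => s - s0) ∨ κ = fun s => s0 - s) {w : Fin k → ℝ} (hw : ‖w‖ ≤ 1) :
    volume {u | ∃ x ∈ K', B.S x ∈ Icc (lo l) (hi l) ∧ ‖B.v l x‖ ≤ c.es ∧
      ν (B.v l x - clamp (κ (B.S x)) • w) = c.ε • u} ≤
      ENNReal.ofReal (2 * L / (c.ε * Λ)) ^ k * H K' := by
  have hε := c.hε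
  have hL0 : (0 : ℝ) < L := zero_lt_one.trans_le (by exact_mod_cast hL)
  have hκ' : ∀ s t, dist (clamp (κ s)) (clamp (κ t)) ≤ dist s t := fun s t => by
    refine (lipschitz_clamp.dist_le_mul _ _).trans ?_
    obtain ⟨s0, rfl | rfl⟩ := hκ
    · simp
    · rw [dist_sub_left]; simp
  have h1 := hH (fun x => c.ε⁻¹ • ν (B.v l x - clamp (κ (B.S x)) • w)) (2 * L / (c.ε * Λ))
    (K' ∩ {x | B.S x ∈ Icc (lo l) (hi l) ∧ ‖B.v l x‖ ≤ c.es}) (by positivity) inter_subset_left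
    (hK'.measurableSet.inter ((isClosed_Icc.preimage B.contDiff_S.continuous).inter
      (isClosed_le (B.contDiff_v l).continuous.norm continuous_const)).measurableSet) ?_
  · refine (measure_mono ?_).trans (h1.trans (by gcongr; exact inter_subset_left))
    rintro u ⟨x, hx, h1, h2, h3⟩
    exact ⟨x, ⟨hx, h1, h2⟩, by simp [h3, smul_smul, hε.ne']⟩
  have ha : ∀ x, B.S x ∈ Icc (lo l) (hi l) ∧ ‖B.v l x‖ ≤ c.es →
      aux Λ B l x = Λ • (B.v l x, B.S x) ∧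
        B.v l x - clamp (κ (B.S x)) • w ∈ Metric.closedBall 0 2 := fun x hx => by
    constructor
    · rw [aux, cut_one hx.1, bump_one, mul_one, mul_one]
      rw [norm_smul, Real.norm_of_nonneg (inv_pos.2 c.es_pos).le, inv_mul_le_iff₀ c.es_pos]
      simpa using hx.2
    · rw [mem_closedBall_zero_iff]
      refine (norm_sub_le _ _).trans ?_
      rw [norm_smul, Real.norm_of_nonneg (clamp_nonneg _)]
      nlinarith [clamp_le (κ (B.S x)), clamp_nonneg (κ (B.S x)), hx.2, c.hes, c.c0_le, c.es_pos,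
        norm_nonneg w]
  rintro x ⟨-, hx⟩ y ⟨-, hy⟩ D hD
  have d1 : dist (B.S x) (B.S y) ≤ D / Λ := by
    have := hD (.inr (B, l, none))
    simp only [F, (ha x hx).1, (ha y hy).1, Prod.smul_snd, dist_smul₀,
      Real.norm_of_nonneg hΛ.le] at this
    rwa [le_div_iff₀' hΛ]
  have d2 : dist (B.v l x) (B.v l y) ≤ D / Λ :=
    (dist_pi_le_iff (dist_nonneg.trans d1)).2 fun j => by
      have := hD (.inr (B, l, some j))
      simp only [F, (ha x hx).1, (ha y hy).1, Prod.smul_fst, Pi.smul_apply, dist_smul₀,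
        Real.norm_of_nonneg hΛ.le] at this
      rwa [le_div_iff₀' hΛ]
  have d3 : dist (clamp (κ (B.S x)) • w) (clamp (κ (B.S y)) • w) ≤ D / Λ := by
    rw [dist_eq_norm, ← sub_smul, norm_smul, ← dist_eq_norm]
    exact (mul_le_of_le_one_right dist_nonneg hw).trans ((hκ' _ _).trans d1)
  rw [dist_smul₀, Real.norm_of_nonneg (inv_pos.2 hε).le]
  calc _ ≤ c.ε⁻¹ * (L * (D / Λ + D / Λ)) := by
        gcongr
        refine (hν.dist_le_mul _ (ha x hx).2 _ (ha y hy).2).trans ?_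
        gcongr
        exact (dist_sub_sub_le _ _ _ _).trans (add_le_add d2 d3)
    _ = _ := by field_simp; ring

lemma slice_fib (B : c.Box) (l : Fin 4) {κ : ℝ → ℝ}
    (hκ : ∃ s0, κ = (fun s => s - s0) ∨ κ = fun s => s0 - s) {w : Fin k → ℝ} (hw : ‖w‖ ≤ 1) :
    volume {u | ‖u‖ ≤ 1 ∧ ∃ x ∈ K', B.S x ∈ Icc (lo l) (hi l) ∧
      c.μ (B.v l x - c.ε • u) = c.D (clamp (κ (B.S x))) (c.ε • w)} ≤
      c.P * (ENNReal.ofReal (2 * L / (c.ε * Λ)) ^ k * H K') := by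
  obtain ⟨s, hs, hs'⟩ := c.hμ.fin (c.ε • w)
  refine (measure_mono (t := ⋃ p ∈ s.filter fun p => ‖p‖ ≤ 1, {u | ∃ x ∈ K',
    B.S x ∈ Icc (lo l) (hi l) ∧ ‖B.v l x‖ ≤ c.es ∧
      id (B.v l x - clamp (κ (B.S x)) • p) = c.ε • u}) ?_).trans
    ((measure_biUnion_finset_le _ _).trans ((Finset.sum_le_card_nsmul _ _ _ fun p hp =>
      slice hH hK' hΛ hL B l (LipschitzWith.id.weaken hL).lipschitzOnWith hκ
        (Finset.mem_filter.1 hp).2).trans ?_))
  · rintro u ⟨hu, x, hx, h1, h2⟩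
    obtain ⟨p, h3, h4⟩ := c.hμ.fib _ (clamp_nonneg _) _ _ h2
    have h5 := c.hsm p (h3 ▸ norm_eps hw)
    refine mem_biUnion (x := p) (Finset.mem_filter.2 ⟨hs' p h3, by
      linarith [c.hes, c.c0_le, c.es_pos]⟩) ⟨x, hx, h1, ?_, by rw [← h4]; simp⟩
    rw [sub_eq_iff_eq_add.1 h4]
    refine (norm_add_le _ _).trans ?_
    rw [norm_smul, Real.norm_of_nonneg (clamp_nonneg _)]
    nlinarith [clamp_le (κ (B.S x)), norm_nonneg p, norm_eps (c := c) hu, c.hεs]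
  · rw [nsmul_eq_mul]
    gcongr
    exact (Finset.card_filter_le _ _).trans hs

lemma slice_mu (hμ : LipschitzOnWith L c.μ (Metric.closedBall 0 2)) (B : c.Box) (l l' : Fin 4)
    {κ : ℝ → ℝ} (hκ : ∃ s0, κ = (fun s => s - s0) ∨ κ = fun s => s0 - s) {w : Fin k → ℝ}
    (hw : ‖w‖ ≤ 1) :
    volume {u | ‖u‖ ≤ 1 ∧ ∃ x ∈ K', (B.S x ∈ Icc (lo l) (hi l) ∧
      c.μ (B.v l x - (clamp (κ (B.S x)) * c.ε) • w) = c.ε • u) ∨
        (B.S x ∈ Icc (lo l') (hi l') ∧ B.v l' x = c.ε • u)} ≤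
      2 * (ENNReal.ofReal (2 * L / (c.ε * Λ)) ^ k * H K') := by
  rw [two_mul]
  refine (measure_mono ?_).trans ((measure_union_le _ _).trans (add_le_add
    (slice hH hK' hΛ hL B l hμ hκ ((norm_eps hw).trans (by linarith [c.ε_le])))
    (slice hH hK' hΛ hL B l' (LipschitzWith.id.weaken hL).lipschitzOnWith hκ (w := 0) (by simp))))
  rintro u ⟨hu, x, hx, ⟨h1, h2⟩ | ⟨h1, h2⟩⟩
  · refine Or.inl ⟨x, hx, h1, ?_, by rwa [smul_smul]⟩
    have h3 := c.hsm _ (h2 ▸ norm_eps hu)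
    have h4 : ‖(clamp (κ (B.S x)) * c.ε) • w‖ ≤ c.ε := by
      rw [← smul_smul, norm_smul, Real.norm_of_nonneg (clamp_nonneg _)]
      nlinarith [clamp_le (κ (B.S x)), norm_eps (c := c) hw, norm_nonneg (c.ε • w)]
    linarith [norm_le_norm_add_norm_sub' (B.v l x) ((clamp (κ (B.S x)) * c.ε) • w), c.hεs]
  · exact Or.inr ⟨x, hx, h1, (h2 ▸ norm_eps hu).trans (by linarith [c.hεs, c.hε]), by simp [h2]⟩

lemma box_hit (hμ : LipschitzOnWith L c.μ (Metric.closedBall 0 2)) (B : c.Box) :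
    (cube (Fin m)).prod (cube (Fin k)) ({p | ∃ x ∈ K', B.S x ∈ Icc (2 : ℝ) 9 ∧ B.G1 p.1 p.2 x = 0} ∪
      {p | ∃ x ∈ K', B.S x ∈ Icc (0 : ℝ) 9 ∧ B.G2 p.1 p.2 x = 0}) ≤
      (2 * c.P + 4) * (ENNReal.ofReal (2 * L / (c.ε * Λ)) ^ k * H K') := by
  have hS := B.contDiff_S.continuous
  have e1 := fubini_fst B.continuous_G1 hS hK' (isClosed_Icc (a := 3) (b := 9)) fun b hb =>
    le_trans (measure_mono (by
      rintro a ⟨ha, x, hx, h1, h2⟩
      refine ⟨norm_aT B.g1 ha, x, hx, ?_⟩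
      rw [Box.G1, clamp_one (by linarith [h1.1] : 1 ≤ B.S x - 2), c.hμ.D1, sub_eq_zero] at h2
      rcases le_total (B.S x) 4 with h | h
      · rw [B.t_one (by linarith), y1_one] at h2
        exact Or.inl ⟨⟨by simp [lo]; linarith [h1.1], by simpa [hi] using h⟩, h2⟩
      · rw [clamp_zero (by linarith), zero_mul, zero_smul, sub_zero] at h2
        exact Or.inr ⟨⟨by simpa [lo] using h, by simpa [hi] using h1.2⟩, h2⟩))
      ((cube_proj_le B.g1.2.1.emb _).trans (slice_mu hH hK' hΛ hL hμ B 1 0 ⟨4, Or.inr rfl⟩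
        (norm_le_one_of_cube hb)))
  have e2 := fubini_snd B.continuous_G1 hS hK' (isClosed_Icc (a := 2) (b := 3)) fun a ha =>
    le_trans (measure_mono (by
      rintro b ⟨hb, x, hx, h1, h2⟩
      refine ⟨norm_le_one_of_cube hb, x, hx, ⟨by simpa [lo] using h1.1, by
        simp [hi]; linarith [h1.2]⟩, ?_⟩
      rwa [Box.G1, clamp_one (by linarith [h1.2] : 1 ≤ 4 - B.S x), one_mul,
        B.t_one (by linarith [h1.2]), y1_one, sub_eq_zero] at h2))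
      ((cube_le _).trans (slice_fib hH hK' hΛ hL B 1 ⟨2, Or.inl rfl⟩ (norm_aT B.g1 ha)))
  have e3 := fubini_fst B.continuous_G2 hS hK' (isClosed_Icc (a := 8) (b := 9)) fun b hb =>
    le_trans (measure_mono (by
      rintro a ⟨ha, x, hx, h1, h2⟩
      refine ⟨norm_aT B.g2 ha, x, hx, ⟨by simp [lo]; linarith [h1.1], by
        simpa [hi] using h1.2⟩, ?_⟩
      rwa [Box.G2, clamp_one (by linarith [h1.1] : 1 ≤ B.S x - 7), one_mul,
        B.t_zero (by linarith [h1.1]), y2_zero, sub_eq_zero] at h2))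
      ((cube_proj_le B.g2.2.1.emb _).trans (slice_fib hH hK' hΛ hL B 2 ⟨9, Or.inr rfl⟩
        (norm_le_one_of_cube hb)))
  have e4 := fubini_snd B.continuous_G2 hS hK' (isClosed_Icc (a := 0) (b := 8)) fun a ha =>
    le_trans (measure_mono (by
      rintro b ⟨hb, x, hx, h1, h2⟩
      refine ⟨norm_le_one_of_cube hb, x, hx, ?_⟩
      rw [Box.G2, clamp_one (by linarith [h1.2] : 1 ≤ 9 - B.S x), c.hμ.D1, sub_eq_zero] at h2
      rcases le_total 7 (B.S x) with h | h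
      · rw [B.t_zero (by linarith), y2_zero] at h2
        exact Or.inl ⟨⟨by simpa [lo] using h, by simp [hi]; linarith [h1.2]⟩, h2⟩
      · rw [clamp_zero (by linarith), zero_mul, zero_smul, sub_zero] at h2
        exact Or.inr ⟨⟨by simpa [lo] using h1.1, by simpa [hi] using h⟩, h2⟩))
      ((cube_le _).trans (slice_mu hH hK' hΛ hL hμ B 2 3 ⟨7, Or.inl rfl⟩ (norm_aT B.g2 ha)))
  refine (measure_mono ?_).trans ((measure_union_le _ _).trans ((add_le_add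
    ((measure_union_le _ _).trans (add_le_add e1 e2))
    ((measure_union_le _ _).trans (add_le_add e3 e4))).trans (le_of_eq (by ring))))
  rintro p (⟨x, hx, h1, h2⟩ | ⟨x, hx, h1, h2⟩)
  · rcases le_total 3 (B.S x) with h | h
    exacts [Or.inl (Or.inl ⟨x, hx, ⟨h, h1.2⟩, h2⟩), Or.inl (Or.inr ⟨x, hx, ⟨h1.1, h⟩, h2⟩)]
  · rcases le_total 8 (B.S x) with h | h
    exacts [Or.inr (Or.inl ⟨x, hx, ⟨h, h1.2⟩, h2⟩), Or.inr (Or.inr ⟨x, hx, ⟨h1.1, h⟩, h2⟩)]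

theorem exists_noHit (hμ : LipschitzOnWith L c.μ (Metric.closedBall 0 2)) (hK : K' ⊆ c.K)
    (h1 : 2 ^ c.d * H K' < N / 2)
    (h2 : Fintype.card c.Box * ((2 * c.P + 4) * (ENNReal.ofReal (2 * L / (c.ε * Λ)) ^ k * H K')) ≤
      1 / 2) : ∃ i a b, (∀ t, a t ∈ Icc (0 : ℝ) 1) ∧ c.NoHit K' i a b := by
  obtain ⟨i, hi⟩ : ∃ i, cube (Fin m) {a | ∃ x ∈ K', c.MH i a x} < 1 / 2 := by
    by_contra! h
    have h3 := (Finset.card_nsmul_le_sum Finset.univ _ _ fun i _ => (h i).trans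
      (main_hit hH Subset.rfl hK'.measurableSet i)).trans_eq (Finset.sum_fiberwise _ _ _)
    have h4 := (h3.trans (overlap hK hK'.measurableSet)).trans_lt h1
    rw [Finset.card_univ, Fintype.card_fin, nsmul_eq_mul, mul_one_div] at h4
    exact absurd h4 (not_lt.2 (by gcongr; exact Nat.le_succ N))
  by_contra! h
  have h3 : (cube (Fin m)).prod (cube (Fin k)) univ ≤ (cube (Fin m)).prod (cube (Fin k))
      ({a | ∃ x ∈ K', c.MH i a x} ×ˢ univ ∪ ⋃ B ∈ (Finset.univ : Finset c.Box),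
        ({p | ∃ x ∈ K', B.S x ∈ Icc (2 : ℝ) 9 ∧ B.G1 p.1 p.2 x = 0} ∪
          {p | ∃ x ∈ K', B.S x ∈ Icc (0 : ℝ) 9 ∧ B.G2 p.1 p.2 x = 0})) := by
    refine measure_mono_ae ((Measure.quasiMeasurePreserving_fst.ae (cube_ae _)).mono
      fun p hp _ => ?_)
    by_contra h4
    exact h i p.1 p.2 hp ⟨fun x hx γ a1 a2 a3 => h4 (Or.inl ⟨⟨x, hx, hp, γ, a1, a2, a3⟩, trivial⟩),
      fun x hx B hB e => h4 (Or.inr (mem_biUnion (Finset.mem_univ B) (Or.inl ⟨x, hx, hB, e⟩))),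
      fun x hx B hB e => h4 (Or.inr (mem_biUnion (Finset.mem_univ B) (Or.inr ⟨x, hx, hB, e⟩)))⟩
  have h4 := h3.trans ((measure_union_le _ _).trans (add_le_add le_rfl
    ((measure_biUnion_finset_le _ _).trans ((Finset.sum_le_card_nsmul _ _ _ fun B _ =>
      box_hit hH hK' hΛ hL hμ B).trans ((nsmul_eq_mul _ _).trans_le h2)))))
  rw [Measure.prod_prod, measure_univ, measure_univ, mul_one] at h4
  exact absurd (h4.trans_lt (ENNReal.add_lt_add_right (by simp) hi)) 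
    (by simp [ENNReal.inv_two_add_inv_two])

end Cfg

end Pool.Agent.Lib.MP_d476f3_gt
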