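import Pool.Agent.Lib.MP_d476f3_gt.Defs

set_option autoImplicit false

open Set Finsupp

noncomputable section

namespace Pool.Agent.Lib.MP_d476f3_gt

variable {A B A' B' : Type*}

/-- formal chains of `n`-tuples -/
abbrev LC (n : ℕ) (A : Type*) := (Fin n → A) →₀ ℤ

def lbd (n : ℕ) (A : Type*) : LC (n + 1) A →ₗ[ℤ] LC n A :=
  linearCombination ℤ fun v => ∑ i : Fin (n + 1), (-1 : ℤ) ^ (i : ℕ) • single (v ∘ i.succAbove) 1

def lmap (f : A → B) (n : ℕ) : LC n A →ₗ[ℤ] LC n B := lmapDomain ℤ ℤ fun v => f ∘ v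

def lcone (b : A) (n : ℕ) : LC n A →ₗ[ℤ] LC (n + 1) A :=
  lmapDomain ℤ ℤ fun v => (Fin.cons b v : Fin (n + 1) → A)

lemma lin_ext {α M : Type*} [AddCommGroup M] {f g : (α →₀ ℤ) →ₗ[ℤ] M}
    (h : ∀ a, f (single a 1) = g (single a 1)) (c : α →₀ ℤ) : f c = g c := by
  have : f = g := by
    ext a
    simpa using h a
  rw [this]

lemma lbd_single (n : ℕ) (v : Fin (n + 1) → A) :
    lbd n A (single v 1) =
      ∑ i : Fin (n + 1), (-1 : ℤ) ^ (i : ℕ) • single (v ∘ i.succAbove) 1 := by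
  simp [lbd]

@[simp] lemma lmap_single (f : A → B) (n : ℕ) (v : Fin n → A) (a : ℤ) :
    lmap f n (single v a) = single (f ∘ v) a := by
  simp [lmap]

@[simp] lemma lcone_single (b : A) (n : ℕ) (v : Fin n → A) (a : ℤ) :
    lcone b n (single v a) = single (Fin.cons b v : Fin (n + 1) → A) a := by
  simp [lcone]

lemma lbd_lcone_zero (b : A) (c : LC 0 A) : lbd 0 A (lcone b 0 c) = c := by
  refine lin_ext (f := lbd 0 A ∘ₗ lcone b 0) (g := LinearMap.id) (fun v => ?_) c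
  simp only [LinearMap.comp_apply, lcone_single, lbd_single, LinearMap.id_apply]
  simp [Subsingleton.elim (_ : Fin 0 → A) v]

lemma lbd_lcone (b : A) (n : ℕ) (c : LC (n + 1) A) :
    lbd (n + 1) A (lcone b (n + 1) c) = c - lcone b n (lbd n A c) := by
  refine lin_ext (f := lbd (n + 1) A ∘ₗ lcone b (n + 1))
    (g := LinearMap.id - lcone b n ∘ₗ lbd n A) (fun v => ?_) c
  simp only [LinearMap.comp_apply, lcone_single, lbd_single, LinearMap.id_apply,
    LinearMap.sub_apply, map_sum, map_smul]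
  rw [Fin.sum_univ_succ, sub_eq_add_neg, ← Finset.sum_neg_distrib]
  congr 1
  · simp only [Fin.val_zero, pow_zero, one_smul]
    congr 1
  · refine Finset.sum_congr rfl fun i _ => ?_
    rw [Fin.val_succ, pow_succ, mul_neg_one, neg_smul]
    congr 3
    funext j
    refine Fin.cases ?_ (fun j => ?_) j <;> simp

lemma lbd_lbd : ∀ (n : ℕ) (c : LC (n + 2) A), lbd n A (lbd (n + 1) A c) = 0 := by
  intro n
  induction n with
  | zero =>
    refine lin_ext (f := lbd 0 A ∘ₗ lbd 1 A) (g := 0) fun v => ?_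
    have : single v (1 : ℤ) = lcone (v 0) 1 (single (Fin.tail v) 1) := by simp
    rw [this, LinearMap.comp_apply, lbd_lcone, map_sub, lbd_lcone_zero]
    simp
  | succ n ih =>
    refine lin_ext (f := lbd (n + 1) A ∘ₗ lbd (n + 2) A) (g := 0) fun v => ?_
    have : single v (1 : ℤ) = lcone (v 0) (n + 2) (single (Fin.tail v) 1) := by simp
    rw [this, LinearMap.comp_apply, lbd_lcone, map_sub, lbd_lcone, ih]
    simp

lemma lbd_lmap (f : A → B) (n : ℕ) (c : LC (n + 1) A) :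
    lbd n B (lmap f (n + 1) c) = lmap f n (lbd n A c) := by
  refine lin_ext (f := lbd n B ∘ₗ lmap f (n + 1)) (g := lmap f n ∘ₗ lbd n A) (fun v => ?_) c
  simp only [LinearMap.comp_apply, lmap_single, lbd_single, map_sum, map_smul]
  rfl

lemma lmap_lcone (f : A → B) (b : A) (n : ℕ) (c : LC n A) :
    lmap f (n + 1) (lcone b n c) = lcone (f b) n (lmap f n c) := by
  refine lin_ext (f := lmap f (n + 1) ∘ₗ lcone b n) (g := lcone (f b) n ∘ₗ lmap f n)
    (fun v => ?_) c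
  simp only [LinearMap.comp_apply, lmap_single, lcone_single, Fin.comp_cons]

lemma lmap_lmap {C : Type*} (f : A → B) (g : B → C) (n : ℕ) (c : LC n A) :
    lmap g n (lmap f n c) = lmap (g ∘ f) n c := by
  refine lin_ext (f := lmap g n ∘ₗ lmap f n) (g := lmap (g ∘ f) n) (fun v => ?_) c
  simp only [LinearMap.comp_apply, lmap_single]
  rfl

/-- formal barycentric subdivision -/
def lsd (b : ∀ n, (Fin (n + 1) → A) → A) : ∀ n, LC n A →ₗ[ℤ] LC n A
  | 0 => LinearMap.id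
  | n + 1 => linearCombination ℤ fun v => lcone (b n v) n (lsd b n (lbd n A (single v 1)))

lemma lsd_single (b : ∀ n, (Fin (n + 1) → A) → A) (n : ℕ) (v : Fin (n + 1) → A) :
    lsd b (n + 1) (single v 1) = lcone (b n v) n (lsd b n (lbd n A (single v 1))) := by
  simp [lsd]

lemma lbd_lsd (b : ∀ n, (Fin (n + 1) → A) → A) :
    ∀ (n : ℕ) (c : LC (n + 1) A), lbd n A (lsd b (n + 1) c) = lsd b n (lbd n A c) := by
  intro n
  induction n with
  | zero =>
    refine lin_ext (f := lbd 0 A ∘ₗ lsd b 1) (g := lsd b 0 ∘ₗ lbd 0 A) fun v => ?_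
    simp only [LinearMap.comp_apply, lsd_single, lbd_lcone_zero]
  | succ n ih =>
    refine lin_ext (f := lbd (n + 1) A ∘ₗ lsd b (n + 2)) (g := lsd b (n + 1) ∘ₗ lbd (n + 1) A)
      fun v => ?_
    simp only [LinearMap.comp_apply]
    rw [lsd_single, lbd_lcone, ih, lbd_lbd]
    simp

lemma lsd_lmap (b : ∀ n, (Fin (n + 1) → A) → A) (b' : ∀ n, (Fin (n + 1) → B) → B) (f : A → B)
    (h : ∀ n v, b' n (f ∘ v) = f (b n v)) :
    ∀ (n : ℕ) (c : LC n A), lsd b' n (lmap f n c) = lmap f n (lsd b n c) := by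
  intro n
  induction n with
  | zero => intro c; rfl
  | succ n ih =>
    refine lin_ext (f := lsd b' (n + 1) ∘ₗ lmap f (n + 1)) (g := lmap f (n + 1) ∘ₗ lsd b (n + 1))
      fun v => ?_
    simp only [LinearMap.comp_apply]
    rw [lsd_single, lmap_lcone, ← ih, ← lbd_lmap, lmap_single, lsd_single, h]

/-- the homotopy between two formal chain maps obtained by coning -/
def lH (φ : ∀ n, LC n A →ₗ[ℤ] LC n B) (a : ∀ n, (Fin (n + 1) → A) → B) :
    ∀ n, LC n A →ₗ[ℤ] LC (n + 1) B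
  | 0 => 0
  | n + 1 => linearCombination ℤ fun v =>
      lcone (a n v) (n + 1) (φ (n + 1) (single v 1) - lH φ a n (lbd n A (single v 1)))

lemma lH_single (φ : ∀ n, LC n A →ₗ[ℤ] LC n B) (a : ∀ n, (Fin (n + 1) → A) → B) (n : ℕ)
    (v : Fin (n + 1) → A) :
    lH φ a (n + 1) (single v 1) =
      lcone (a n v) (n + 1) (φ (n + 1) (single v 1) - lH φ a n (lbd n A (single v 1))) := by
  simp [lH]

lemma lbd_lH (φ : ∀ n, LC n A →ₗ[ℤ] LC n B) (a : ∀ n, (Fin (n + 1) → A) → B)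
    (h0 : ∀ c, φ 0 c = 0) (hφ : ∀ n c, lbd n B (φ (n + 1) c) = φ n (lbd n A c)) :
    ∀ (n : ℕ) (c : LC (n + 1) A),
      lbd (n + 1) B (lH φ a (n + 1) c) = φ (n + 1) c - lH φ a n (lbd n A c) := by
  intro n
  induction n with
  | zero =>
    refine lin_ext (f := lbd 1 B ∘ₗ lH φ a 1) (g := φ 1 - lH φ a 0 ∘ₗ lbd 0 A) fun v => ?_
    simp only [LinearMap.comp_apply, LinearMap.sub_apply]
    rw [lH_single, lbd_lcone, map_sub, hφ, h0]
    simp [lH]
  | succ n ih =>
    refine lin_ext (f := lbd (n + 2) B ∘ₗ lH φ a (n + 2))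
      (g := φ (n + 2) - lH φ a (n + 1) ∘ₗ lbd (n + 1) A) fun v => ?_
    simp only [LinearMap.comp_apply, LinearMap.sub_apply]
    rw [lH_single, lbd_lcone, map_sub, hφ, ih, lbd_lbd]
    simp

lemma lH_lmap (φ : ∀ n, LC n A →ₗ[ℤ] LC n B) (a : ∀ n, (Fin (n + 1) → A) → B)
    (φ' : ∀ n, LC n A' →ₗ[ℤ] LC n B') (a' : ∀ n, (Fin (n + 1) → A') → B')
    (f : A → A') (g : B → B') (ha : ∀ n v, a' n (f ∘ v) = g (a n v))
    (hφ : ∀ n c, φ' n (lmap f n c) = lmap g n (φ n c)) :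
    ∀ (n : ℕ) (c : LC n A), lH φ' a' n (lmap f n c) = lmap g (n + 1) (lH φ a n c) := by
  intro n
  induction n with
  | zero => intro c; simp [lH]
  | succ n ih =>
    refine lin_ext (f := lH φ' a' (n + 1) ∘ₗ lmap f (n + 1))
      (g := lmap g (n + 2) ∘ₗ lH φ a (n + 1)) fun v => ?_
    simp only [LinearMap.comp_apply]
    rw [lH_single, lmap_lcone, map_sub, ← ih, ← lbd_lmap, ← hφ, lmap_single, lH_single, ha]

end Pool.Agent.Lib.MP_d476f3_gt
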