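import Pool.Agent.Lib.MP_d476f3_gt.Box

set_option autoImplicit false

open Set Filter Topology
open scoped ContDiff

noncomputable section

namespace Pool.Agent.Lib.MP_d476f3_gt

section Flat

variable {E F G : Type*} [NormedAddCommGroup E] [NormedSpace ℝ E] [NormedAddCommGroup F]
  [NormedSpace ℝ F] [NormedAddCommGroup G] [NormedSpace ℝ G] {x ξ : E}

/-- the derivative of `f` at `x` in the direction `ξ` vanishes -/
def Flat (x ξ : E) (f : E → F) : Prop := DifferentiableAt ℝ f x ∧ fderiv ℝ f x ξ = 0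

lemma Flat.comp {f : E → F} (hf : Flat x ξ f) {g : F → G} (hg : ContDiff ℝ ∞ g) :
    Flat x ξ fun y => g (f y) := by
  have := (hg.differentiable (by simp)) (f x)
  refine ⟨this.comp x hf.1, ?_⟩
  rw [fderiv_fun_comp x this hf.1, ContinuousLinearMap.comp_apply, hf.2, map_zero]

lemma Flat.prodMk {f : E → F} {g : E → G} (hf : Flat x ξ f) (hg : Flat x ξ g) :
    Flat x ξ fun y => (f y, g y) := by
  refine ⟨hf.1.prodMk hg.1, ?_⟩
  rw [hf.1.fderiv_prodMk hg.1]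
  simp [hf.2, hg.2]

lemma Flat.congr {f g : E → F} (hf : Flat x ξ f) (h : g =ᶠ[𝓝 x] f) : Flat x ξ g :=
  ⟨hf.1.congr_of_eventuallyEq h, by rw [h.fderiv_eq, hf.2]⟩

lemma Flat.const (a : F) : Flat x ξ fun _ => a := ⟨differentiableAt_const _, by simp⟩

lemma Flat.of_eventually {f : E → F} {a : F} (h : ∀ᶠ y in 𝓝 x, f y = a) : Flat x ξ f :=
  (Flat.const a).congr h

lemma Flat.smul {f : E → ℝ} {g : E → G} (hf : Flat x ξ f) (hg : Flat x ξ g) :
    Flat x ξ fun y => f y • g y :=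
  (hf.prodMk hg).comp (g := fun p : ℝ × G => p.1 • p.2) (by fun_prop)

lemma Flat.prod {ι : Type*} (s : Finset ι) {f : ι → E → ℝ} (h : ∀ i ∈ s, Flat x ξ (f i)) :
    Flat x ξ fun y => ∏ i ∈ s, f i y := by
  classical
  induction s using Finset.induction_on with
  | empty => simpa using Flat.const 1
  | insert a s ha ih =>
    simp only [Finset.prod_insert ha]
    exact (h a (Finset.mem_insert_self _ _)).smul (ih fun i hi => h i (Finset.mem_insert_of_mem hi))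

lemma exists_kernel {d k : ℕ} {ι : Type*} (s : Finset ι) (h : s.card * k + 1 < d)
    (j : EuclideanSpace ℝ (Fin d) →ₗ[ℝ] E) (l0 : E →L[ℝ] ℝ) (l : ι → E →L[ℝ] (Fin k → ℝ)) :
    ∃ ξ, ξ ≠ 0 ∧ l0 (j ξ) = 0 ∧ ∀ i ∈ s, l i (j ξ) = 0 := by
  let L : EuclideanSpace ℝ (Fin d) →ₗ[ℝ] ℝ × (s → Fin k → ℝ) :=
    (LinearMap.prod l0.toLinearMap (LinearMap.pi fun i : s => (l i).toLinearMap)) ∘ₗ j
  obtain ⟨ξ, h1, h2⟩ := (Submodule.ne_bot_iff _).1 (LinearMap.ker_ne_bot_of_finrank_lt (f := L)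
    (by simp [Module.finrank_pi_fintype]; omega))
  have h3 : L ξ = 0 := h1
  exact ⟨ξ, h2, congrArg Prod.fst h3, fun i hi => congrFun (congrArg Prod.snd h3) ⟨i, hi⟩⟩

end Flat

namespace Cfg

variable {m k N : ℕ} {c : Cfg m k N} {x ξ : Fin m → ℝ} {Λ : ℝ}

lemma ev_lt {f : (Fin m → ℝ) → ℝ} (hf : Continuous f) {a : ℝ} (h : f x < a) :
    ∀ᶠ y in 𝓝 x, f y < a := (hf.tendsto x).eventually (gt_mem_nhds h)

lemma ev_gt {f : (Fin m → ℝ) → ℝ} (hf : Continuous f) {a : ℝ} (h : a < f x) :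
    ∀ᶠ y in 𝓝 x, a < f y := (hf.tendsto x).eventually (lt_mem_nhds h)

lemma two_le_inv_smul {e : ℝ} (he : 0 < e) {v : Fin k → ℝ} (h : 2 * e < ‖v‖) : 2 ≤ ‖e⁻¹ • v‖ := by
  rw [norm_smul, Real.norm_of_nonneg (inv_pos.2 he).le, le_inv_mul_iff₀' he]
  exact h.le

lemma main_zero {γ : c.Sheet} (h : 2 * c.ε < ‖X γ x‖) : ∀ᶠ y in 𝓝 x, main γ y = 0 :=
  (ev_gt (contDiff_X γ).continuous.norm h).mono fun y hy => by
    simp [main, Phi, bump_zero (two_le_inv_smul c.hε hy)]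

lemma main_zero' {γ : c.Sheet} {B : c.Box} (hB : B.g1 = γ ∨ B.g2 = γ) (h : B.S x < 17 / 2) :
    ∀ᶠ y in 𝓝 x, main γ y = 0 :=
  (ev_lt B.contDiff_S.continuous h).mono fun y hy => by
    classical
    rw [main, Finset.prod_eq_zero (i := B) (by simpa using hB)
      (Real.smoothTransition.zero_of_nonpos (by linarith)), zero_smul]

lemma main_flat {γ : c.Sheet} (hS : ∀ B : c.Box, B.S x < 10 → Flat x ξ B.S) (h : Flat x ξ (X γ)) :
    Flat x ξ (main γ) := by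
  refine (Flat.prod _ fun B _ => ?_).smul
    (h.comp (g := fun u => Phi k (c.ε⁻¹ • u)) ((contDiff_Phi k).comp (by fun_prop)))
  rcases lt_or_ge (B.S x) 10 with h1 | h1
  · exact (hS B h1).comp (g := fun s => Real.smoothTransition (2 * s - 17))
      (Real.smoothTransition.contDiff.comp (by fun_prop))
  · exact Flat.of_eventually ((ev_gt B.contDiff_S.continuous (a := 9) (by linarith)).mono
      fun y hy => Real.smoothTransition.one_of_one_le (by linarith))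

lemma aux_zero {B : c.Box} {l : Fin 4} (h : 2 * c.es < ‖B.v l x‖ ∨ B.S x < lo l - 1 / 2 ∨
    hi l + 1 / 2 < B.S x) : ∀ᶠ y in 𝓝 x, aux Λ B l y = 0 := by
  rcases h with h | h | h
  · exact (ev_gt (B.contDiff_v l).continuous.norm h).mono fun y hy => by
      simp [aux, bump_zero (two_le_inv_smul c.es_pos hy)]
  · exact (ev_lt B.contDiff_S.continuous h).mono fun y hy => by
      simp [aux, cut_zero (Or.inl hy.le)]
  · exact (ev_gt B.contDiff_S.continuous h).mono fun y hy => by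
      simp [aux, cut_zero (Or.inr hy.le)]

lemma aux_flat {B : c.Box} {l : Fin 4} (h : Flat x ξ (B.v l)) (hS : Flat x ξ B.S) :
    Flat x ξ (aux Λ B l) :=
  (h.prodMk hS).comp (g := fun p : (Fin k → ℝ) × ℝ => (Λ * bump k (c.es⁻¹ • p.1) * cut l p.2) • p)
    (((contDiff_const.mul ((bump k).contDiff.comp (contDiff_fst.const_smul _))).mul
      ((contDiff_cut l).comp contDiff_snd)).smul contDiff_id)

lemma F_flat (h1 : ∀ γ : c.Sheet, Flat x ξ (main γ))
    (h2 : ∀ (B : c.Box) l, Flat x ξ (aux Λ B l)) : ∀ i : c.Idx, fderiv ℝ (F Λ i) x ξ = 0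
  | .inl (γ, j) => ((h1 γ).comp (contDiff_apply ℝ ℝ j)).2
  | .inr (B, l, some j) => ((h2 B l).comp ((contDiff_apply ℝ ℝ j).comp contDiff_fst)).2
  | .inr (B, l, none) => ((h2 B l).comp contDiff_snd).2

open Classical in
/-- the local variable of a sheet in a box -/
def Box.var (B : c.Box) (x : Fin m → ℝ) (γ : c.Sheet) : (Fin m → ℝ) → (Fin k → ℝ) :=
  if 5 ≤ B.S x ∧ B.S x ≤ 6 then
    if γ = B.g1 then B.v 0 else if γ = B.g2 then B.v 3 else X γ
  else X γ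

lemma Box.contDiff_var (B : c.Box) (x : Fin m → ℝ) (γ : c.Sheet) : ContDiff ℝ ∞ (B.var x γ) := by
  unfold Box.var
  split_ifs
  exacts [B.contDiff_v 0, B.contDiff_v 3, contDiff_X γ, contDiff_X γ]

/-- the coordinates attached to the first sheet may be nonzero -/
def Box.A1 (B : c.Box) (x : Fin m → ℝ) : Prop :=
  (‖X B.g1 x‖ ≤ 2 * c.ε ∧ 17 / 2 ≤ B.S x) ∨ (‖B.v 0 x‖ ≤ 2 * c.es ∧ 7 / 2 ≤ B.S x) ∨
    (‖X B.g1 x‖ ≤ 2 * c.es ∧ 3 / 2 ≤ B.S x ∧ B.S x ≤ 9 / 2)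

/-- the coordinates attached to the second sheet may be nonzero -/
def Box.A2 (B : c.Box) (x : Fin m → ℝ) : Prop :=
  (‖X B.g2 x‖ ≤ 2 * c.es ∧ 13 / 2 ≤ B.S x) ∨ (‖B.v 3 x‖ ≤ 2 * c.es ∧ B.S x ≤ 15 / 2)

lemma Box.group1 (B : c.Box) (hS : ∀ B : c.Box, B.S x < 10 → Flat x ξ B.S) (hB : B.S x < 10)
    (h : ¬ B.A1 x ∨ Flat x ξ (B.var x B.g1)) :
    Flat x ξ (main B.g1) ∧ Flat x ξ (aux Λ B 0) ∧ Flat x ξ (aux Λ B 1) := by
  rcases h with h | h
  · simp only [Box.A1, not_or, not_and_or, not_le] at h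
    refine ⟨?_, Flat.of_eventually (aux_zero ?_), Flat.of_eventually (aux_zero ?_)⟩
    · exact Flat.of_eventually (h.1.elim main_zero (main_zero' (Or.inl rfl)))
    · exact h.2.1.imp_right fun h => Or.inl (by simp [lo]; linarith)
    · exact h.2.2.imp_right (Or.imp (fun h => by simp [lo]; linarith)
        fun h => by simp [hi]; linarith)
  · by_cases h1 : 5 ≤ B.S x ∧ B.S x ≤ 6
    · rw [Box.var, if_pos h1, if_pos rfl] at h
      exact ⟨Flat.of_eventually (main_zero' (Or.inl rfl) (by linarith [h1.2])),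
        aux_flat h (hS B hB),
        Flat.of_eventually (aux_zero (Or.inr (Or.inr (by simp [hi]; linarith [h1.1]))))⟩
    · rw [Box.var, if_neg h1] at h
      refine ⟨main_flat hS h, aux_flat ?_ (hS B hB), aux_flat h (hS B hB)⟩
      rcases not_and_or.1 h1 with h1 | h1
      · exact (h.comp c.hμ.smooth).congr ((ev_lt B.contDiff_S.continuous (not_le.1 h1)).mono
          fun y hy => by simp [Box.v, B.t_one hy.le])
      · exact h.congr ((ev_gt B.contDiff_S.continuous (not_le.1 h1)).mono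
          fun y hy => by simp [Box.v, B.t_zero hy.le])

lemma Box.group2 (B : c.Box) (hS : ∀ B : c.Box, B.S x < 10 → Flat x ξ B.S) (hB : B.S x < 10)
    (h : ¬ B.A2 x ∨ Flat x ξ (B.var x B.g2)) :
    Flat x ξ (main B.g2) ∧ Flat x ξ (aux Λ B 2) ∧ Flat x ξ (aux Λ B 3) := by
  rcases h with h | h
  · simp only [Box.A2, not_or, not_and_or, not_le] at h
    refine ⟨?_, Flat.of_eventually (aux_zero ?_), Flat.of_eventually (aux_zero ?_)⟩
    · exact Flat.of_eventually (h.1.elim (fun h => main_zero (by linarith [c.hεs, c.hε]))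
        fun h => main_zero' (Or.inr rfl) (by linarith))
    · exact h.1.imp_right fun h => Or.inl (by simp [lo]; linarith)
    · exact h.2.imp_right fun h => Or.inr (by simp [hi]; linarith)
  · by_cases h1 : 5 ≤ B.S x ∧ B.S x ≤ 6
    · rw [Box.var, if_pos h1, if_neg B.g_ne.symm, if_pos rfl] at h
      exact ⟨Flat.of_eventually (main_zero' (Or.inr rfl) (by linarith [h1.2])),
        Flat.of_eventually (aux_zero (Or.inr (Or.inl (by simp [lo]; linarith [h1.2])))),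
        aux_flat h (hS B hB)⟩
    · rw [Box.var, if_neg h1] at h
      refine ⟨main_flat hS h, aux_flat h (hS B hB), aux_flat ?_ (hS B hB)⟩
      rcases not_and_or.1 h1 with h1 | h1
      · exact h.congr ((ev_lt B.contDiff_S.continuous (not_le.1 h1)).mono
          fun y hy => by simp [Box.v, B.t_one hy.le])
      · exact (h.comp c.hμ.smooth).congr ((ev_gt B.contDiff_S.continuous (not_le.1 h1)).mono
          fun y hy => by simp [Box.v, B.t_zero hy.le])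

lemma sum_sq_le {v : Fin k → ℝ} {a : ℝ} (h : ‖v‖ ≤ a) : ∑ j, v j ^ 2 ≤ k * a ^ 2 := by
  have := Finset.sum_le_card_nsmul Finset.univ (fun j => v j ^ 2) (a ^ 2) fun j _ => by
    rw [← sq_abs]
    exact pow_le_pow_left₀ (abs_nonneg _) ((norm_le_pi_norm v j).trans h) 2
  simpa using this

lemma Box.both (B : c.Box) (h1 : B.A1 x) (h2 : B.A2 x) :
    ∃ γ ∈ B.1, γ ≠ B.g1 ∧ γ ≠ B.g2 ∧ 2 * c.ε < ‖X γ x‖ := by
  classical
  have hε := c.hε
  have hεs := c.hεs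
  have hes := c.hes
  have h3 : 3 / 2 ≤ B.S x := by rcases h1 with h | h | h <;> linarith [h.2]
  have h4 : ‖X B.g1 x‖ ≤ c.c0 ∧ ‖X B.g2 x‖ ≤ c.c0 := by
    rcases h1 with h1 | h1 | h1 <;> rcases h2 with h2 | h2
    · exact ⟨by linarith [h1.1], by linarith [h2.1]⟩
    · linarith [h1.2, h2.2]
    · have := h1.1
      simp only [Box.v, B.t_zero (by linarith [h2.2] : 6 ≤ B.S x), y1_zero,
        Matrix.cons_val_zero] at this
      exact ⟨by linarith, by linarith [h2.1]⟩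
    · exact c.hy _ ⟨Real.smoothTransition.nonneg _, Real.smoothTransition.le_one _⟩ _ _ h1.1 h2.1
    · linarith [h1.2.2, h2.2]
    · have := h2.1
      simp only [Box.v, B.t_one (by linarith [h1.2.2] : B.S x ≤ 5), y2_one] at this
      exact ⟨by linarith [h1.1], le_trans this hes⟩
  by_contra! H
  have h5 : ∑ γ ∈ (B.1.erase B.g1).erase B.g2, ∑ j, X γ x j ^ 2 ≤ c.d * (2 * c.ε) ^ 2 := by
    refine (Finset.sum_le_card_nsmul _ _ (k * (2 * c.ε) ^ 2) fun γ hγ => ?_).trans ?_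
    · simp only [Finset.mem_erase] at hγ
      exact sum_sq_le (H γ hγ.2.2 hγ.2.1 hγ.1)
    · rw [nsmul_eq_mul, ← mul_assoc]
      gcongr
      exact_mod_cast (Nat.mul_le_mul_right k
        (Finset.card_erase_le.trans Finset.card_erase_le)).trans B.2.1.le
  rw [Box.S, ← Finset.add_sum_erase _ _ B.g1_mem, ← Finset.add_sum_erase _ _
    (Finset.mem_erase.2 ⟨B.g_ne.symm, B.g2_mem⟩)] at h3
  nlinarith [sum_sq_le h4.1, sum_sq_le h4.2, c.hc0, c.hεd]

theorem Box.degenerate (B : c.Box) (hx : x ∈ c.K) (hB : B.S x < 10)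
    (j : EuclideanSpace ℝ (Fin c.d) →ₗ[ℝ] (Fin m → ℝ)) :
    ∃ ξ, ξ ≠ 0 ∧ ∀ i : c.Idx, fderiv ℝ (F Λ i) x (j ξ) = 0 := by
  classical
  obtain ⟨γ0, h0, h1, h2, h3⟩ : ∃ γ0 ∈ B.1, (γ0 = B.g1 → ¬ B.A1 x) ∧ (γ0 = B.g2 → ¬ B.A2 x) ∧
      (γ0 ≠ B.g1 → γ0 ≠ B.g2 → 2 * c.ε < ‖X γ0 x‖) := by
    by_cases a1 : B.A1 x
    · by_cases a2 : B.A2 x
      · obtain ⟨γ, b0, b1, b2, b3⟩ := B.both a1 a2
        exact ⟨γ, b0, fun e => absurd e b1, fun e => absurd e b2, fun _ _ => b3⟩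
      · exact ⟨_, B.g2_mem, fun e => absurd e B.g_ne.symm, fun _ => a2, fun _ e => absurd rfl e⟩
    · exact ⟨_, B.g1_mem, fun _ => a1, fun e => absurd e B.g_ne, fun e => absurd rfl e⟩
  obtain ⟨ξ, a0, a1, a2⟩ := exists_kernel (B.1.erase γ0) (by
    have := Finset.card_erase_add_one h0
    have h := B.2.1
    rw [← this, add_mul] at h
    linarith [c.hk]) j (fderiv ℝ B.S x) fun γ => fderiv ℝ (B.var x γ) x
  have hS : ∀ B' : c.Box, B'.S x < 10 → Flat x (j ξ) B'.S := fun B' h => by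
    rw [Box.unique hx h hB]
    exact ⟨B.contDiff_S.differentiable (by simp) x, a1⟩
  have hv : ∀ γ ∈ B.1, γ ≠ γ0 → Flat x (j ξ) (B.var x γ) := fun γ hγ e =>
    ⟨(B.contDiff_var x γ).differentiable (by simp) x, a2 γ (Finset.mem_erase.2 ⟨e, hγ⟩)⟩
  have g1 := B.group1 (Λ := Λ) hS hB (by
    by_cases e : B.g1 = γ0
    exacts [Or.inl (h1 e.symm), Or.inr (hv _ B.g1_mem e)])
  have g2 := B.group2 (Λ := Λ) hS hB (by
    by_cases e : B.g2 = γ0
    exacts [Or.inl (h2 e.symm), Or.inr (hv _ B.g2_mem e)])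
  refine ⟨ξ, a0, F_flat (fun γ => ?_) fun B' l => ?_⟩
  · by_cases e1 : γ = B.g1
    · exact e1 ▸ g1.1
    by_cases e2 : γ = B.g2
    · exact e2 ▸ g2.1
    by_cases e3 : 2 * c.ε < ‖X γ x‖
    · exact Flat.of_eventually (main_zero e3)
    have := hv γ (B.mem hx hB (by linarith [c.ε_le])) fun e => e3 (e ▸ h3 (e ▸ e1) (e ▸ e2))
    simp only [Box.var, if_neg e1, if_neg e2, ite_self] at this
    exact main_flat hS this
  · by_cases e : B'.S x < 10
    · rw [Box.unique hx e hB]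
      fin_cases l
      exacts [g1.2.1, g1.2.2, g2.2.1, g2.2.2]
    · exact Flat.of_eventually (aux_zero (Or.inr (Or.inr (by linarith [hi_le l]))))

lemma near_mono {τ : Fin (N + 1) × Fin m → ℝ} {a b : ℝ} (h : a ≤ b) : near τ a x ⊆ near τ b x :=
  fun _ hs => by
    obtain ⟨n, hn⟩ := mem_near.1 hs
    exact mem_near.2 ⟨n, hn.trans_le h⟩

lemma r_le : 3 * c.ε * c.ρ ≤ 3 * c.ρ := by nlinarith [c.ε_le, c.hρ]

theorem degenerate (hx : x ∈ c.K) (hU : x ∉ Unres c.d ((c.d - 1) / k) c.τ (3 * c.ε * c.ρ))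
    (j : EuclideanSpace ℝ (Fin c.d) →ₗ[ℝ] (Fin m → ℝ)) :
    ∃ ξ, ξ ≠ 0 ∧ ∀ i : c.Idx, fderiv ℝ (F Λ i) x (j ξ) = 0 := by
  classical
  by_cases hB : ∃ B : c.Box, B.S x < 10
  · obtain ⟨B, hB⟩ := hB
    exact B.degenerate hx hB j
  push Not at hB
  have hε := c.hε
  let A := Finset.univ.filter fun γ : c.Sheet => ‖X γ x‖ ≤ 2 * c.ε
  have hA : ∀ γ ∈ A, ‖X γ x‖ ≤ 2 * c.ε := fun γ hγ => (Finset.mem_filter.1 hγ).2
  have hπ : A.biUnion pairs ⊆ near c.τ (3 * c.ε * c.ρ) x :=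
    Finset.biUnion_subset.2 fun γ hγ => pairs_subset (by linarith [hA γ hγ])
  have hc : (A.biUnion pairs).card ≤ c.d :=
    (Finset.card_le_card (hπ.trans (near_mono r_le))).trans (c.good x hx)
  rcases hc.eq_or_lt with hc | hc
  · refine absurd ⟨_, hπ, hc, ?_⟩ hU
    rw [Nat.le_div_iff_mul_le (by linarith [c.hk])]
    obtain ⟨I, hI⟩ : ∃ I, I = ((A.biUnion pairs).image Prod.fst).erase 0 := ⟨_, rfl⟩
    rw [← hI]
    have h1 : ∀ i : I, ∃ γ ∈ A, γ.1 = i := fun i => by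
      have := hI.subset i.2
      simp only [Finset.mem_erase, Finset.mem_image, Finset.mem_biUnion, pairs, Finset.mem_product,
        Finset.mem_singleton] at this
      obtain ⟨-, s, ⟨γ, h1, h2, -⟩, h3⟩ := this
      exact ⟨γ, h1, h2.symm.trans h3⟩
    choose g hg hg' using h1
    have hinj : InjOn Prod.fst (Finset.univ.image g : Set c.Sheet) := by
      intro a ha b hb e
      simp only [Finset.coe_image, Finset.coe_univ, image_univ, mem_range] at ha hb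
      obtain ⟨a, rfl⟩ := ha
      obtain ⟨b, rfl⟩ := hb
      rw [Subtype.ext ((hg' a).symm.trans (e.trans (hg' b)))]
    have hcard : (Finset.univ.image g).card = I.card := by
      rw [Finset.card_image_of_injective _ fun a b e =>
        Subtype.ext ((hg' a).symm.trans ((congrArg Prod.fst e).trans (hg' b)))]
      simp
    have hsub : Finset.univ.image g ⊆ A := Finset.image_subset_iff.2 fun i _ => hg i
    have h2 := Finset.card_le_card (Finset.biUnion_subset_biUnion_of_subset_left pairs hsub)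
    rw [card_pairs hinj, hc] at h2
    rw [← hcard]
    refine Nat.le_sub_one_of_lt (h2.lt_of_ne fun e => ?_)
    have h3 := hB ⟨_, e, hinj, fun γ hγ => by
      obtain ⟨i, -, rfl⟩ := Finset.mem_image.1 hγ
      rw [hg']
      exact (Finset.mem_erase.1 (hI.subset i.2)).1⟩
    have h4 := Finset.sum_le_card_nsmul _ (fun γ => ∑ j, X γ x j ^ 2) (k * (2 * c.ε) ^ 2)
      fun γ hγ => sum_sq_le (hA γ (hsub hγ))
    rw [nsmul_eq_mul, ← mul_assoc, ← Nat.cast_mul, e] at h4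
    unfold Box.S at h3
    nlinarith [c.hεd]
  · let L : EuclideanSpace ℝ (Fin c.d) →ₗ[ℝ] (A.biUnion pairs → ℝ) :=
      (LinearMap.pi fun s : A.biUnion pairs => LinearMap.proj s.1.2) ∘ₗ j
    obtain ⟨ξ, h1, h2⟩ := (Submodule.ne_bot_iff _).1 (LinearMap.ker_ne_bot_of_finrank_lt (f := L)
      (by rw [Module.finrank_fintype_fun_eq_card, Fintype.card_coe]; simpa using hc))
    have h3 : L ξ = 0 := h1
    refine ⟨ξ, h2, F_flat (fun γ => ?_) fun B l =>
      Flat.of_eventually (aux_zero (Or.inr (Or.inr (by linarith [hi_le l, hB B]))))⟩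
    by_cases e : 2 * c.ε < ‖X γ x‖
    · exact Flat.of_eventually (main_zero e)
    refine main_flat (fun B h => absurd (hB B) (not_le.2 h)) ?_
    let p : (Fin m → ℝ) →L[ℝ] (Fin k → ℝ) :=
      ContinuousLinearMap.pi fun i => ContinuousLinearMap.proj (γ.2.1.emb i)
    have hp : Flat x (j ξ) p := ⟨p.differentiableAt, by
      rw [p.fderiv]
      funext i
      exact congrFun h3 ⟨(γ.1, γ.2.1.emb i), Finset.mem_biUnion.2 ⟨γ, by simpa [A] using e, by
        simp [pairs, Dir.emb_mem]⟩⟩⟩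
    exact hp.comp (g := fun u i => c.ρ⁻¹ * (u i - c.τ (γ.1, γ.2.1.emb i) - (γ.2.2 i : ℤ)))
      (by fun_prop)

lemma not_box (hx : x ∈ c.K) (hU : x ∈ Unres c.d ((c.d - 1) / k) c.τ (3 * c.ε * c.ρ))
    (B : c.Box) : 10 ≤ B.S x := by
  classical
  by_contra! hB
  obtain ⟨π, h1, h2, h3⟩ := hU
  have h4 : π = B.1.biUnion pairs := by
    rw [B.near_eq hx hB]
    exact Finset.eq_of_subset_of_card_le (h1.trans (near_mono r_le)) (h2 ▸ c.good x hx)
  have h5 : B.1.image Prod.fst ⊆ (π.image Prod.fst).erase 0 :=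
    Finset.image_subset_iff.2 fun γ hγ => Finset.mem_erase.2 ⟨B.2.2.2 γ hγ, Finset.mem_image.2
      ⟨(γ.1, γ.2.1.emb ⟨0, by linarith [c.hk]⟩), h4 ▸ Finset.mem_biUnion.2 ⟨γ, hγ, by
        simp [pairs, Dir.emb_mem]⟩, rfl⟩⟩
  have h6 := (Finset.card_le_card h5).trans h3
  rw [Finset.card_image_of_injOn B.2.2.1, Nat.le_div_iff_mul_le (by linarith [c.hk]), B.2.1] at h6
  have := c.hkd
  omega

end Cfg

lemma exists_Phi_bound (k : ℕ) : ∃ C : ℝ, 0 ≤ C ∧ ∀ u, ‖fderiv ℝ (Phi k) u‖ ≤ C := by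
  have h : HasCompactSupport (Phi k) := (bump k).hasCompactSupport.smul_right
  obtain ⟨C, hC⟩ := ((contDiff_Phi k).continuous_fderiv (by simp)).bounded_above_of_compact_support
    (h.fderiv (𝕜 := ℝ))
  exact ⟨C, (norm_nonneg _).trans (hC 0), hC⟩

lemma Cfg.main_deriv {m k N : ℕ} {c : Cfg m k N} {x : Fin m → ℝ} {C : ℝ} (hC0 : 0 ≤ C)
    (hC : ∀ u, ‖fderiv ℝ (Phi k) u‖ ≤ C) (hB : ∀ B : c.Box, 10 ≤ B.S x) (v : Fin m → ℝ)
    (γ : c.Sheet) (j : Fin k) :
    |fderiv ℝ (fun y => Cfg.main γ y j) x v| ≤ C / (c.ε * c.ρ) * ‖v‖ := by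
  have hε := c.hε
  have hρ := c.hρ
  have e : (fun y => Cfg.main γ y j) =ᶠ[𝓝 x] fun y => Phi k (c.ε⁻¹ • Cfg.X γ y) j := by
    have : ∀ᶠ y in 𝓝 x, ∀ B : c.Box, 9 < B.S y := eventually_all.2 fun B =>
      Cfg.ev_gt B.contDiff_S.continuous (by linarith [hB B])
    refine this.mono fun y hy => ?_
    simp only [Cfg.main]
    rw [Finset.prod_eq_one fun B _ => Real.smoothTransition.one_of_one_le (by linarith [hy B]),
      one_smul]
  let p : (Fin m → ℝ) →L[ℝ] (Fin k → ℝ) :=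
    ContinuousLinearMap.pi fun i => ContinuousLinearMap.proj (γ.2.1.emb i)
  have hp : HasFDerivAt (fun y => c.ε⁻¹ • Cfg.X γ y) ((c.ε * c.ρ)⁻¹ • p) x := by
    have := (p.hasFDerivAt (x := x)).const_smul (c.ε * c.ρ)⁻¹ |>.sub_const
      fun i => (c.ε * c.ρ)⁻¹ * (c.τ (γ.1, γ.2.1.emb i) + (γ.2.2 i : ℤ))
    refine this.congr_of_eventuallyEq (Eventually.of_forall fun y => funext fun i => ?_)
    simp [Cfg.X, p]
    ring
  have hq := (hasFDerivAt_apply j _).comp x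
    (((contDiff_Phi k).differentiable (by simp) _).hasFDerivAt.comp x hp)
  rw [e.fderiv_eq, (show HasFDerivAt (fun y => Phi k (c.ε⁻¹ • Cfg.X γ y) j) _ x from hq).fderiv]
  change ‖fderiv ℝ (Phi k) (c.ε⁻¹ • Cfg.X γ x) ((c.ε * c.ρ)⁻¹ • p v) j‖ ≤ _
  refine (norm_le_pi_norm _ j).trans ((ContinuousLinearMap.le_of_opNorm_le _ (hC _) _).trans ?_)
  rw [norm_smul, Real.norm_of_nonneg (by positivity), div_eq_mul_inv, mul_assoc]
  gcongr
  exact (pi_norm_le_iff_of_nonneg (norm_nonneg _)).2 fun i => norm_le_pi_norm v _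

theorem Cfg.norm_bound {m k N : ℕ} {c : Cfg m k N} {x : Fin m → ℝ} {Λ C : ℝ} (hC0 : 0 ≤ C)
    (hC : ∀ u, ‖fderiv ℝ (Phi k) u‖ ≤ C) (hx : x ∈ c.K)
    (hU : x ∈ Unres c.d ((c.d - 1) / k) c.τ (3 * c.ε * c.ρ)) (v : Fin m → ℝ) :
    ∑ i : c.Idx, (fderiv ℝ (Cfg.F Λ i) x v) ^ 2 ≤
      (2 ^ c.d * k * C / (c.ε * c.ρ) * ‖v‖) ^ 2 := by
  have hB := Cfg.not_box hx hU
  have h1 : ∀ i : c.Box × Fin 4 × Option (Fin k), fderiv ℝ (Cfg.F Λ (.inr i)) x v ^ 2 = 0 := by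
    rintro ⟨B, l, o⟩
    have : Flat x v (Cfg.aux Λ B l) :=
      Flat.of_eventually (Cfg.aux_zero (Or.inr (Or.inr (by linarith [hi_le l, hB B]))))
    rw [sq_eq_zero_iff]
    cases o with
    | none => exact (this.comp contDiff_snd).2
    | some j => exact (this.comp ((contDiff_apply ℝ ℝ j).comp contDiff_fst)).2
  obtain ⟨b, hb⟩ : ∃ b, b = (C / (c.ε * c.ρ) * ‖v‖) ^ 2 := ⟨_, rfl⟩
  have hb0 : 0 ≤ b := hb ▸ sq_nonneg _
  have h2 : ∀ γ : c.Sheet, ∑ j, (fderiv ℝ (Cfg.F Λ (.inl (γ, j))) x v) ^ 2 ≤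
      if ‖Cfg.X γ x‖ < 3 then k * b else 0 := fun γ => by
    split_ifs with h
    · refine (Finset.sum_le_card_nsmul _ _ b fun j _ => ?_).trans (by simp)
      rw [← sq_abs, hb]
      exact pow_le_pow_left₀ (abs_nonneg _) (Cfg.main_deriv hC0 hC hB v γ j) 2
    · have : Flat x v (Cfg.main γ) :=
        Flat.of_eventually (Cfg.main_zero (by linarith [c.ε_le, not_lt.1 h]))
      exact (Finset.sum_eq_zero fun j _ =>
        sq_eq_zero_iff.2 (this.comp (contDiff_apply ℝ ℝ j)).2).le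
  rw [Fintype.sum_sum_type, Finset.sum_eq_zero fun i _ => h1 i, add_zero, Fintype.sum_prod_type]
  refine (Finset.sum_le_sum fun γ _ => h2 γ).trans ?_
  rw [← Finset.sum_filter, Finset.sum_const, nsmul_eq_mul]
  have h3 : ((Finset.univ.filter fun γ : c.Sheet => ‖Cfg.X γ x‖ < 3).card : ℝ) ≤ 2 ^ c.d := by
    exact_mod_cast Cfg.card_active hx
  have h4 : (1 : ℝ) ≤ 2 ^ c.d * k := by
    have : (1 : ℝ) ≤ k := by exact_mod_cast le_trans one_le_two c.hk
    exact one_le_mul_of_one_le_of_one_le (one_le_pow₀ one_le_two) this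
  calc _ ≤ (2 ^ c.d * k) * b := by
        rw [← mul_assoc]; gcongr
    _ ≤ (2 ^ c.d * k) ^ 2 * b := by
        gcongr; nlinarith
    _ = _ := by rw [hb]; ring

end Pool.Agent.Lib.MP_d476f3_gt
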