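import Pool.Agent.Lib.MP_d476f3_gt.Defs

set_option autoImplicit false
set_option linter.unusedSectionVars false
set_option linter.style.haveILetI false

open Set MeasureTheory Bundle Filter Manifold
open scoped Manifold ContDiff ENNReal NNReal Topology

namespace Pool.Agent.Lib.MP_d476f3_gt

section
variable {d : ℕ} {M : Type*} [TopologicalSpace M] [ChartedSpace (EuclideanSpace ℝ (Fin d)) M]
  [IsManifold (𝓡 d) ∞ M] {W : Type} [NormedAddCommGroup W] [InnerProductSpace ℝ W]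

/-- The differential of a vector valued map. -/
noncomputable def riem_d (G : M → W) (x : M) : EuclideanSpace ℝ (Fin d) →L[ℝ] W :=
  mfderiv (𝓡 d) 𝓘(ℝ, W) G x

/-- `g` is the pull-back of the Euclidean metric by `G`. -/
def riem_Pull (g : RMetric d M) (G : M → W) : Prop :=
  ∀ x v w, g.inner x v w = inner ℝ (riem_d (d := d) G x v) (riem_d (d := d) G x w)

set_option backward.isDefEq.respectTransparency false in
theorem riem_exists {G : M → W} (hG : ContMDiff (𝓡 d) 𝓘(ℝ, W) ∞ G)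
    (hinj : ∀ x, Function.Injective (riem_d (d := d) G x)) : ∃ g : RMetric d M, riem_Pull g G := by
  let B (A : EuclideanSpace ℝ (Fin d) →L[ℝ] W) :
      EuclideanSpace ℝ (Fin d) →L[ℝ] EuclideanSpace ℝ (Fin d) →L[ℝ] ℝ :=
    (innerSL ℝ (E := W) : W →L[ℝ] W →L[ℝ] ℝ).bilinearComp A A
  have hB : ContDiff ℝ ∞ B := by
    rw [contDiff_clm_apply_iff]; intro v
    rw [contDiff_clm_apply_iff]; intro w
    exact (contDiff_id.clm_apply contDiff_const).inner ℝ (contDiff_id.clm_apply contDiff_const)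
  refine ⟨⟨fun x => B (riem_d G x), fun x v w => real_inner_comm _ _, fun x v hv =>
    real_inner_self_pos.2 fun h => hv (hinj x (h.trans (map_zero _).symm)), fun x => ?_,
    fun x₀ => ?_⟩, fun _ _ _ => rfl⟩
  · obtain ⟨K, -, hK⟩ := (riem_d (d := d) G x).toLinearMap.exists_antilipschitzWith
      (LinearMap.ker_eq_bot.2 (hinj x))
    change Bornology.IsVonNBounded ℝ {v : EuclideanSpace ℝ (Fin d) |
      inner ℝ (riem_d (d := d) G x v) (riem_d (d := d) G x v) < (1 : ℝ)}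
    refine (NormedSpace.isVonNBounded_iff ℝ).2 ((hK.isBounded_preimage
      (Metric.isBounded_ball (x := 0) (r := 1))).subset fun v hv => ?_)
    rw [mem_ofPred_eq, real_inner_self_eq_norm_sq, sq_lt_one_iff₀ (norm_nonneg _)] at hv
    simpa using hv
  · rw [contMDiffAt_section]
    refine (hB.contMDiff.contMDiffAt.comp x₀ ((hG x₀).mfderiv_const (m := ∞) le_rfl)).congr_of_eventuallyEq ?_
    filter_upwards [chart_source_mem_nhds (EuclideanSpace ℝ (Fin d)) x₀] with x hx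
    ext v w
    rw [hom_trivializationAt_apply, inCoordinates_apply_eq₂ (by simpa) (by simpa) (by simp)]
    have h : ∀ v, inTangentCoordinates (𝓡 d) 𝓘(ℝ, W) id G (mfderiv (𝓡 d) 𝓘(ℝ, W) G) x₀ x v =
        riem_d (d := d) G x ((trivializationAt (EuclideanSpace ℝ (Fin d)) (TangentSpace (𝓡 d))
          x₀).symm x v) := fun v => by
      simp only [inTangentCoordinates, ContinuousLinearMap.inCoordinates,
        TangentBundle.continuousLinearMapAt_model_space]
      exact congrArg (riem_d (d := d) G x) (Trivialization.symmL_apply _ (by simpa) v)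
    simp [B, h]
    rfl

variable [T2Space M] [CompactSpace M] {g : RMetric d M} {G : M → W}

set_option backward.isDefEq.respectTransparency false in
theorem riem_len (hG : ContMDiff (𝓡 d) 𝓘(ℝ, W) ∞ G) (hg : riem_Pull g G) {γ : ℝ → M}
    (hγ : ContMDiffOn 𝓘(ℝ, ℝ) (𝓡 d) 1 γ (Icc 0 1)) :
    letI : RiemannianBundle (fun x : M => TangentSpace (𝓡 d) x) :=
      ⟨g.toContinuousRiemannianMetric.toRiemannianMetric⟩
    pathELength (𝓡 d) γ 0 1 = ∫⁻ t in Icc 0 1, ‖derivWithin (G ∘ γ) (Icc 0 1) t‖ₑ := by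
  letI : RiemannianBundle (fun x : M => TangentSpace (𝓡 d) x) :=
    ⟨g.toContinuousRiemannianMetric.toRiemannianMetric⟩
  rw [pathELength_eq_lintegral_mfderivWithin_Icc]
  refine setLIntegral_congr_fun measurableSet_Icc fun t ht => ?_
  have h := mfderiv_comp_mfderivWithin t ((hG (γ t)).mdifferentiableAt (by simp))
    (hγ.mdifferentiableOn one_ne_zero t ht)
    (uniqueMDiffWithinAt_iff_uniqueDiffWithinAt.2 (uniqueDiffOn_Icc zero_lt_one t ht))
  rw [mfderivWithin_eq_fderivWithin] at h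
  have h1 : derivWithin (G ∘ γ) (Icc 0 1) t =
      riem_d (d := d) G (γ t) (mfderivWithin 𝓘(ℝ, ℝ) (𝓡 d) γ (Icc 0 1) t 1) := congr($h 1)
  simp only [h1, ← ofReal_norm, norm_eq_sqrt_real_inner]
  exact congrArg (fun r => ENNReal.ofReal √r) (hg _ _ _)

theorem riem_lower (hG : ContMDiff (𝓡 d) 𝓘(ℝ, W) ∞ G) (hg : riem_Pull g G) (x y : M) :
    edist (G x) (G y) ≤ (rdist g).edist x y := by
  letI : RiemannianBundle (fun x : M => TangentSpace (𝓡 d) x) :=
    ⟨g.toContinuousRiemannianMetric.toRiemannianMetric⟩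
  refine le_of_forall_gt fun r hr => ?_
  obtain ⟨γ, rfl, rfl, h1, h2⟩ := exists_lt_of_riemannianEDist_lt (I := 𝓡 d) hr
  rw [riem_len hG hg h1] at h2
  rw [edist_comm, edist_eq_enorm_sub]
  exact (enorm_sub_le_lintegral_derivWithin_Icc_of_contDiffOn_Icc (f := G ∘ γ)
    (contMDiffOn_iff_contDiffOn.1 ((hG.of_le (by simp)).comp_contMDiffOn h1)) zero_le_one).trans_lt h2

theorem riem_chart {V : Type} [NormedAddCommGroup V] [NormedSpace ℝ V] {G : M → V}
    (hG : ContMDiff (𝓡 d) 𝓘(ℝ, V) ∞ G) (p : M) :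
    ContDiffOn ℝ ∞ (G ∘ (chartAt (EuclideanSpace ℝ (Fin d)) p).symm)
      (chartAt (EuclideanSpace ℝ (Fin d)) p).target :=
  contMDiffOn_iff_contDiffOn.1 (hG.comp_contMDiffOn contMDiffOn_chart_symm)

theorem riem_upper (hG : ContMDiff (𝓡 d) 𝓘(ℝ, W) ∞ G) (hg : riem_Pull g G) (p : M)
    {B : Set (EuclideanSpace ℝ (Fin d))} (hB : Convex ℝ B)
    (hB' : B ⊆ (chartAt (EuclideanSpace ℝ (Fin d)) p).target) {y y' : EuclideanSpace ℝ (Fin d)}
    (hy : y ∈ B) (hy' : y' ∈ B) {c : ℝ≥0∞} (hc : ∀ z ∈ B,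
      ‖fderiv ℝ (G ∘ (chartAt (EuclideanSpace ℝ (Fin d)) p).symm) z (y' - y)‖ₑ ≤ c) :
    (rdist g).edist ((chartAt (EuclideanSpace ℝ (Fin d)) p).symm y)
      ((chartAt (EuclideanSpace ℝ (Fin d)) p).symm y') ≤ c := by
  letI : RiemannianBundle (fun x : M => TangentSpace (𝓡 d) x) :=
    ⟨g.toContinuousRiemannianMetric.toRiemannianMetric⟩
  set k := chartAt (EuclideanSpace ℝ (Fin d)) p
  let η := ContinuousAffineMap.lineMap (R := ℝ) y y'
  have hη : ∀ t ∈ Icc (0 : ℝ) 1, η t ∈ B := fun t ht => hB.lineMap_mem hy hy' ht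
  have h1 : ContMDiffOn 𝓘(ℝ, ℝ) (𝓡 d) 1 (k.symm ∘ η) (Icc 0 1) :=
    contMDiffOn_chart_symm.comp η.contDiff.contMDiff.contMDiffOn fun t ht => hB' (hη t ht)
  refine (riemannianEDist_le_pathELength (I := 𝓡 d) h1
    (by simp [η, ContinuousAffineMap.coe_lineMap_eq])
    (by simp [η, ContinuousAffineMap.coe_lineMap_eq]) zero_le_one).trans ?_
  rw [riem_len hG hg h1]
  refine (setLIntegral_mono' measurableSet_Icc (g := fun _ => c) fun t ht => ?_).trans (by simp)
  have h2 := ((riem_chart hG p).contDiffAt (k.open_target.mem_nhds (hB' (hη t ht)))).differentiableAt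
    (by simp)
  have h3 : HasDerivAt η (y' - y) t := AffineMap.hasDerivAt_lineMap
  rw [← Function.comp_assoc, (h2.hasFDerivAt.comp_hasDerivAt t h3).hasDerivWithinAt.derivWithin
    (uniqueDiffOn_Icc zero_lt_one t ht)]
  exact hc _ (hη t ht)

theorem riem_local (hd : 0 < d) (hG : ContMDiff (𝓡 d) 𝓘(ℝ, W) ∞ G) (hg : riem_Pull g G) (p : M)
    {y : EuclideanSpace ℝ (Fin d)} (hy : y ∈ (chartAt (EuclideanSpace ℝ (Fin d)) p).target)
    (b : OrthonormalBasis (Fin d) ℝ (EuclideanSpace ℝ (Fin d))) {c : Fin d → ℝ≥0}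
    (hc : ∀ i, ‖fderiv ℝ (G ∘ (chartAt (EuclideanSpace ℝ (Fin d)) p).symm) y (b i)‖ < c i) :
    ∃ U ∈ 𝓝 y, ∀ A ⊆ U, vol g d ((chartAt (EuclideanSpace ℝ (Fin d)) p).symm '' A) ≤
      (∏ i, (d * c i) : ℝ≥0) * volume A := by
  set k := chartAt (EuclideanSpace ℝ (Fin d)) p
  have h1 : ContinuousAt (fderiv ℝ (G ∘ k.symm)) y :=
    ((riem_chart hG p).contDiffAt (k.open_target.mem_nhds hy)).continuousAt_fderiv (by simp)
  obtain ⟨r, r0, hr⟩ := Metric.mem_nhds_iff.1 (inter_mem (k.open_target.mem_nhds hy)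
    (eventually_all.2 fun i => ((h1.clm_apply continuousAt_const).norm).eventually
      (gt_mem_nhds (hc i))))
  refine ⟨_, Metric.ball_mem_nhds y r0, fun A hA => ?_⟩
  let D := Matrix.toLin b.toBasis b.toBasis (Matrix.diagonal fun i => (d * c i : ℝ))
  have hD : ∀ v i, b.repr (D v) i = d * c i * b.repr v i := fun v i => by
    have := congrFun (Matrix.repr_toLin b.toBasis b.toBasis
      (Matrix.diagonal fun i => (d * c i : ℝ)) v) i
    simpa [Matrix.mulVec_diagonal] using this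
  have c0 : ∀ i, (0 : ℝ) < d * c i := fun i =>
    mul_pos (Nat.cast_pos.2 i.pos) ((norm_nonneg _).trans_lt (hc i))
  have hD1 : Function.Injective D := (injective_iff_map_eq_zero D).2 fun v hv =>
    b.repr.injective (PiLp.ext fun i => by simpa [hv, (c0 i).ne'] using (hD v i).symm)
  letI : EMetricSpace M := rdist g
  letI : MeasurableSpace M := borel M
  haveI : BorelSpace M := ⟨rfl⟩
  have h2 : LipschitzOnWith 1 (k.symm ∘ Function.invFun D) (D '' A) := by
    rintro _ ⟨z, hz, rfl⟩ _ ⟨z', hz', rfl⟩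
    simp only [Function.comp, Function.leftInverse_invFun hD1 _, ENNReal.coe_one, one_mul]
    refine riem_upper hG hg p (convex_ball y r) (fun w hw => (hr hw).1) (hA hz) (hA hz')
      fun w hw => ?_
    rw [edist_comm, edist_eq_enorm_sub, ← map_sub, enorm_le_iff_norm_le]
    generalize z' - z = v
    conv_lhs => rw [← b.sum_repr v, map_sum]
    have d0 : (0 : ℝ) < d := Nat.cast_pos.2 hd
    refine (norm_sum_le _ _).trans ((Finset.sum_le_card_nsmul _ _ (‖D v‖ / d) fun i _ => ?_).trans_eq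
      (by simp; field_simp))
    have h3 := PiLp.norm_apply_le (b.repr (D v)) i
    rw [hD, b.repr.norm_map, norm_mul, Real.norm_of_nonneg (c0 i).le] at h3
    rw [map_smul, norm_smul, le_div_iff₀ d0]
    refine le_trans ?_ h3
    have := mul_le_mul_of_nonneg_left ((hr hw).2 i).le (norm_nonneg (b.repr v i))
    nlinarith
  have h3 := h2.hausdorffMeasure_image_le (d := d) (Nat.cast_nonneg _)
  rw [image_image] at h3
  simp only [Function.comp, Function.leftInverse_invFun hD1 _, ENNReal.coe_one, ENNReal.one_rpow,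
    one_mul, Measure.addHaar_image_linearMap, D, LinearMap.det_toLin, Matrix.det_diagonal] at h3
  rw [abs_of_pos (Finset.prod_pos fun i _ => c0 i)] at h3
  rw [vol, ← EuclideanSpace.euclideanHausdorffMeasure_eq_volume,
    Measure.euclideanHausdorffMeasure_def, Measure.euclideanHausdorffMeasure_def,
    Measure.smul_apply, Measure.smul_apply, ENNReal.smul_def, ENNReal.smul_def, smul_eq_mul,
    smul_eq_mul, mul_left_comm, ← ENNReal.ofReal_coe_nnreal (p := ∏ _, _)]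
  push_cast
  gcongr

theorem riem_glue {X Y : Type*} [TopologicalSpace X] [SecondCountableTopology X] [MeasurableSpace X]
    [OpensMeasurableSpace X] [MeasurableSpace Y] (μ : Measure X) (ν : Measure Y) (f : X → Y)
    {S : Set X} (hS : MeasurableSet S) {b : ℝ≥0∞}
    (h : ∀ y ∈ S, ∃ U ∈ 𝓝 y, ∀ A ⊆ U, ν (f '' A) ≤ b * μ A) : ν (f '' S) ≤ b * μ S := by
  choose! U h1 h2 using h
  obtain ⟨t, ht, tc, hU⟩ := TopologicalSpace.countable_cover_nhdsWithin
    (f := fun y => interior (U y)) (s := S)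
    fun y hy => mem_nhdsWithin_of_mem_nhds (interior_mem_nhds.2 (h1 y hy))
  rcases t.eq_empty_or_nonempty with rfl | hne
  · simp [show S = ∅ by simpa using hU]
  obtain ⟨u, rfl⟩ := tc.exists_eq_range hne
  have e : S = ⋃ n, S ∩ disjointed (fun n => interior (U (u n))) n := by
    rw [← inter_iUnion, iUnion_disjointed, inter_eq_left.2 (by simpa using hU)]
  rw [e, image_iUnion, measure_iUnion ((disjoint_disjointed _).mono fun _ _ h =>
    h.mono inter_subset_right inter_subset_right) fun n => hS.inter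
      (MeasurableSet.disjointed (fun n => isOpen_interior.measurableSet) n), ← ENNReal.tsum_mul_left]
  exact (measure_iUnion_le _).trans (ENNReal.tsum_le_tsum fun n => h2 _ (ht ⟨n, rfl⟩) _
    (inter_subset_right.trans ((disjointed_subset _ n).trans interior_subset)))

end

section
variable {n m : ℕ} {M : Type*} [TopologicalSpace M]
  [ChartedSpace (EuclideanSpace ℝ (Fin (n + 1))) M] [IsManifold (𝓡 (n + 1)) ∞ M] [T2Space M]
  [CompactSpace M]

/-- The volume bound for a subset. -/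
def riem_P {M : Type*} [TopologicalSpace M] [ChartedSpace (EuclideanSpace ℝ (Fin (n + 1))) M]
    [IsManifold (𝓡 (n + 1)) ∞ M] [T2Space M] [CompactSpace M] (e : M → (Fin m → ℝ))
    (K : Set M) : Prop :=
  ∃ (lam : Measure (Fin m → ℝ)) (C : ℝ≥0), IsFiniteMeasure lam ∧
    ∀ (W : Type) [NormedAddCommGroup W] [InnerProductSpace ℝ W] (Φ : (Fin m → ℝ) → W),
    ContDiff ℝ ∞ Φ → ∀ A, IsOpen A → ∀ L L' η : ℝ≥0, 0 < L → 0 < L' → 0 < η →
    (∀ p, e p ∈ A → ∀ v, ‖fderiv ℝ Φ (e p) v‖ ≤ L * ‖v‖) →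
    (∀ p v, ‖fderiv ℝ Φ (e p) v‖ ≤ L' * ‖v‖) →
    (∀ p, e p ∉ A → ∀ j : EuclideanSpace ℝ (Fin (n + 1)) →ₗ[ℝ] (Fin m → ℝ),
      ∃ ξ, ξ ≠ 0 ∧ ‖fderiv ℝ Φ (e p) (j ξ)‖ ≤ η * ‖j ξ‖) →
    ∀ g : RMetric (n + 1) M, riem_Pull g (Φ ∘ e) →
      vol g (n + 1) K ≤ C * ((L : ℝ≥0∞) ^ (n + 1) * lam A + L' ^ n * η)

theorem riem_nhds {e : M → (Fin m → ℝ)} (he : ContMDiff (𝓡 (n + 1)) 𝓘(ℝ, Fin m → ℝ) ∞ e) (p : M) :
    ∃ K ∈ 𝓝 p, riem_P (n := n) e K := by
  have hu := riem_chart he p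
  set k := chartAt (EuclideanSpace ℝ (Fin (n + 1))) p with hk
  obtain ⟨T, T1, T2, T3⟩ := local_compact_nhds (k.open_target.mem_nhds (mem_chart_target _ p))
  obtain ⟨C0, hC⟩ := T3.exists_bound_of_continuousOn
    ((hu.continuousOn_fderiv_of_isOpen k.open_target (by simp)).mono T2)
  obtain ⟨C, hC⟩ : ∃ C : ℝ≥0, ∀ y ∈ T, ∀ v, ‖v‖ = 1 → ‖fderiv ℝ (e ∘ k.symm) y v‖ < C :=
    ⟨C0.toNNReal + 1, fun y hy v hv => ((ContinuousLinearMap.le_opNorm _ _).trans
      (by rw [hv, mul_one]; exact (hC y hy).trans (Real.le_coe_toNNReal _))).trans_lt (lt_add_one _)⟩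
  have hT := T3.measurableSet
  have hV := T3.measure_lt_top (μ := volume)
  have := isFiniteMeasure_restrict.2 hV.ne
  refine ⟨k.symm '' T, k.symm.image_mem_nhds (mem_chart_target _ p) T1 |> fun h => by
    simpa [hk] using h, (volume.restrict T).map (e ∘ k.symm),
    ((n + 1) * C) ^ (n + 1) * (1 + (volume T).toNNReal), inferInstance,
    fun W _ _ Φ hΦ A hA L L' η L0 L0' η0 h1 h2 h3 g hg => ?_⟩
  have hG := hΦ.contMDiff.comp he
  have hd : ∀ y ∈ T, ∀ v, fderiv ℝ ((Φ ∘ e) ∘ k.symm) y v =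
      fderiv ℝ Φ (e (k.symm y)) (fderiv ℝ (e ∘ k.symm) y v) := fun y hy v => by
    rw [Function.comp_assoc, fderiv_comp y (hΦ.differentiable (by simp) _)
      ((hu.contDiffAt (k.open_target.mem_nhds (T2 hy))).differentiableAt (by simp))]
    rfl
  have hO := (hu.continuousOn.isOpen_inter_preimage k.open_target hA).measurableSet
  letI : EMetricSpace M := rdist g
  letI : MeasurableSpace M := borel M
  haveI : BorelSpace M := ⟨rfl⟩
  have a1 := riem_glue volume (μHE[n + 1]) k.symm (hT.inter hO) fun y hy =>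
    riem_local n.succ_pos hG hg p (T2 hy.1) (EuclideanSpace.basisFun _ ℝ) (c := fun _ => L * C)
      fun i => by
        rw [hd y hy.1]
        exact (h1 _ hy.2.2 _).trans_lt (mul_lt_mul_of_pos_left
          (hC y hy.1 _ ((EuclideanSpace.basisFun _ ℝ).norm_eq_one i)) L0)
  have a2 := riem_glue volume (μHE[n + 1]) k.symm (hT.diff hO) fun y hy => by
    obtain ⟨ξ, h4, h5⟩ := h3 (k.symm y) (fun h => hy.2 ⟨T2 hy.1, h⟩) (fderiv ℝ (e ∘ k.symm) y)
    obtain ⟨b, hb⟩ := Orthonormal.exists_orthonormalBasis_extension_of_card_eq (𝕜 := ℝ)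
      (ι := Fin (n + 1)) (by simp) (v := fun _ => ‖ξ‖⁻¹ • ξ) (s := {0})
      (orthonormal_subsingleton_iff.2 fun _ => norm_smul_inv_norm h4)
    refine riem_local n.succ_pos hG hg p (T2 hy.1) b (c := Fin.cons (η * C) fun _ => L' * C)
      fun i => ?_
    rw [hd y hy.1]
    have h6 := hC y hy.1 _ (b.norm_eq_one i)
    revert h6
    refine Fin.cases (fun h6 => ?_) (fun i h6 => ?_) i
    · refine lt_of_le_of_lt ?_ (mul_lt_mul_of_pos_left h6 η0)
      rw [hb 0 rfl, map_smul, map_smul, norm_smul, norm_smul, mul_left_comm]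
      exact mul_le_mul_of_nonneg_left h5 (norm_nonneg _)
    · exact (h2 _ _).trans_lt (mul_lt_mul_of_pos_left h6 L0')
  have a3 : volume (T ∩ (k.target ∩ (e ∘ k.symm) ⁻¹' A)) ≤
      (volume.restrict T).map (e ∘ k.symm) A :=
    (measure_mono fun y hy => mem_inter hy.2.2 hy.1).trans ((Measure.le_restrict_apply _ _).trans
      (Measure.le_map_apply ((hu.continuousOn.mono T2).aemeasurable hT) A))
  have a4 : volume (T \ (k.target ∩ (e ∘ k.symm) ⁻¹' A)) ≤ (volume T).toNNReal :=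
    (measure_mono sdiff_subset).trans_eq (ENNReal.coe_toNNReal hV.ne).symm
  conv_lhs => rw [← inter_union_sdiff T (k.target ∩ (e ∘ k.symm) ⁻¹' A), image_union]
  refine (measure_union_le (μ := μHE[n + 1]) _ _).trans ((add_le_add (a1.trans
    (mul_le_mul_right a3 _)) (a2.trans (mul_le_mul_right a4 _))).trans ?_)
  simp only [Fin.prod_univ_succ, Fin.cons_zero, Fin.cons_succ, Finset.prod_const, Finset.card_univ, Fintype.card_fin]
  push_cast
  generalize (volume.restrict T).map (e ∘ k.symm) A = x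
  generalize ((volume T).toNNReal : ℝ≥0∞) = y
  simp only [mul_pow, Nat.succ_eq_add_one]
  generalize (n + 1 : ℝ≥0∞) = N
  exact le_self_add.trans_eq (b := _ + ((N * C) ^ (n + 1) * (y * (L ^ (n + 1) * x)) +
    (N * C) ^ (n + 1) * (L' ^ n * η))) (by ring)

theorem riem_univ {e : M → (Fin m → ℝ)} (he : ContMDiff (𝓡 (n + 1)) 𝓘(ℝ, Fin m → ℝ) ∞ e) :
    riem_P (n := n) e univ := by
  refine isCompact_univ.induction_on ⟨0, 0, inferInstance, ?_⟩ ?_ ?_
    fun p _ => by simpa using riem_nhds he p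
  · intros; simp [vol]
  · rintro s t hst ⟨lam, C, h, h'⟩
    refine ⟨lam, C, h, fun W _ _ Φ hΦ A hA L L' η L0 L0' η0 h1 h2 h3 g hg =>
      le_trans ?_ (h' W Φ hΦ A hA L L' η L0 L0' η0 h1 h2 h3 g hg)⟩
    exact measure_mono hst
  · rintro s t ⟨lam, C, h, h'⟩ ⟨lam', C', h'', h'''⟩
    refine ⟨lam + lam', C + C', inferInstance,
      fun W _ _ Φ hΦ A hA L L' η L0 L0' η0 h1 h2 h3 g hg => (measure_union_le _ _).trans
        ((add_le_add (h' W Φ hΦ A hA L L' η L0 L0' η0 h1 h2 h3 g hg)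
          (h''' W Φ hΦ A hA L L' η L0 L0' η0 h1 h2 h3 g hg)).trans ?_)⟩
    rw [ENNReal.coe_add, add_mul, Measure.add_apply]
    gcongr
    exacts [le_self_add, le_add_self]

end

/-- The map whose pull-back metric is used. -/
noncomputable def riem_Phi {m : ℕ} {ι : Type} (F : ι → (Fin m → ℝ) → ℝ) (s : ℝ) (y : Fin m → ℝ) :
    EuclideanSpace ℝ (Fin m ⊕ ι) :=
  WithLp.toLp 2 (Sum.elim (fun i => s * y i) fun c => F c y)

theorem riem_smooth {m : ℕ} {ι : Type} [Fintype ι] {F : ι → (Fin m → ℝ) → ℝ}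
    (hF : ∀ c, ContDiff ℝ ∞ (F c)) (s : ℝ) : ContDiff ℝ ∞ (riem_Phi F s) :=
  contDiff_euclidean.2 fun j => by
    rcases j with j | j
    exacts [contDiff_const.mul (contDiff_apply ℝ ℝ j), hF j]

theorem riem_norm {m : ℕ} {ι : Type} [Fintype ι] {F : ι → (Fin m → ℝ) → ℝ}
    (hF : ∀ c, ContDiff ℝ ∞ (F c)) (s : ℝ) (y v : Fin m → ℝ) :
    ‖fderiv ℝ (riem_Phi F s) y v‖ ^ 2 = s ^ 2 * ∑ i, v i ^ 2 + ∑ c, (fderiv ℝ (F c) y v) ^ 2 := by
  have h := fun j => ((PiLp.proj 2 (fun _ : Fin m ⊕ ι => ℝ) j).hasFDerivAt.comp y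
    ((riem_smooth hF s).differentiable (by simp) y).hasFDerivAt).fderiv
  rw [EuclideanSpace.real_norm_sq_eq, Fintype.sum_sum_type, Finset.mul_sum]
  congr 1 <;> refine Finset.sum_congr rfl fun j _ => ?_
  · rw [← mul_pow]
    exact congrArg (· ^ 2) (congr($(h (.inl j)) v).symm.trans
      congr($(((hasFDerivAt_apply (𝕜 := ℝ) j y).const_mul s).fderiv) v))
  · exact congrArg (· ^ 2) congr($(h (.inr j)) v).symm

theorem metric_package (d m : ℕ) (hd : 0 < d) (M : Type*) [TopologicalSpace M]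
    [ChartedSpace (EuclideanSpace ℝ (Fin d)) M] [IsManifold (𝓡 d) ∞ M] [T2Space M]
    [CompactSpace M] (e : M → (Fin m → ℝ)) (he : ContMDiff (𝓡 d) 𝓘(ℝ, Fin m → ℝ) ∞ e)
    (hinj : ∀ x, Function.Injective (mfderiv (𝓡 d) 𝓘(ℝ, Fin m → ℝ) e x)) :
    ∃ (lam : Measure (Fin m → ℝ)) (C : ℝ≥0), IsFiniteMeasure lam ∧
      ∀ (ι : Type) [Fintype ι] (F : ι → (Fin m → ℝ) → ℝ), (∀ c, ContDiff ℝ ∞ (F c)) →
      ∀ (A : Set (Fin m → ℝ)), IsOpen A → ∀ L : ℝ≥0,
        (∀ p, e p ∈ A → ∀ v, ∑ c, (fderiv ℝ (F c) (e p) v) ^ 2 ≤ (L * ‖v‖) ^ 2) →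
        (∀ p, e p ∉ A → ∀ j : EuclideanSpace ℝ (Fin d) →ₗ[ℝ] (Fin m → ℝ),
          ∃ ξ, ξ ≠ 0 ∧ ∀ c, fderiv ℝ (F c) (e p) (j ξ) = 0) →
        ∃ g : RMetric d M,
          (∀ c x y, edist (F c (e x)) (F c (e y)) ≤ (rdist g).edist x y) ∧
          vol g d univ ≤ C * (((L : ℝ≥0∞) + 1) ^ d * lam A) + 1 := by
  obtain ⟨n, rfl⟩ := Nat.exists_eq_add_one.2 hd
  obtain ⟨lam, C, h, hP⟩ := riem_univ he
  refine ⟨lam, C, h, fun ι _ F hF A hA L h1 h2 => ?_⟩
  obtain ⟨B, hB⟩ := isCompact_univ.exists_bound_of_continuousOn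
    (((riem_smooth hF 1).continuous_fderiv (by simp)).comp he.continuous).continuousOn
  let L' : ℝ≥0 := B.toNNReal + 1
  let η : ℝ≥0 := (C * L' ^ n + 1)⁻¹
  have η0 : 0 < η := by positivity
  have η1 : (η : ℝ) ≤ 1 := by exact_mod_cast inv_le_one_of_one_le₀ (le_add_self (a := (1 : ℝ≥0)))
  have s0 : (0 : ℝ) < η / (m + 1) := by positivity
  have s1 : (η : ℝ) / (m + 1) ≤ 1 := (div_le_self η.2 (by simp)).trans η1
  have hs : ∀ v : Fin m → ℝ, ((η : ℝ) / (m + 1)) ^ 2 * ∑ i, v i ^ 2 ≤ (η * ‖v‖) ^ 2 := fun v => by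
    have : ∑ i, v i ^ 2 ≤ m * ‖v‖ ^ 2 := (Finset.sum_le_card_nsmul _ _ (‖v‖ ^ 2) fun i _ => by
      rw [← sq_abs]; exact pow_le_pow_left₀ (abs_nonneg _) (norm_le_pi_norm v i) 2).trans_eq
        (by simp)
    rw [div_pow, div_mul_eq_mul_div, div_le_iff₀ (by positivity), mul_pow, mul_assoc]
    refine mul_le_mul_of_nonneg_left (this.trans ?_) (sq_nonneg _)
    rw [mul_comm]
    exact mul_le_mul_of_nonneg_left (by nlinarith [Nat.cast_nonneg (α := ℝ) m]) (sq_nonneg _)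
  have hΦ := riem_smooth hF (η / (m + 1))
  have hN := riem_norm hF (η / (m + 1))
  obtain ⟨g, hg⟩ := riem_exists (hΦ.contMDiff.comp he) fun x =>
    (injective_iff_map_eq_zero _).2 fun v hv => (injective_iff_map_eq_zero _).1 (hinj x) v <| by
      have h3 := mfderiv_comp x (hΦ.contMDiff.mdifferentiableAt (by simp))
        ((he x).mdifferentiableAt (by simp))
      rw [mfderiv_eq_fderiv] at h3
      have h4 := hN (e x) (mfderiv (𝓡 (n + 1)) 𝓘(ℝ, Fin m → ℝ) e x v)
      rw [show fderiv ℝ (riem_Phi F (η / (m + 1))) (e x)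
        (mfderiv (𝓡 (n + 1)) 𝓘(ℝ, Fin m → ℝ) e x v) = 0 from
        congr($h3 v).symm.trans hv, norm_zero, eq_comm, zero_pow two_ne_zero,
        add_eq_zero_iff_of_nonneg (by positivity) (by positivity), mul_eq_zero,
        Finset.sum_eq_zero_iff_of_nonneg fun _ _ => sq_nonneg _] at h4
      exact funext fun i => pow_eq_zero_iff two_ne_zero |>.1
        (h4.1.resolve_left (by positivity) i (Finset.mem_univ _))
  refine ⟨g, fun c x y => (PiLp.edist_apply_le (riem_Phi F (η / (m + 1)) (e x))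
    (riem_Phi F (η / (m + 1)) (e y)) (.inr c)).trans (riem_lower (hΦ.contMDiff.comp he) hg x y),
    (hP _ _ hΦ A hA (L + 1) L' η (by positivity) (by positivity) η0 (fun p hp v => ?_)
      (fun p v => ?_) (fun p hp j => ?_) g hg).trans ?_⟩
  · refine abs_le_of_sq_le_sq' ?_ (by positivity) |>.2
    rw [hN]
    push_cast
    have := pow_le_pow_left₀ (by positivity) (mul_le_of_le_one_left (norm_nonneg v) η1) 2
    have : 0 ≤ L * ‖v‖ * ‖v‖ := by positivity
    nlinarith [hs v, h1 p hp v]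
  · refine le_trans (abs_le_of_sq_le_sq' ?_ (norm_nonneg _)).2
      (((fderiv ℝ (riem_Phi F 1) (e p)).le_opNorm v).trans (mul_le_mul_of_nonneg_right
        ((hB p trivial).trans ((Real.le_coe_toNNReal B).trans (lt_add_one _).le)) (norm_nonneg _)))
    rw [hN, riem_norm hF]
    gcongr
  · obtain ⟨ξ, h3, h4⟩ := h2 p hp j
    refine ⟨ξ, h3, abs_le_of_sq_le_sq' ?_ (by positivity) |>.2⟩
    simpa [hN, h4] using hs (j ξ)
  · rw [mul_add]
    push_cast
    gcongr
    rw [← mul_assoc]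
    exact_mod_cast mul_inv_le_one_of_le₀ le_self_add zero_le

end Pool.Agent.Lib.MP_d476f3_gt
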