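import Mathlib

set_option autoImplicit false

open Set MeasureTheory
open scoped Manifold ContDiff ENNReal NNReal

namespace Pool.Agent.Lib.MP_d476f3_gt

theorem sard_cover (H S : Type*) [TopologicalSpace H] [TopologicalSpace S] [ChartedSpace H S]
    [CompactSpace S] : ∃ t : Finset S, ∀ x, ∃ p ∈ t, x ∈ (chartAt H p).source := by
  obtain ⟨t, ht⟩ := isCompact_univ.elim_finite_subcover (fun p : S => (chartAt H p).source)
    (fun p => (chartAt H p).open_source) (fun x _ => mem_iUnion.2 ⟨x, mem_chart_source H x⟩)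
  refine ⟨t, fun x => ?_⟩
  simpa using ht (mem_univ x)

theorem sard_chart {n : ℕ} {S : Type*} [TopologicalSpace S]
    [ChartedSpace (EuclideanSpace ℝ (Fin n)) S] [IsManifold (𝓡 n) ∞ S]
    {F : Type*} [NormedAddCommGroup F] [NormedSpace ℝ F] {f : S → F}
    (hf : ContMDiff (𝓡 n) 𝓘(ℝ, F) ∞ f) (p : S) :
    ContDiffOn ℝ ∞ (f ∘ (chartAt (EuclideanSpace ℝ (Fin n)) p).symm)
      (chartAt (EuclideanSpace ℝ (Fin n)) p).target :=
  contMDiffOn_iff_contDiffOn.1 (hf.comp_contMDiffOn contMDiffOn_chart_symm)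

theorem range_null (n : ℕ) (S : Type*) [TopologicalSpace S]
    [ChartedSpace (EuclideanSpace ℝ (Fin n)) S] [IsManifold (𝓡 n) ∞ S] [CompactSpace S]
    {ι : Type} [Fintype ι] (hι : n < Fintype.card ι) (f : S → (ι → ℝ))
    (hf : ContMDiff (𝓡 n) 𝓘(ℝ, ι → ℝ) ∞ f) : volume (range f) = 0 := by
  obtain ⟨t, ht⟩ := sard_cover (EuclideanSpace ℝ (Fin n)) S
  have hsub : range f ⊆ ⋃ p ∈ t, (f ∘ (chartAt (EuclideanSpace ℝ (Fin n)) p).symm) ''
      (chartAt (EuclideanSpace ℝ (Fin n)) p).target := by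
    rintro _ ⟨x, rfl⟩
    obtain ⟨p, hp, hx⟩ := ht x
    refine mem_iUnion₂.2 ⟨p, hp, chartAt _ p x, (chartAt _ p).map_source hx, ?_⟩
    simp [(chartAt (EuclideanSpace ℝ (Fin n)) p).left_inv hx]
  refine measure_mono_null hsub ((measure_biUnion_null_iff t.countable_toSet).2 fun p _ => ?_)
  have hd : dimH ((f ∘ (chartAt (EuclideanSpace ℝ (Fin n)) p).symm) ''
      (chartAt (EuclideanSpace ℝ (Fin n)) p).target) ≤ n := by
    refine (dimH_image_le_of_locally_lipschitzOn fun y hy => ?_).trans ?_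
    · have h1 : ContDiffAt ℝ 1 (f ∘ (chartAt (EuclideanSpace ℝ (Fin n)) p).symm) y :=
        ((sard_chart hf p).contDiffAt ((chartAt _ p).open_target.mem_nhds hy)).of_le (by simp)
      obtain ⟨C, u, hu, hC⟩ := h1.exists_lipschitzOnWith
      exact ⟨C, u, mem_nhdsWithin_of_mem_nhds hu, hC⟩
    · refine (dimH_mono (subset_univ _)).trans ?_
      rw [Real.dimH_univ_eq_finrank]
      simp
  refine measure_zero_of_dimH_lt (d := (Fintype.card ι : ℝ≥0)) ?_ (hd.trans_lt ?_)
  · rw [← hausdorffMeasure_pi_real]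
    exact Measure.AbsolutelyContinuous.rfl
  · exact_mod_cast hι

theorem sard_local (k : ℕ) (S : Type*) [TopologicalSpace S]
    [ChartedSpace (EuclideanSpace ℝ (Fin k)) S] [IsManifold (𝓡 k) ∞ S] [CompactSpace S]
    (h : S → (Fin k → ℝ)) (hh : ContMDiff (𝓡 k) 𝓘(ℝ, Fin k → ℝ) ∞ h) :
    ∀ᵐ y : Fin k → ℝ, ∀ x, h x = y →
      ∃ φ : OpenPartialHomeomorph S (Fin k → ℝ), x ∈ φ.source ∧ EqOn φ h φ.source := by
  obtain ⟨t, ht⟩ := sard_cover (EuclideanSpace ℝ (Fin k)) S
  let L : EuclideanSpace ℝ (Fin k) ≃L[ℝ] (Fin k → ℝ) := EuclideanSpace.equiv (Fin k) ℝ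
  let v : S → (Fin k → ℝ) → (Fin k → ℝ) := fun p =>
    (h ∘ (chartAt (EuclideanSpace ℝ (Fin k)) p).symm) ∘ L.symm
  let U : S → Set (Fin k → ℝ) := fun p => L.symm ⁻¹' (chartAt (EuclideanSpace ℝ (Fin k)) p).target
  have hv : ∀ p, ∀ z ∈ U p, ContDiffAt ℝ ∞ (v p) z := fun p z hz =>
    ((sard_chart hh p).contDiffAt ((chartAt _ p).open_target.mem_nhds hz)).comp z
      L.symm.contDiff.contDiffAt
  have hnull : ∀ p, volume (v p '' {z | z ∈ U p ∧ (fderiv ℝ (v p) z).det = 0}) = 0 := by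
    intro p
    refine addHaar_image_eq_zero_of_det_fderivWithin_eq_zero volume
      (f' := fun z => fderiv ℝ (v p) z) (fun z hz => ?_) (fun z hz => hz.2)
    exact ((hv p z hz.1).differentiableAt (by simp)).hasFDerivAt.hasFDerivWithinAt
  have hae : ∀ᵐ y : Fin k → ℝ, ∀ p ∈ t,
      y ∉ v p '' {z | z ∈ U p ∧ (fderiv ℝ (v p) z).det = 0} :=
    (ae_ball_iff t.countable_toSet).2 fun p _ => measure_eq_zero_iff_ae_notMem.1 (hnull p)
  filter_upwards [hae] with y hy x hx
  obtain ⟨p, hp, hxp⟩ := ht x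
  set c := chartAt (EuclideanSpace ℝ (Fin k)) p with hc
  have hval : ∀ z ∈ c.source, v p (L (c z)) = h z := by
    intro z hz
    simp only [v, Function.comp_apply, ContinuousLinearEquiv.symm_apply_apply]
    rw [← hc, c.left_inv hz]
  have hU : L (c x) ∈ U p := by
    simp only [U, mem_preimage, ContinuousLinearEquiv.symm_apply_apply]
    exact c.map_source hxp
  have hdet : (fderiv ℝ (v p) (L (c x))).det ≠ 0 := fun h0 =>
    hy p hp ⟨L (c x), ⟨hU, h0⟩, (hval x hxp).trans hx⟩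
  have hder : HasFDerivAt (v p)
      (((fderiv ℝ (v p) (L (c x))).toContinuousLinearEquivOfDetNeZero hdet :
        (Fin k → ℝ) ≃L[ℝ] (Fin k → ℝ)) : (Fin k → ℝ) →L[ℝ] (Fin k → ℝ)) (L (c x)) := by
    rw [ContinuousLinearMap.coe_toContinuousLinearEquivOfDetNeZero]
    exact ((hv p _ hU).differentiableAt (by simp)).hasFDerivAt
  let ψ := (hv p _ hU).toOpenPartialHomeomorph (v p) hder (by simp)
  refine ⟨c.trans (L.toHomeomorph.toOpenPartialHomeomorph.trans ψ), ?_, fun z hz => ?_⟩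
  · refine ⟨hxp, ?_⟩
    refine ⟨mem_univ _, ?_⟩
    exact (hv p _ hU).mem_toOpenPartialHomeomorph_source hder (by simp)
  · exact hval z hz.1

theorem count_le {X Ω : Type*} [MetricSpace X] [MeasurableSpace X] [BorelSpace X]
    [MeasurableSpace Ω] (ν : Measure Ω) (H : Measure X) (K : Set X) (hK : IsCompact K)
    (hit : Ω → X → Prop) (C : ℝ≥0∞)
    (h : ∀ B, B ⊆ K → MeasurableSet B → ν {a | ∃ x ∈ B, hit a x} ≤ C * H B) (J : ℕ) :
    (J : ℝ≥0∞) * ν {a | ∃ s : Finset X, s.card = J ∧ ∀ x ∈ s, x ∈ K ∧ hit a x} ≤ C * H K := by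
  classical
  rcases K.eq_empty_or_nonempty with rfl | hne
  · rcases Nat.eq_zero_or_pos J with rfl | hJ
    · simp
    · have : {a | ∃ s : Finset X, s.card = J ∧ ∀ x ∈ s, x ∈ (∅ : Set X) ∧ hit a x} = ∅ := by
        refine eq_empty_of_forall_notMem ?_
        rintro a ⟨s, hs, hx⟩
        obtain ⟨x, hxs⟩ := Finset.card_pos.1 (hs ▸ hJ)
        exact (hx x hxs).1
      rw [this]
      simp
  let E : ℕ → Set Ω := fun n => {a | ∃ s : Finset X, s.card = J ∧ (∀ x ∈ s, x ∈ K ∧ hit a x) ∧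
    ∀ x ∈ s, ∀ y ∈ s, x ≠ y → 1 / ((n : ℝ) + 1) < dist x y}
  have hmono : Monotone E := by
    rintro n n' hn a ⟨s, hs, hx, hd⟩
    exact ⟨s, hs, hx, fun x hx y hy hxy =>
      (Nat.one_div_le_one_div hn).trans_lt (hd x hx y hy hxy)⟩
  have hunion : {a | ∃ s : Finset X, s.card = J ∧ ∀ x ∈ s, x ∈ K ∧ hit a x} = ⋃ n, E n := by
    refine Subset.antisymm ?_ (iUnion_subset fun n a ⟨s, hs, hx, _⟩ => ⟨s, hs, hx⟩)
    rintro a ⟨s, hs, hx⟩
    have hev : ∀ᶠ n : ℕ in Filter.atTop,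
        ∀ x ∈ s, ∀ y ∈ s, x ≠ y → 1 / ((n : ℝ) + 1) < dist x y := by
      refine (Filter.eventually_all_finset s).2 fun x _ =>
        (Filter.eventually_all_finset s).2 fun y _ => ?_
      by_cases hxy : x = y
      · exact Filter.Eventually.of_forall fun n hn => absurd hxy hn
      · filter_upwards [tendsto_one_div_add_atTop_nhds_zero_nat.eventually
          (gt_mem_nhds (dist_pos.2 hxy))] with n hn _ using hn
    obtain ⟨n, hn⟩ := hev.exists
    exact mem_iUnion.2 ⟨n, s, hs, hx, hn⟩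
  rw [hunion, hmono.measure_iUnion, ENNReal.mul_iSup]
  refine iSup_le fun n => ?_
  have hε : 0 < 1 / ((n : ℝ) + 1) / 2 := by positivity
  obtain ⟨t, -, htf, hcov⟩ := hK.finite_cover_balls hε
  have htne : t.Nonempty := by
    obtain ⟨x, hx⟩ := hne
    obtain ⟨c, hc, -⟩ := mem_iUnion₂.1 (hcov hx)
    exact ⟨c, hc⟩
  obtain ⟨u, hu⟩ := htf.countable.exists_eq_range htne
  let A : ℕ → Set X := fun i => K ∩ Metric.ball (u i) (1 / ((n : ℝ) + 1) / 2)
  have hAm : ∀ i, MeasurableSet (A i) := fun i =>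
    hK.measurableSet.inter Metric.isOpen_ball.measurableSet
  have hAU : ⋃ i, A i = K := by
    refine Subset.antisymm (iUnion_subset fun i => inter_subset_left) fun x hx => ?_
    obtain ⟨c, hc, hxc⟩ := mem_iUnion₂.1 (hcov hx)
    rw [hu] at hc
    obtain ⟨i, rfl⟩ := hc
    exact mem_iUnion.2 ⟨i, hx, hxc⟩
  let B : ℕ → Set X := disjointed A
  have hBm : ∀ i, MeasurableSet (B i) := MeasurableSet.disjointed hAm
  have hBA : ∀ i, B i ⊆ A i := disjointed_subset A
  have hBU : ⋃ i, B i = K := (iUnion_disjointed).trans hAU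
  let T : ℕ → Set Ω := fun i => toMeasurable ν {a | ∃ x ∈ B i, hit a x}
  have hTm : ∀ i, MeasurableSet (T i) := fun i => measurableSet_toMeasurable _ _
  let g : Ω → ℝ≥0∞ := fun a => ∑' i, (T i).indicator 1 a
  have hgm : Measurable g := Measurable.tsum fun i => measurable_one.indicator (hTm i)
  have hE : E n ⊆ {a | (J : ℝ≥0∞) ≤ g a} := by
    rintro a ⟨s, hs, hx, hd⟩
    have hidx : ∀ x, x ∈ K → ∃ i, x ∈ B i := fun x hx => mem_iUnion.1 (hBU ▸ hx)
    choose! idx hidx using hidx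
    have hinj : InjOn idx s := by
      intro x hxs y hys hxy
      by_contra hne
      have h1 := (hBA _ (hidx x (hx x hxs).1)).2
      have h2 := (hBA _ (hidx y (hx y hys).1)).2
      rw [← hxy] at h2
      have h3 := dist_triangle_right x y (u (idx x))
      have h4 := hd x hxs y hys hne
      rw [Metric.mem_ball] at h1 h2
      linarith
    calc (J : ℝ≥0∞) = ∑ i ∈ s.image idx, (T i).indicator 1 a := by
          rw [Finset.sum_congr rfl (g := fun _ => 1), Finset.sum_const,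
            Finset.card_image_of_injOn hinj, hs]
          · simp
          · intro i hi
            obtain ⟨x, hxs, rfl⟩ := Finset.mem_image.1 hi
            have : a ∈ T (idx x) :=
              subset_toMeasurable _ _ ⟨x, hidx x (hx x hxs).1, (hx x hxs).2⟩
            simp [this]
      _ ≤ g a := ENNReal.sum_le_tsum _
  calc (J : ℝ≥0∞) * ν (E n) ≤ J * ν {a | (J : ℝ≥0∞) ≤ g a} := by gcongr
    _ ≤ ∫⁻ a, g a ∂ν := mul_meas_ge_le_lintegral hgm _
    _ = ∑' i, ν (T i) := by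
        rw [lintegral_tsum fun i => (measurable_one.indicator (hTm i)).aemeasurable]
        exact tsum_congr fun i => lintegral_indicator_one (hTm i)
    _ ≤ ∑' i, C * H (B i) := ENNReal.tsum_le_tsum fun i => by
        rw [measure_toMeasurable]
        exact h _ ((hBA i).trans inter_subset_left) (hBm i)
    _ = C * H K := by
        rw [ENNReal.tsum_mul_left, ← measure_iUnion (disjoint_disjointed A) hBm, hBU]

end Pool.Agent.Lib.MP_d476f3_gt
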