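import Pool.Agent.Lib.MP_d476f3_gt.Hits
import Pool.Agent.Lib.MP_d476f3_gt.Rank
import Pool.Agent.Lib.MP_d476f3_gt.Sard
import Pool.Agent.Lib.MP_d476f3_gt.Riem
import Pool.Agent.Lib.MP_d476f3_gt.Retract

set_option autoImplicit false

open Set Filter Topology MeasureTheory
open scoped ENNReal NNReal Manifold ContDiff

noncomputable section

namespace Pool.Agent.Lib.MP_d476f3_gt

namespace Cfg

variable {m k N : ℕ} {c : Cfg m k N} {Λ : ℝ} {H : Measure (Fin m → ℝ)}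

lemma contMDiff_coord {ι S : Type} [Fintype ι] [TopologicalSpace S]
    [ChartedSpace (EuclideanSpace ℝ (Fin k)) S] {e : S → (Fin m → ℝ)}
    (he : ContMDiff (𝓡 k) 𝓘(ℝ, Fin m → ℝ) ∞ e) (t : ι → Fin m) (r : ℝ) (u : ι → ℝ) :
    ContMDiff (𝓡 k) 𝓘(ℝ, ι → ℝ) ∞ fun s i => r * (e s (t i) - u i) :=
  (show ContDiff ℝ ∞ fun (x : Fin m → ℝ) i => r * (x (t i) - u i) by fun_prop).contMDiff.comp he

theorem exists_regular {S : Type} [TopologicalSpace S]
    [ChartedSpace (EuclideanSpace ℝ (Fin k)) S] [IsManifold (𝓡 k) ∞ S] [CompactSpace S]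
    {e : S → (Fin m → ℝ)} (he : ContMDiff (𝓡 k) 𝓘(ℝ, Fin m → ℝ) ∞ e) (hi : Function.Injective e)
    (heK : range e ⊆ c.K) (hH : c.LipH Λ (range e) H) (h1 : 2 ^ c.d * H (range e) < N) :
    ∃ a : Fin m → ℝ, (∀ t, a t ∈ Icc (0 : ℝ) 1) ∧ (∀ s, e s - c.θ 0 a ∈ Wle m k) ∧
      (∃ u : Finset S, u.card ≤ N ∧ ∀ s, e s - c.θ 0 a ∉ Wlt m k → s ∈ u) ∧
      ∀ s (f : Face m k), f.π (e s - c.θ 0 a) = 0 → ∃ φ : OpenPartialHomeomorph S (Fin k → ℝ),
        s ∈ φ.source ∧ EqOn φ (f.π ∘ fun s => e s - c.θ 0 a) φ.source := by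
  classical
  have hr : 0 < c.ε * c.ρ := mul_pos c.hε c.hρ
  have hK := isCompact_range he.continuous
  have a1 := count_le (cube (Fin m)) H _ hK (c.MH 0) (2 ^ c.d) (fun B hB hm =>
    (main_hit hH hB hm 0).trans ((Finset.sum_le_sum_of_subset (Finset.filter_subset _ _)).trans
      (overlap (hB.trans heK) hm))) N
  have a2 : ∀ᵐ a ∂cube (Fin m), ∀ (T : Dir m (k + 1)) (n : Fin (k + 1) → ℤ),
      (fun j => a (T.emb j)) ∉
        range fun s j => (c.ε * c.ρ)⁻¹ * (e s (T.emb j) - (c.τ (0, T.emb j) + n j)) :=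
    ae_all_iff.2 fun T => ae_all_iff.2 fun n => measure_eq_zero_iff_ae_notMem.1
      (nonpos_iff_eq_zero.1 ((cube_proj_le T.emb _).trans
        (range_null k S (by simp) _ (contMDiff_coord he _ _ _)).le))
  have a3 : ∀ᵐ a ∂cube (Fin m), ∀ f : Face m k, ∀ x,
      (fun j => (c.ε * c.ρ)⁻¹ * (e x (f.1.emb j) - (c.τ (0, f.1.emb j) + f.2 (f.1.emb j)))) =
        (fun j => a (f.1.emb j)) → ∃ φ : OpenPartialHomeomorph S (Fin k → ℝ), x ∈ φ.source ∧
          EqOn φ (fun s j => (c.ε * c.ρ)⁻¹ *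
            (e s (f.1.emb j) - (c.τ (0, f.1.emb j) + f.2 (f.1.emb j)))) φ.source :=
    ae_all_iff.2 fun f => nonpos_iff_eq_zero.1 ((cube_proj_le f.1.emb _).trans
      (ae_iff.1 (sard_local k S _ (contMDiff_coord he _ _ _))).le)
  obtain ⟨a, ⟨b0, b2, b3⟩, b1⟩ : ∃ a, ((∀ t, a t ∈ Icc (0 : ℝ) 1) ∧ _ ∧ _) ∧
      ¬ ∃ s : Finset (Fin m → ℝ), s.card = N ∧ ∀ x ∈ s, x ∈ range e ∧ c.MH 0 a x := by
    by_contra! h
    have := measure_mono_ae (μ := cube (Fin m)) (s := univ)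
      (((cube_ae _).and (a2.and a3)).mono fun a ha _ => h a ha)
    rw [measure_univ] at this
    exact absurd (a1.trans_lt h1) (not_lt.2 (le_mul_of_one_le_right' this))
  refine ⟨a, b0, fun s => ?_, ?_, fun s f hf => ?_⟩
  · by_contra h
    obtain ⟨T, hT, hT'⟩ := Finset.exists_subset_card_eq (Nat.succ_le_of_lt (not_le.1 h))
    choose n hn using fun j => mem_intc.1 (hT (Dir.emb_mem ⟨T, hT'⟩ j))
    refine b2 ⟨T, hT'⟩ n ⟨s, funext fun j => ?_⟩
    have := hn j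
    simp only [Pi.sub_apply, θ] at this
    rw [inv_mul_eq_iff_eq_mul₀ hr.ne']
    linarith
  · have hfin : {x | x ∈ range e ∧ c.MH 0 a x}.Finite := by
      by_contra h
      obtain ⟨t, ht, ht'⟩ := Set.Infinite.exists_subset_card_eq h N
      exact b1 ⟨t, ht', fun x hx => ht hx⟩
    have hc : hfin.toFinset.card ≤ N := by
      by_contra! h
      obtain ⟨t, ht, ht'⟩ := Finset.exists_subset_card_eq h.le
      exact b1 ⟨t, ht', fun x hx => hfin.mem_toFinset.1 (ht hx)⟩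
    refine ⟨hfin.toFinset.preimage e hi.injOn, (Finset.card_le_card_of_injOn e
      (fun s hs => by simpa using hs) hi.injOn).trans hc, fun s hs => ?_⟩
    obtain ⟨T, hT, hT'⟩ := Finset.exists_subset_card_eq (not_lt.1 hs)
    obtain ⟨γ, g1, -, g3⟩ := exists_hit (heK ⟨s, rfl⟩) b0 ⟨T, hT'⟩ hT
    rw [Finset.mem_preimage, hfin.mem_toFinset]
    refine ⟨⟨s, rfl⟩, b0, γ, g1, fun B hB => absurd g1 (B.2.2.2 γ ?_), g3⟩
    rcases hB with rfl | rfl
    exacts [B.g1_mem, B.g2_mem]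
  · obtain ⟨φ, p1, p2⟩ := b3 f s (funext fun j => by
      have := congrFun hf j
      simp only [Face.π, Pi.sub_apply, θ, Pi.zero_apply] at this
      rw [inv_mul_eq_iff_eq_mul₀ hr.ne']
      linarith)
    refine ⟨φ.transHomeomorph ((Homeomorph.subRight fun j => a (f.1.emb j)).trans
      (Homeomorph.smulOfNeZero _ hr.ne')), p1, fun x hx => ?_⟩
    funext j
    have : φ x = _ := p2 hx
    have h1 := c.hε.ne'
    have h2 := c.hρ.ne'
    simp [this, Face.π, θ]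
    field_simp
    ring

lemma lipH_of_metric {M : Type*} [EMetricSpace M] [MeasurableSpace M] [BorelSpace M]
    {e : M → (Fin m → ℝ)} (he : Continuous e)
    (hF : ∀ i x y, edist (F (c := c) Λ i (e x)) (F Λ i (e y)) ≤ edist x y) (A : Set M) :
    c.LipH Λ (e '' A) ((μH[k].restrict A).map e) := by
  intro f L Q hL hQ hm h
  rw [Measure.map_apply he.measurable hm, Measure.restrict_apply (he.measurable hm)]
  have h1 : LipschitzOnWith L.toNNReal (f ∘ e) (e ⁻¹' Q ∩ A) := fun x hx y hy => by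
    rcases eq_or_ne (edist x y) ⊤ with h0 | h0
    · rw [h0, ENNReal.mul_top (by simpa using hL)]
      exact le_top
    have := h _ hx.1 _ hy.1 (edist x y).toReal fun i => by
      rw [dist_edist]
      exact ENNReal.toReal_mono h0 (hF i x y)
    refine (edist_dist _ _).trans_le ((ENNReal.ofReal_le_ofReal this).trans_eq ?_)
    rw [ENNReal.ofReal_mul hL.le, ENNReal.ofReal_toReal h0]
    rfl
  have h2 := h1.hausdorffMeasure_image_le (d := k) (by positivity)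
  have h3 := hausdorffMeasure_pi_real (ι := Fin k)
  rw [Fintype.card_fin] at h3
  rw [h3, ENNReal.rpow_natCast] at h2
  refine (measure_mono ?_).trans h2
  rintro _ ⟨x, hx, rfl⟩
  obtain ⟨p, hp, rfl⟩ := hQ hx
  exact ⟨p, ⟨hx, hp⟩, rfl⟩

end Cfg

lemma exists_Lam {A : ℝ≥0∞} (hA : A ≠ ⊤) (b : ℝ) {k : ℕ} (hk : k ≠ 0) :
    ∃ Λ : ℝ, 0 < Λ ∧ A * ENNReal.ofReal (b / Λ) ^ k ≤ 1 / 2 := by
  have h1 : Tendsto (fun Λ : ℝ => ENNReal.ofReal (b / Λ) ^ k) atTop (𝓝 (ENNReal.ofReal 0 ^ k)) :=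
    ENNReal.Tendsto.pow (ENNReal.tendsto_ofReal (tendsto_const_nhds.div_atTop tendsto_id))
  have h2 := ENNReal.Tendsto.const_mul (a := A) h1 (Or.inr hA)
  rw [ENNReal.ofReal_zero, zero_pow hk, mul_zero] at h2
  exact ((eventually_gt_atTop 0).and (h2.eventually (ge_mem_nhds (by simp)))).exists

lemma exists_N (C a b : ℝ≥0) (ha : 0 < a) (hb : 0 < b) {p k d : ℕ} (h : p * k < d) :
    ∃ N : ℕ, (C * (N + 1) ^ p + 1) ^ k < a * (b * N) ^ d := by
  obtain ⟨d, rfl⟩ : ∃ d', d = d' + 1 := ⟨d - 1, by omega⟩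
  obtain ⟨N, hN⟩ := exists_nat_gt ((C + 1) ^ k * 2 ^ d / (a * b ^ (d + 1)))
  rw [div_lt_iff₀ (by positivity)] at hN
  have h0 : (1 : ℝ≥0) ≤ N := by
    rcases Nat.eq_zero_or_pos N with rfl | h0
    · simp at hN
    · exact_mod_cast h0
  have h1 : (1 : ℝ≥0) ≤ N + 1 := le_add_self
  refine ⟨N, ?_⟩
  calc _ ≤ ((C + 1) * (N + 1) ^ p) ^ k := by
        rw [add_mul, one_mul]; gcongr; exact one_le_pow₀ h1
    _ ≤ (C + 1) ^ k * (2 * N) ^ d := by
        rw [mul_pow, ← pow_mul]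
        refine mul_le_mul_right ((pow_le_pow_right₀ h1 (Nat.le_of_lt_succ h)).trans ?_) _
        rw [two_mul]; gcongr
    _ = (C + 1) ^ k * 2 ^ d * N ^ d := by ring
    _ < N * (a * b ^ (d + 1)) * N ^ d := by gcongr
    _ = _ := by ring

theorem systolic_freedom (d j : ℕ) (hd : j + 2 < d) (M : Type*) [TopologicalSpace M]
    [ChartedSpace (EuclideanSpace ℝ (Fin d)) M] [IsManifold (𝓡 d) ∞ M] [T2Space M]
    [CompactSpace M] [Nonempty M] (a : ℝ≥0) (ha : 0 < a) :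
    ∃ g : RMetric d M, vol g d univ ^ (j + 2) < a * sys g (j + 1) ^ d := by
  obtain ⟨m, e, r, he, hinj, hr, hre⟩ := exists_retract d M
  have hei : Function.Injective e := Function.LeftInverse.injective hre
  have hK := isCompact_range he.continuous
  obtain ⟨lam, C1, hlam, hmet⟩ := metric_package d m (by omega) M e he hinj
  obtain ⟨C2, htau⟩ := exists_tau d ((d - 1) / (j + 2)) m _ hK (fun ι _ hι t c => by
    rw [← range_comp]
    exact range_null d M hι _ ((show ContDiff ℝ ∞ fun (x : Fin m → ℝ) i => x (t i) + c i by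
      fun_prop).contMDiff.comp he)) lam
  obtain ⟨μ, ⟨W⟩, hμ⟩ := exists_mu j
  obtain ⟨cw, hcw, hbd⟩ := W.bounded (m := m)
  obtain ⟨C3, hC3, hPhi⟩ := exists_Phi_bound (j + 2)
  obtain ⟨ck, hck⟩ : ∃ ck, ck = Measure.addHaarScalarFactor
    (volume : Measure (EuclideanSpace ℝ (Fin (j + 2)))) μH[(j + 2 : ℕ)] := ⟨_, rfl⟩
  have hck0 : 0 < ck := pos_iff_ne_zero.2
    (hck ▸ Measure.addHaarScalarFactor_volume_hausdorffMeasure_ne_zero _)
  obtain ⟨N, hN⟩ := exists_N (C1 * C2 * (3 * (2 ^ d * (j + 2 : ℕ) * C3) + 1).toNNReal ^ d) a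
    (ck / 2 / 2 ^ d) ha (by positivity) (p := (d - 1) / (j + 2)) (k := j + 2) (d := d)
    ((Nat.div_mul_le_self _ _).trans_lt (by omega))
  obtain ⟨P, hP, hdet⟩ := W.detect rfl hK.isBounded (cw * N)
  obtain ⟨D, hD⟩ := hμ P hP
  obtain ⟨es, hes, hes1, hes2⟩ := hD.exists_es (c := 1 / (7 * (j + 2 : ℕ))) (by positivity)
  obtain ⟨ε0, hε0, hε1⟩ := hD.small (es / 2) (by positivity)
  obtain ⟨ρ0, hρ0, hρ1⟩ := htau N
  have hd0 : (1 : ℝ) ≤ d := by exact_mod_cast (by omega : 1 ≤ d)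
  obtain ⟨ε, hε, e1, e2, e3⟩ : ∃ ε : ℝ, 0 < ε ∧ ε ≤ ε0 ∧ ε ≤ es / 2 ∧ ε ≤ 1 / (7 * d) :=
    ⟨min ε0 (min (es / 2) (1 / (7 * d))), by positivity, min_le_left _ _,
      (min_le_right _ _).trans (min_le_left _ _), (min_le_right _ _).trans (min_le_right _ _)⟩
  obtain ⟨ρ, hρ, r1, r2⟩ : ∃ ρ : ℝ, 0 < ρ ∧ ρ ≤ ρ0 / 3 ∧ ρ ≤ 1 / 10 :=
    ⟨min (ρ0 / 3) (1 / 10), by positivity, min_le_left _ _, min_le_right _ _⟩
  rw [le_div_iff₀ (by positivity)] at e3
  have e4 : 3 * ε * ρ ≤ 1 := by nlinarith [mul_le_mul_of_nonneg_left hd0 hε.le]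
  obtain ⟨τ, t1, t2, t3⟩ := hρ1 (3 * ε * ρ) (by positivity) e4
  obtain ⟨R, hR⟩ := hK.isBounded.exists_norm_le
  obtain ⟨n0, hn0⟩ := exists_nat_ge (R + 6)
  let c : Cfg m (j + 2) N :=
    { d := d, n0 := n0, P := P, K := range e, τ := τ, ρ := ρ, ε := ε, es := es,
      c0 := 1 / (7 * (j + 2 : ℕ)), μ := μ P, D := D, hk := by omega, hkd := hd, hρ := hρ,
      hρ' := r2, hε := hε, hεs := by linarith, hes := hes1,
      hc0 := by
        have : (1 : ℝ) ≤ (j + 2 : ℕ) := by exact_mod_cast (by omega : 1 ≤ j + 2)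
        field_simp
        linarith
      hεd := by nlinarith [mul_le_mul_of_nonneg_left hd0 hε.le, mul_pos hε (one_pos.trans_le hd0)]
      hμ := hD, hy := hes2, hsm := fun v hv => hε1 v (hv.trans e1), hτ := t1,
      good := fun x hx => (Finset.card_le_card (Cfg.near_mono (by linarith))).trans (t2 x hx),
      bnd := fun x hx t => by linarith [(norm_le_pi_norm x t).trans (hR x hx), Real.norm_eq_abs (x t)] }
  obtain ⟨L0, hL0⟩ := (hD.smooth.of_le (m := 1) (by simp)).locallyLipschitz.locallyLipschitzOn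
    |>.exists_lipschitzOnWith_of_compact (isCompact_closedBall 0 2)
  obtain ⟨Λ, hΛ, hΛ'⟩ := exists_Lam (A := Fintype.card c.Box * (2 * P + 4) * N) (by finiteness)
    (2 * (max 1 L0 : ℝ≥0) / ε) (k := j + 2) (by omega)
  obtain ⟨g, hg1, hg2⟩ := hmet c.Idx (Cfg.F Λ) (Cfg.contDiff_F Λ) _ (isOpen_Unres _ _ _ _)
    (2 ^ d * (j + 2 : ℕ) * C3 / (ε * ρ)).toNNReal
    (fun p hp v => by
      rw [Real.coe_toNNReal _ (by positivity)]
      exact Cfg.norm_bound (c := c) hC3 hPhi ⟨p, rfl⟩ hp v)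
    fun p hp => Cfg.degenerate (c := c) ⟨p, rfl⟩ hp
  refine ⟨g, ?_⟩
  have hV : vol g d univ ≤ (C1 * C2 * (3 * (2 ^ d * (j + 2 : ℕ) * C3) + 1).toNNReal ^ d *
      (N + 1) ^ ((d - 1) / (j + 2)) + 1 : ℝ≥0) := by
    refine hg2.trans ?_
    have : (((2 ^ d * (j + 2 : ℕ) * C3 / (ε * ρ)).toNNReal : ℝ≥0∞) + 1) *
        ENNReal.ofReal (3 * ε * ρ) ≤ (3 * (2 ^ d * (j + 2 : ℕ) * C3) + 1).toNNReal := by
      rw [← ENNReal.ofReal_one, ← ENNReal.ofReal, ← ENNReal.ofReal,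
        ← ENNReal.ofReal_add (by positivity) zero_le_one, ← ENNReal.ofReal_mul (by positivity)]
      refine ENNReal.ofReal_le_ofReal ?_
      rw [add_mul, one_mul]
      refine add_le_add (le_of_eq ?_) e4
      field_simp
    push_cast at this ⊢
    generalize (((2 ^ d * (j + 2 : ℝ) * C3 / (ε * ρ)).toNNReal : ℝ≥0∞) + 1) = q at this ⊢
    calc _ ≤ C1 * (q ^ d * (C2 * ((N : ℝ≥0∞) + 1) ^ ((d - 1) / (j + 2)) *
          ENNReal.ofReal (3 * ε * ρ) ^ d)) + 1 := by gcongr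
      _ = C1 * C2 * (q * ENNReal.ofReal (3 * ε * ρ)) ^ d *
          ((N : ℝ≥0∞) + 1) ^ ((d - 1) / (j + 2)) + 1 := by rw [mul_pow]; ring
      _ ≤ _ := by gcongr
  have hS : ((ck / 2 / 2 ^ d * N : ℝ≥0) : ℝ≥0∞) ≤ sys g (j + 1) := by
    refine le_iInf fun Z => ?_
    obtain ⟨S, ι, hι, z, hz, hess⟩ := Z
    let _ : EMetricSpace M := rdist g
    let _ : MeasurableSpace M := borel M
    have _ : BorelSpace M := ⟨rfl⟩
    change _ ≤ Measure.euclideanHausdorffMeasure (j + 2) (range ι)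
    rw [Measure.euclideanHausdorffMeasure_def, ← hck, Measure.smul_apply, ENNReal.smul_def,
      smul_eq_mul]
    by_contra! hlt
    have hH := Cfg.lipH_of_metric (c := c) (Λ := Λ) he.continuous hg1 (range ι)
    rw [← range_comp] at hH
    have hm := he.comp hι.contMDiff
    have hK' := isCompact_range hm.continuous
    have h1 : 2 ^ d * ((μH[(j + 2 : ℕ)].restrict (range ι)).map e) (range (e ∘ ι)) < N / 2 := by
      rw [Measure.map_apply he.continuous.measurable hK'.measurableSet,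
        Measure.restrict_apply (he.continuous.measurable hK'.measurableSet)]
      refine lt_of_le_of_lt (b := 2 ^ d * μH[(j + 2 : ℕ)] (range ι)) (by
        gcongr; exact inter_subset_right) ?_
      have e : ((ck / 2 / 2 ^ d * N : ℝ≥0) : ℝ≥0∞) = ck * (N / 2 / 2 ^ d) := by
        have : (ck / 2 / 2 ^ d * N : ℝ≥0) = ck * (N / 2 / 2 ^ d) := by ring
        rw [this, ENNReal.coe_mul, ENNReal.coe_div (by positivity), ENNReal.coe_div (by positivity)]
        simp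
      rw [e, ENNReal.mul_lt_mul_iff_right (by simpa using hck0.ne') (by simp),
        ENNReal.lt_div_iff_mul_lt (Or.inl (by simp)) (Or.inl (by simp)), mul_comm] at hlt
      exact hlt
    generalize (μH[(j + 2 : ℕ)].restrict (range ι)).map e = H at hH h1
    have hsub : range (e ∘ ι) ⊆ c.K := range_comp_subset_range _ _
    have h2 : 2 ^ d * H (range (e ∘ ι)) < N := h1.trans_le ENNReal.half_le_self
    obtain ⟨a0, b0, b1, ⟨u, b2, b3⟩, b4⟩ := Cfg.exists_regular hm (hei.comp hι.isEmbedding.injective)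
      hsub hH h2
    obtain ⟨i, a1, b, b5, b6⟩ := Cfg.exists_noHit hH hK' hΛ (le_max_left 1 L0)
      (hL0.weaken (le_max_right _ _)) hsub h1 (le_trans (by
        have : H (range (e ∘ ι)) ≤ N :=
          (le_mul_of_one_le_left' (one_le_pow₀ one_le_two)).trans h2.le
        rw [div_div, mul_assoc, mul_assoc, mul_comm (N : ℝ≥0∞)]
        gcongr) hΛ')
    have hc : ∀ v, Continuous fun s => (e ∘ ι) s - v := fun v => hm.continuous.sub continuous_const
    have h3 : ∀ i a, (∀ t, a t ∈ Icc (0 : ℝ) 1) → push (e ∘ ι) (j + 2) z -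
        push (fun s => (e ∘ ι) s - c.θ i a) (j + 2) z ∈ Bd (j + 2) (Metric.thickening 10 c.K) :=
      fun i a ha => push_sub_push (hc _).continuousOn hm.continuous.continuousOn (fun s _ =>
        (Cfg.segment_thick (hsub ⟨s, rfl⟩) ha).trans (Metric.thickening_mono (by norm_num) _))
        (mem_Ch_univ z) hz.1
    have h4 := hdet _ (push_Cy (hc _).continuousOn (fun s _ => mem_inter (Cfg.segment_thick
      (hsub ⟨s, rfl⟩) b0 (left_mem_segment _ _ _)) (b1 s)) ⟨mem_Ch_univ z, hz.1⟩) _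
      (push_Cy (hc _).continuousOn (fun s _ => mem_inter (Cfg.segment_thick (hsub ⟨s, rfl⟩)
        b5 (left_mem_segment _ _ _)) (b6.mem_Wle (hsub ⟨s, rfl⟩) ⟨s, rfl⟩ b5))
        ⟨mem_Ch_univ z, hz.1⟩)
      (by simpa using Submodule.sub_mem _ (h3 i a1 b5) (h3 0 a0 b0))
      (fun f => (hbd S z hz _ (hc _) b1 u b3 b4 f.1).trans (by gcongr))
      fun f => b6.dvd W rfl hP hK.isBounded hz.1 hm.continuous (fun s => hsub ⟨s, rfl⟩) b5 f
    obtain ⟨w, -, hw⟩ := push_Bd hr (mapsTo_univ _ _)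
      (show push (e ∘ ι) (j + 2) z ∈ _ by simpa using Submodule.add_mem _ (h3 0 a0 b0) h4)
    refine hess ⟨w, hw.trans ?_⟩
    rw [push_push hm.continuous.continuousOn hr (fun s _ => Metric.self_subset_thickening
      (by norm_num) _ (hsub ⟨s, rfl⟩)) (mem_Ch_univ z), ← push_eq_cmap]
    congr 2
    exact funext fun s => hre _
  calc _ ≤ _ := pow_le_pow_left' hV _
    _ < ((a * (ck / 2 / 2 ^ d * N) ^ d : ℝ≥0) : ℝ≥0∞) := by exact_mod_cast hN
    _ ≤ _ := by rw [ENNReal.coe_mul, ENNReal.coe_pow]; gcongr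

end Pool.Agent.Lib.MP_d476f3_gt
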