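import Pool.Agent.Lib.MP_d476f3_gt.Small

set_option autoImplicit false

open Set Finsupp Filter Topology

noncomputable section

namespace Pool.Agent.Lib.MP_d476f3_gt

variable {X Y Z : Type*} [TopologicalSpace X] [TopologicalSpace Y] [TopologicalSpace Z]

/-- affine simplices in a prism -/
def aff2 (p n : ℕ) (u : Fin (n + 1) → Δ p × Δ 1) : C(Δ n, Δ p × Δ 1) :=
  (aff p n (Prod.fst ∘ u)).prodMk (aff 1 n (Prod.snd ∘ u))

/-- the two ends of a prism -/
def lev (X : Type*) [TopologicalSpace X] (b : Fin 2) : C(X, X × Δ 1) :=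
  (ContinuousMap.id X).prodMk (ContinuousMap.const X (vert 1 b))

lemma aff2_face (p n : ℕ) (v : Fin (n + 2) → Δ p × Δ 1) (i : Fin (n + 2)) :
    (aff2 p (n + 1) v).comp (face i) = aff2 p n (v ∘ i.succAbove) := by
  refine ContinuousMap.ext fun x => Prod.ext ?_ ?_
  · exact DFunLike.congr_fun (aff_face p n (Prod.fst ∘ v) i) x
  · exact DFunLike.congr_fun (aff_face 1 n (Prod.snd ∘ v) i) x

lemma aff2_lev (p : ℕ) (b : Fin 2) (n : ℕ) (v : Fin (n + 1) → Δ p) :
    aff2 p n (lev (Δ p) b ∘ v) = (lev (Δ p) b).comp (aff p n v) := by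
  refine ContinuousMap.ext fun x => Prod.ext rfl (Subtype.ext ?_)
  change ∑ i, x.1 i • (vert 1 b).1 = (vert 1 b).1
  rw [← Finset.sum_smul, x.2.2, one_smul]

lemma aff2_comp (p q : ℕ) (u : Fin (q + 1) → Δ p) (n : ℕ) (v : Fin (n + 1) → Δ q × Δ 1) :
    aff2 p n (((aff p q u).prodMap (ContinuousMap.id (Δ 1))) ∘ v) =
      ((aff p q u).prodMap (ContinuousMap.id (Δ 1))).comp (aff2 q n v) := by
  refine ContinuousMap.ext fun x => Prod.ext ?_ rfl
  exact DFunLike.congr_fun (aff_comp p q n u (Prod.fst ∘ v)) x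

/-- the formal prism operator -/
def lP (p : ℕ) : ∀ n, LC n (Δ p) →ₗ[ℤ] LC (n + 1) (Δ p × Δ 1) :=
  lH (fun n => lmap (lev (Δ p) 1) n - lmap (lev (Δ p) 0) n) (fun _ v => lev (Δ p) 0 (v 0))

/-- the prism operator -/
def Pm (H : C(X × Δ 1, Y)) (n : ℕ) : Chain n X →ₗ[ℤ] Chain (n + 1) Y :=
  linearCombination ℤ fun σ => R (aff2 n) (H.comp (σ.prodMap (ContinuousMap.id (Δ 1)))) (n + 1)
    (lP n (n + 1) (single (vert n) 1))

lemma Pm_R (H : C(X × Δ 1, Y)) (p n : ℕ) (σ : C(Δ p, X)) (c : LC (n + 1) (Δ p)) :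
    Pm H n (R (aff p) σ n c) =
      R (aff2 p) (H.comp (σ.prodMap (ContinuousMap.id (Δ 1)))) (n + 1) (lP p (n + 1) c) := by
  refine lin_ext (f := Pm H n ∘ₗ R (aff p) σ n)
    (g := R (aff2 p) (H.comp (σ.prodMap (ContinuousMap.id (Δ 1)))) (n + 1) ∘ₗ lP p (n + 1))
    (fun v => ?_) c
  simp only [LinearMap.comp_apply, R_single, Pm, linearCombination_single, one_smul, lP]
  have h1 := lH_lmap (fun m => lmap (lev (Δ n) 1) m - lmap (lev (Δ n) 0) m)
    (fun _ v => lev (Δ n) 0 (v 0)) (fun m => lmap (lev (Δ p) 1) m - lmap (lev (Δ p) 0) m)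
    (fun _ v => lev (Δ p) 0 (v 0)) (aff p n v) ((aff p n v).prodMap (ContinuousMap.id (Δ 1)))
    (fun _ _ => rfl) (fun m c => by
      simp only [LinearMap.sub_apply, map_sub, lmap_lmap]
      rfl) (n + 1) (single (vert n) 1)
  rw [lmap_single, aff_apply_vert] at h1
  rw [h1, R_lmap _ (aff2_comp p n v)]
  rfl

lemma bd_Pm (H : C(X × Δ 1, Y)) (n : ℕ) (c : Chain (n + 1) X) :
    bd (n + 1) Y (Pm H (n + 1) c) = cmap (H.comp (lev X 1)) (n + 1) c -
      cmap (H.comp (lev X 0)) (n + 1) c - Pm H n (bd n X c) := by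
  refine lin_ext (f := bd (n + 1) Y ∘ₗ Pm H (n + 1))
    (g := cmap (H.comp (lev X 1)) (n + 1) - cmap (H.comp (lev X 0)) (n + 1) - Pm H n ∘ₗ bd n X)
    (fun σ => ?_) c
  simp only [LinearMap.comp_apply, LinearMap.sub_apply, cmap_single]
  rw [← R_vert _ σ, Pm_R, bd_R (aff2_face _), bd_R (aff_face _), Pm_R, lP, lbd_lH]
  · rw [map_sub, LinearMap.sub_apply, map_sub, R_lmap _ (aff2_lev _ 1), R_lmap _ (aff2_lev _ 0),
      R_vert, R_vert]
    rfl
  · refine lin_ext (g := 0) fun v => ?_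
    simp [Subsingleton.elim (lev _ 1 ∘ v) (lev _ 0 ∘ v)]
  · intro m c
    simp [lbd_lmap]

lemma Pm_mem (H : C(X × Δ 1, Y)) {n : ℕ} {A : Set X} {B : Set Y}
    (h : ∀ x ∈ A, ∀ t, H (x, t) ∈ B) {w : Chain n X} (hw : w ∈ Ch n A) :
    Pm H n w ∈ Ch (n + 1) B := by
  refine Ch_mem (Pm H n) _ (fun σ hσ => ?_) hw
  rw [← R_vert, Pm_R]
  refine Ch_mono ?_ (R_mem _ _ _)
  rintro _ ⟨x, rfl⟩
  exact h _ (hσ ⟨x.1, rfl⟩) _

open Classical in
/-- the image of a chain under a map that is continuous near its support -/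
def push (g : X → Y) (n : ℕ) : Chain n X →ₗ[ℤ] Chain n Y :=
  linearCombination ℤ fun σ => if h : Continuous (g ∘ σ) then single ⟨g ∘ σ, h⟩ 1 else 0

lemma cont_of_range {g : X → Y} {A : Set X} (hg : ContinuousOn g A) {σ : C(Z, X)}
    (hσ : range σ ⊆ A) : Continuous (g ∘ σ) :=
  hg.comp_continuous σ.continuous fun x => hσ ⟨x, rfl⟩

lemma push_single {g : X → Y} {n : ℕ} {σ : C(Δ n, X)} (h : Continuous (g ∘ σ)) :
    push g n (single σ 1) = single ⟨g ∘ σ, h⟩ 1 := by
  simp [push, h]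

lemma push_eq_cmap (f : C(X, Y)) (n : ℕ) (w : Chain n X) : push f n w = cmap f n w := by
  refine lin_ext (fun σ => ?_) w
  rw [push_single (f.continuous.comp σ.continuous), cmap_single]
  rfl

lemma push_mem {g : X → Y} {A : Set X} {B : Set Y} (hg : ContinuousOn g A) (h : MapsTo g A B)
    {n : ℕ} {w : Chain n X} (hw : w ∈ Ch n A) : push g n w ∈ Ch n B := by
  refine Ch_mem _ _ (fun σ hσ => ?_) hw
  rw [push_single (cont_of_range hg hσ)]
  refine single_mem_Ch ?_ _
  rintro _ ⟨x, rfl⟩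
  exact h (hσ ⟨x, rfl⟩)

lemma bd_push {g : X → Y} {A : Set X} (hg : ContinuousOn g A) {n : ℕ} {w : Chain (n + 1) X}
    (hw : w ∈ Ch (n + 1) A) : bd n Y (push g (n + 1) w) = push g n (bd n X w) := by
  refine Ch_ext (bd n Y ∘ₗ push g (n + 1)) (push g n ∘ₗ bd n X) (fun σ hσ => ?_) hw
  simp only [LinearMap.comp_apply, push_single (cont_of_range hg hσ), bd_single, map_sum, map_smul]
  refine Finset.sum_congr rfl fun i _ => ?_
  rw [push_single (cont_of_range hg ((range_comp_sub _ _).trans hσ))]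
  rfl

lemma push_Bd {g : X → Y} {A : Set X} {B : Set Y} (hg : ContinuousOn g A) (h : MapsTo g A B)
    {n : ℕ} {w : Chain n X} (hw : w ∈ Bd n A) : push g n w ∈ Bd n B := by
  obtain ⟨c, hc, rfl⟩ := hw
  rw [← bd_push hg hc]
  exact bd_mem_Bd (push_mem hg h hc)

lemma push_congr {g g' : X → Y} {A : Set X} (h : EqOn g g' A) {n : ℕ} {w : Chain n X}
    (hw : w ∈ Ch n A) : push g n w = push g' n w := by
  refine Ch_ext _ _ (fun σ hσ => ?_) hw
  have : g ∘ σ = g' ∘ σ := funext fun x => h (hσ ⟨x, rfl⟩)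
  by_cases hc : Continuous (g ∘ σ)
  · rw [push_single hc, push_single (this ▸ hc)]
    simp only [this]
  · have hc' : ¬ Continuous (g' ∘ σ) := this ▸ hc
    simp [push, hc, hc']

lemma push_push {g : X → Y} {g' : Y → Z} {A : Set X} {B : Set Y} (hg : ContinuousOn g A)
    (hg' : ContinuousOn g' B) (h : MapsTo g A B) {n : ℕ} {w : Chain n X} (hw : w ∈ Ch n A) :
    push g' n (push g n w) = push (g' ∘ g) n w := by
  refine Ch_ext (push g' n ∘ₗ push g n) _ (fun σ hσ => ?_) hw
  rw [LinearMap.comp_apply, push_single (cont_of_range hg hσ),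
    push_single (cont_of_range (hg'.comp hg h) hσ), push_single]
  rfl

lemma push_push' {g : X → Y} {g' : Y → Z} (hg : Continuous g) (hg' : Continuous g') {n : ℕ}
    (w : Chain n X) : push g' n (push g n w) = push (g' ∘ g) n w :=
  push_push hg.continuousOn hg'.continuousOn (mapsTo_univ _ univ) (mem_Ch_univ w)

lemma push_id {n : ℕ} (w : Chain n X) : push id n w = w := by
  refine lin_ext (g := LinearMap.id) (fun σ => ?_) w
  rw [push_single (continuous_id.comp σ.continuous)]
  rfl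

lemma exists_lift {n : ℕ} {A : Set X} {w : Chain n X} (hw : w ∈ Ch n A) :
    ∃ w' : Chain n A, push Subtype.val n w' = w := by
  refine Ch_mem LinearMap.id (LinearMap.range (push (Subtype.val : A → X) n)) (fun σ hσ => ?_) hw
  refine ⟨single ⟨fun x => ⟨σ x, hσ ⟨x, rfl⟩⟩, σ.continuous.subtype_mk _⟩ 1, ?_⟩
  rw [push_single (by exact σ.continuous)]
  rfl

lemma push_val_injective (n : ℕ) (A : Set X) :
    Function.Injective (push (Subtype.val : A → X) n) := by
  intro a b h
  have := push_eq_cmap (⟨Subtype.val, continuous_subtype_val⟩ : C(A, X)) n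
  simp only [ContinuousMap.coe_mk] at this
  rw [this, this] at h
  refine mapDomain_injective (fun σ σ' hσ => ?_) h
  exact ContinuousMap.ext fun x => Subtype.ext (DFunLike.congr_fun hσ x)

variable {E : Type*} [NormedAddCommGroup E] [NormedSpace ℝ E]

/-- straight line homotopies -/
lemma push_sub_push {f g : X → E} {A : Set X} {B : Set E} (hf : ContinuousOn f A)
    (hg : ContinuousOn g A) (h : ∀ x ∈ A, segment ℝ (f x) (g x) ⊆ B) {n : ℕ}
    {v : Chain (n + 1) X} (hv : v ∈ Ch (n + 1) A) (hb : bd n X v = 0) :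
    push g (n + 1) v - push f (n + 1) v ∈ Bd (n + 1) B := by
  obtain ⟨w, rfl⟩ := exists_lift hv
  have hval : ContinuousOn (Subtype.val : A → X) univ := continuous_subtype_val.continuousOn
  rw [bd_push hval (mem_Ch_univ w)] at hb
  have hw : bd n A w = 0 := push_val_injective n A (by rw [hb, map_zero])
  have hf' := continuousOn_iff_continuous_domRestrict.1 hf
  have hg' := continuousOn_iff_continuous_domRestrict.1 hg
  let H : C(A × Δ 1, E) := ⟨fun x => x.2.1 0 • f x.1 + x.2.1 1 • g x.1,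
    (((continuous_apply 0).comp (continuous_subtype_val.comp continuous_snd)).smul
      (hf'.comp continuous_fst)).add
    (((continuous_apply 1).comp (continuous_subtype_val.comp continuous_snd)).smul
      (hg'.comp continuous_fst))⟩
  have h1 := bd_Pm H n w
  rw [hw, map_zero, sub_zero, ← push_eq_cmap, ← push_eq_cmap] at h1
  have h2 := bd_mem_Bd (Pm_mem H (A := univ) (B := B) (fun x _ t => h x x.2
    ⟨t.1 0, t.1 1, t.2.1 0, t.2.1 1, by simpa [Fin.sum_univ_two] using t.2.2, rfl⟩)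
    (mem_Ch_univ w))
  rw [push_push hval hf (fun x _ => x.2) (mem_Ch_univ w),
    push_push hval hg (fun x _ => x.2) (mem_Ch_univ w)]
  have e1 : (H.comp (lev A 1) : A → E) = g ∘ Subtype.val := by
    funext x; simp [H, lev, vert]
  have e0 : (H.comp (lev A 0) : A → E) = f ∘ Subtype.val := by
    funext x; simp [H, lev, vert]
  rwa [h1, e1, e0] at h2

lemma bd_const (n : ℕ) (p : X) : bd n X (single (ContinuousMap.const _ p) 1) =
    (if Even n then 0 else 1 : ℤ) • single (ContinuousMap.const _ p) 1 := by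
  rw [bd_single]
  simp only [ContinuousMap.const_comp]
  rw [← Finset.sum_smul, Fin.sum_neg_one_pow]
  simp [parity_simps]

lemma push_const_mem {n : ℕ} (p : Y) {v : Chain (n + 1) X} (hb : bd n X v = 0) :
    push (fun _ => p) (n + 1) v ∈ Bd (n + 1) {p} := by
  have h1 : push (fun _ => p) (n + 1) v ∈
      Submodule.span ℤ {single (ContinuousMap.const (Δ (n + 1)) p) (1 : ℤ)} := by
    refine Ch_mem _ _ (fun σ _ => ?_) (mem_Ch_univ v)
    rw [push_single continuous_const]
    exact Submodule.mem_span_singleton_self _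
  obtain ⟨a, ha⟩ := Submodule.mem_span_singleton.1 h1
  have h2 := bd_push (g := fun _ : X => p) continuousOn_const (mem_Ch_univ v)
  rw [hb, map_zero, ← ha, map_smul, bd_const] at h2
  rw [← ha]
  by_cases hn : Even n
  · refine Submodule.smul_mem _ _ ⟨single (ContinuousMap.const _ p) 1, single_mem_Ch ?_ _, ?_⟩
    · rintro _ ⟨x, rfl⟩; rfl
    · rw [bd_const]; simp [parity_simps, hn]
  · have : a = 0 := by simpa [hn] using h2
    simp [this]

lemma acyc_of_star {A : Set E} {p : E} (h : StarConvex ℝ p A) (n : ℕ) : Acyc n A := by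
  intro v hv hb
  rcases A.eq_empty_or_nonempty with rfl | hA
  · simp [Ch_empty hv]
  have h1 := push_sub_push (f := fun _ => p) (g := id) continuousOn_const continuousOn_id
    (fun x hx => h.segment_subset hx) hv hb
  have h2 := Bd_mono (singleton_subset_iff.2 (h.mem hA)) (push_const_mem p hb)
  simpa [push_id] using Submodule.add_mem _ h1 h2

lemma acyc_of_convex {A : Set E} (h : Convex ℝ A) (n : ℕ) : Acyc n A := by
  rcases A.eq_empty_or_nonempty with rfl | ⟨p, hp⟩
  · exact acyc_of_star (starConvex_empty 0) n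
  · exact acyc_of_star (h hp) n

/-- a finite union of open convex sets arranged in `s + 1` families of disjoint sets -/
lemma acyc_levels : ∀ (s : ℕ) (ι : Type) [Finite ι] (U : ι → Set E) (l : ι → ℕ),
    (∀ i, IsOpen (U i)) → (∀ i, Convex ℝ (U i)) → (∀ i, l i ≤ s) →
    (∀ i j, i ≠ j → l i = l j → Disjoint (U i) (U j)) → ∀ n, s ≤ n → Acyc n (⋃ i, U i) := by
  intro s
  induction s with
  | zero =>
    intro ι _ U l hU hc hl hd n _
    exact Acyc.iUnion hU (fun i j hij => hd i j hij (by have := hl i; have := hl j; omega))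
      fun i => acyc_of_convex (hc i) n
  | succ s ih =>
    intro ι _ U l hU hc hl hd n hn
    obtain ⟨n, rfl⟩ : ∃ m, n = m + 1 := ⟨n - 1, by omega⟩
    have e : (⋃ i, U i) = (⋃ i : {i // l i = s + 1}, U i) ∪ ⋃ i : {i // l i ≤ s}, U i := by
      ext x
      simp only [mem_iUnion, mem_union, Subtype.exists, exists_prop]
      constructor
      · rintro ⟨i, hi⟩
        rcases Nat.lt_or_ge s (l i) with h | h
        · exact Or.inl ⟨i, by have := hl i; omega, hi⟩
        · exact Or.inr ⟨i, h, hi⟩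
      · rintro (⟨i, -, hi⟩ | ⟨i, -, hi⟩) <;> exact ⟨i, hi⟩
    rw [e]
    refine Acyc.union (isOpen_iUnion fun i => hU i) (isOpen_iUnion fun i => hU i) ?_ ?_ ?_
    · exact Acyc.iUnion (U := fun i : {i // l i = s + 1} => U i) (fun i => hU i)
        (fun i j hij => hd i j (fun h => hij (Subtype.ext h)) (i.2.trans j.2.symm))
        fun i => acyc_of_convex (hc i) _
    · exact ih {i // l i ≤ s} (fun i => U i) (fun i => l i) (fun i => hU i) (fun i => hc i) (fun i => i.2)
        (fun i j hij => hd i j fun h => hij (Subtype.ext h)) (n + 1) (by omega)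
    · have e2 : (⋃ i : {i // l i = s + 1}, U i) ∩ ⋃ i : {i // l i ≤ s}, U i =
          ⋃ i : {i // l i = s + 1} × {i // l i ≤ s}, U i.1 ∩ U i.2 := by
        ext x
        simp only [mem_inter_iff, mem_iUnion, Prod.exists]
        exact ⟨fun ⟨⟨i, hi⟩, j, hj⟩ => ⟨i, j, hi, hj⟩, fun ⟨i, j, hi, hj⟩ => ⟨⟨i, hi⟩, j, hj⟩⟩
      rw [e2]
      refine ih _ _ (fun i => l i.2) (fun i => (hU _).inter (hU _)) (fun i => (hc _).inter (hc _))
        (fun i => i.2.2) (fun i j hij hl => ?_) n (by omega)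
      by_cases h : i.2 = j.2
      · refine Disjoint.mono inter_subset_left inter_subset_left (hd _ _ (fun h' => hij ?_)
          (i.1.2.trans j.1.2.symm))
        exact Prod.ext (Subtype.ext h') h
      · exact Disjoint.mono inter_subset_right inter_subset_right
          (hd _ _ (fun h' => h (Subtype.ext h')) hl)

end Pool.Agent.Lib.MP_d476f3_gt
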