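import Pool.Agent.Lib.MP_d476f3_gt.Lin

set_option autoImplicit false

open Set Finsupp

noncomputable section

namespace Pool.Agent.Lib.MP_d476f3_gt

variable {X Y Z : Type*} [TopologicalSpace X] [TopologicalSpace Y] [TopologicalSpace Z]

lemma bd_single (n : ℕ) (σ : C(Δ (n + 1), X)) :
    bd n X (single σ 1) =
      ∑ i : Fin (n + 2), (-1 : ℤ) ^ (i : ℕ) • single (σ.comp (face i)) (1 : ℤ) := by
  simp [bd]

@[simp] lemma cmap_single (f : C(X, Y)) (n : ℕ) (σ : C(Δ n, X)) (a : ℤ) :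
    cmap f n (single σ a) = single (f.comp σ) a := by
  simp [cmap]

lemma bd_cmap (f : C(X, Y)) (n : ℕ) (c : Chain (n + 1) X) :
    bd n Y (cmap f (n + 1) c) = cmap f n (bd n X c) := by
  refine lin_ext (f := bd n Y ∘ₗ cmap f (n + 1)) (g := cmap f n ∘ₗ bd n X) (fun v => ?_) c
  simp only [LinearMap.comp_apply, cmap_single, bd_single, map_sum, map_smul]
  rfl

lemma Ch_mem {M : Type*} [AddCommGroup M] {n : ℕ} {A : Set X} (f : Chain n X →ₗ[ℤ] M)
    (N : Submodule ℤ M) (h : ∀ σ : C(Δ n, X), range σ ⊆ A → f (single σ 1) ∈ N)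
    {w : Chain n X} (hw : w ∈ Ch n A) : f w ∈ N := by
  rw [Ch, supported_eq_span_single] at hw
  have : Submodule.span ℤ ((fun i => single i 1) '' {σ : C(Δ n, X) | range σ ⊆ A}) ≤
      N.comap f := by
    rw [Submodule.span_le]
    rintro _ ⟨σ, hσ, rfl⟩
    exact h σ hσ
  exact this hw

lemma Ch_ext {M : Type*} [AddCommGroup M] {n : ℕ} {A : Set X} (f g : Chain n X →ₗ[ℤ] M)
    (h : ∀ σ : C(Δ n, X), range σ ⊆ A → f (single σ 1) = g (single σ 1))
    {w : Chain n X} (hw : w ∈ Ch n A) : f w = g w := by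
  have := Ch_mem (f - g) ⊥ (fun σ hσ => by simp [h σ hσ]) hw
  simpa [sub_eq_zero] using this

lemma range_comp_sub (f : C(Y, Z)) (g : C(X, Y)) : range (f.comp g) ⊆ range f := by
  rintro _ ⟨x, rfl⟩
  exact ⟨g x, rfl⟩

lemma single_mem_Ch {n : ℕ} {A : Set X} {σ : C(Δ n, X)} (h : range σ ⊆ A) (a : ℤ) :
    single σ a ∈ Ch n A := single_mem_supported ℤ a h

lemma Ch_mono {n : ℕ} {A B : Set X} (h : A ⊆ B) : Ch n A ≤ Ch n B :=
  supported_mono fun _ hσ => Subset.trans hσ h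

lemma Ch_inter {n : ℕ} {A B : Set X} {w : Chain n X} (hA : w ∈ Ch n A) (hB : w ∈ Ch n B) :
    w ∈ Ch n (A ∩ B) := fun _ hσ => subset_inter (hA hσ) (hB hσ)

lemma mem_Ch_univ {n : ℕ} (w : Chain n X) : w ∈ Ch n (univ : Set X) := fun _ _ => subset_univ _

lemma Ch_empty {n : ℕ} {w : Chain n X} (hw : w ∈ Ch n (∅ : Set X)) : w = 0 :=
  Ch_ext LinearMap.id 0 (fun σ hσ => absurd (subset_empty_iff.1 hσ) (range_nonempty σ).ne_empty) hw

lemma bd_mem {n : ℕ} {A : Set X} {w : Chain (n + 1) X} (hw : w ∈ Ch (n + 1) A) :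
    bd n X w ∈ Ch n A := by
  refine Ch_mem (bd n X) _ (fun σ hσ => ?_) hw
  rw [bd_single]
  exact Submodule.sum_mem _ fun i _ => Submodule.smul_mem _ _
    (single_mem_Ch ((range_comp_sub _ _).trans hσ) _)

/-- boundaries of chains in `A` -/
def Bd (n : ℕ) (A : Set X) : Submodule ℤ (Chain n X) := (Ch (n + 1) A).map (bd n X)

lemma Bd_mono {n : ℕ} {A B : Set X} (h : A ⊆ B) : Bd n A ≤ Bd n B :=
  Submodule.map_mono (Ch_mono h)

lemma bd_mem_Bd {n : ℕ} {A : Set X} {w : Chain (n + 1) X} (hw : w ∈ Ch (n + 1) A) :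
    bd n X w ∈ Bd n A := ⟨w, hw, rfl⟩

/-- realisation of formal chains -/
def R {A : Type*} [TopologicalSpace A] (af : ∀ n, (Fin (n + 1) → A) → C(Δ n, A)) (σ : C(A, X))
    (n : ℕ) : LC (n + 1) A →ₗ[ℤ] Chain n X :=
  lmapDomain ℤ ℤ fun v => σ.comp (af n v)

section R

variable {A B : Type*} [TopologicalSpace A] [TopologicalSpace B]
  {af : ∀ n, (Fin (n + 1) → A) → C(Δ n, A)} {af' : ∀ n, (Fin (n + 1) → B) → C(Δ n, B)}

@[simp] lemma R_single (σ : C(A, X)) (n : ℕ) (v : Fin (n + 1) → A) (a : ℤ) :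
    R af σ n (single v a) = single (σ.comp (af n v)) a := by
  simp [R]

lemma bd_R (haf : ∀ n v (i : Fin (n + 2)), (af (n + 1) v).comp (face i) = af n (v ∘ i.succAbove))
    (σ : C(A, X)) (n : ℕ) (c : LC (n + 2) A) :
    bd n X (R af σ (n + 1) c) = R af σ n (lbd (n + 1) A c) := by
  refine lin_ext (f := bd n X ∘ₗ R af σ (n + 1)) (g := R af σ n ∘ₗ lbd (n + 1) A) (fun v => ?_) c
  simp only [LinearMap.comp_apply, R_single, bd_single, lbd_single, map_sum, map_smul,
    ContinuousMap.comp_assoc, haf]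

lemma R_lmap (f : C(A, B)) (h : ∀ n v, af' n (f ∘ v) = f.comp (af n v)) (σ : C(B, X)) (n : ℕ)
    (c : LC (n + 1) A) : R af' σ n (lmap f (n + 1) c) = R af (σ.comp f) n c := by
  refine lin_ext (f := R af' σ n ∘ₗ lmap f (n + 1)) (g := R af (σ.comp f) n) (fun v => ?_) c
  simp only [LinearMap.comp_apply, R_single, lmap_single, h, ContinuousMap.comp_assoc]

lemma R_mem (σ : C(A, X)) (n : ℕ) (c : LC (n + 1) A) : R af σ n c ∈ Ch n (range σ) := by
  induction c using Finsupp.induction_linear with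
  | zero => simp
  | add f g hf hg => rw [map_add]; exact Submodule.add_mem _ hf hg
  | single v a => rw [R_single]; exact single_mem_Ch (range_comp_sub _ _) _

end R

/-- affine simplices in a standard simplex -/
def aff (p n : ℕ) (v : Fin (n + 1) → Δ p) : C(Δ n, Δ p) where
  toFun x := ⟨∑ i, x.1 i • (v i).1,
    (convex_stdSimplex ℝ _).sum_mem (fun i _ => x.2.1 i) x.2.2 fun i _ => (v i).2⟩
  continuous_toFun := by
    refine Continuous.subtype_mk (continuous_finsetSum _ fun i _ => ?_) _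
    exact ((continuous_apply i).comp continuous_subtype_val).smul continuous_const

lemma aff_val (p n : ℕ) (v : Fin (n + 1) → Δ p) (x : Δ n) :
    (aff p n v x).1 = ∑ i, x.1 i • (v i).1 := rfl

/-- the vertices -/
def vert (p : ℕ) : Fin (p + 1) → Δ p := fun i => stdSimplex.vertex i

lemma aff_comp (p q n : ℕ) (u : Fin (q + 1) → Δ p) (v : Fin (n + 1) → Δ q) :
    aff p n (aff p q u ∘ v) = (aff p q u).comp (aff q n v) := by
  refine ContinuousMap.ext fun x => Subtype.ext ?_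
  simp only [ContinuousMap.comp_apply, aff_val, Function.comp_apply, Finset.smul_sum,
    Finset.sum_apply, Pi.smul_apply, smul_eq_mul, Finset.sum_smul, mul_smul]
  exact Finset.sum_comm

lemma aff_vert (p : ℕ) : aff p p (vert p) = ContinuousMap.id _ := by
  refine ContinuousMap.ext fun x => Subtype.ext ?_
  funext j
  rw [aff_val]
  simp [vert, Finset.sum_apply, Pi.single_apply]

lemma aff_apply_vert (p n : ℕ) (v : Fin (n + 1) → Δ p) : aff p n v ∘ vert n = v := by
  funext i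
  refine Subtype.ext ?_
  rw [Function.comp_apply, aff_val]
  simp [vert, Pi.single_apply]

lemma face_eq (n : ℕ) (i : Fin (n + 2)) :
    face i = aff (n + 1) n (vert (n + 1) ∘ i.succAbove) := by
  refine ContinuousMap.ext fun x => Subtype.ext ?_
  funext j
  change FunOnFinite.linearMap ℝ ℝ i.succAbove x.1 j = _
  rw [FunOnFinite.linearMap_apply_apply, Finset.sum_filter, aff_val]
  simp [vert, Finset.sum_apply, Pi.single_apply, eq_comm]

lemma aff_face (p n : ℕ) (v : Fin (n + 2) → Δ p) (i : Fin (n + 2)) :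
    (aff p (n + 1) v).comp (face i) = aff p n (v ∘ i.succAbove) := by
  rw [face_eq, ← aff_comp, ← Function.comp_assoc, aff_apply_vert]

lemma R_vert (n : ℕ) (σ : C(Δ n, X)) : R (aff n) σ n (single (vert n) 1) = single σ 1 := by
  rw [R_single, aff_vert, ContinuousMap.comp_id]

lemma bd_bd (n : ℕ) (c : Chain (n + 2) X) : bd n X (bd (n + 1) X c) = 0 := by
  refine lin_ext (f := bd n X ∘ₗ bd (n + 1) X) (g := 0) (fun σ => ?_) c
  rw [LinearMap.comp_apply, ← R_vert, bd_R (aff_face _), bd_R (aff_face _), lbd_lbd]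
  simp

/-- barycentre of an affine simplex -/
def bary (p n : ℕ) (v : Fin (n + 1) → Δ p) : Δ p := aff p n v stdSimplex.barycenter

lemma bary_comp (p q : ℕ) (u : Fin (q + 1) → Δ p) (n : ℕ) (v : Fin (n + 1) → Δ q) :
    bary p n (aff p q u ∘ v) = aff p q u (bary q n v) := by
  simp only [bary, aff_comp, ContinuousMap.comp_apply]

/-- barycentric subdivision -/
def Sd (n : ℕ) (X : Type*) [TopologicalSpace X] : Chain n X →ₗ[ℤ] Chain n X :=
  linearCombination ℤ fun σ => R (aff n) σ n (lsd (bary n) (n + 1) (single (vert n) 1))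

/-- the formal homotopy between the identity and the subdivision -/
def lT (p : ℕ) : ∀ n, LC n (Δ p) →ₗ[ℤ] LC (n + 1) (Δ p) :=
  lH (fun n => LinearMap.id - lsd (bary p) n) (bary p)

/-- the homotopy between the identity and the subdivision -/
def Tm (n : ℕ) (X : Type*) [TopologicalSpace X] : Chain n X →ₗ[ℤ] Chain (n + 1) X :=
  linearCombination ℤ fun σ => R (aff n) σ (n + 1) (lT n (n + 1) (single (vert n) 1))

lemma Sd_R (p n : ℕ) (σ : C(Δ p, X)) (c : LC (n + 1) (Δ p)) :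
    Sd n X (R (aff p) σ n c) = R (aff p) σ n (lsd (bary p) (n + 1) c) := by
  refine lin_ext (f := Sd n X ∘ₗ R (aff p) σ n) (g := R (aff p) σ n ∘ₗ lsd (bary p) (n + 1))
    (fun v => ?_) c
  simp only [LinearMap.comp_apply, R_single, Sd, linearCombination_single, one_smul]
  rw [← R_lmap (aff p n v) (aff_comp p n · v), ← lsd_lmap _ _ _ (bary_comp p n v), lmap_single,
    aff_apply_vert]

lemma Tm_R (p n : ℕ) (σ : C(Δ p, X)) (c : LC (n + 1) (Δ p)) :
    Tm n X (R (aff p) σ n c) = R (aff p) σ (n + 1) (lT p (n + 1) c) := by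
  refine lin_ext (f := Tm n X ∘ₗ R (aff p) σ n) (g := R (aff p) σ (n + 1) ∘ₗ lT p (n + 1))
    (fun v => ?_) c
  simp only [LinearMap.comp_apply, R_single, Tm, linearCombination_single, one_smul, lT]
  rw [← R_lmap (aff p n v) (aff_comp p n · v), ← lH_lmap _ _
    (fun n => LinearMap.id - lsd (bary p) n) (bary p) _ _ (bary_comp p n v), lmap_single,
    aff_apply_vert]
  intro m c
  simp only [LinearMap.sub_apply, LinearMap.id_apply, map_sub, lsd_lmap _ _ _ (bary_comp p n v)]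

lemma bd_Sd (n : ℕ) (c : Chain (n + 1) X) : bd n X (Sd (n + 1) X c) = Sd n X (bd n X c) := by
  refine lin_ext (f := bd n X ∘ₗ Sd (n + 1) X) (g := Sd n X ∘ₗ bd n X) (fun σ => ?_) c
  simp only [LinearMap.comp_apply]
  rw [← R_vert, Sd_R, bd_R (aff_face _), bd_R (aff_face _), Sd_R, lbd_lsd]

lemma bd_Tm (n : ℕ) (c : Chain (n + 1) X) :
    bd (n + 1) X (Tm (n + 1) X c) = c - Sd (n + 1) X c - Tm n X (bd n X c) := by
  refine lin_ext (f := bd (n + 1) X ∘ₗ Tm (n + 1) X)
    (g := LinearMap.id - Sd (n + 1) X - Tm n X ∘ₗ bd n X) (fun σ => ?_) c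
  simp only [LinearMap.comp_apply, LinearMap.sub_apply, LinearMap.id_apply]
  rw [← R_vert, Tm_R, bd_R (aff_face _), bd_R (aff_face _), Sd_R, Tm_R, lT, lbd_lH]
  · simp
  · simp [lsd]
  · intro m c
    simp [lbd_lsd]

lemma Sd_mem {n : ℕ} {A : Set X} {w : Chain n X} (hw : w ∈ Ch n A) : Sd n X w ∈ Ch n A := by
  refine Ch_mem (Sd n X) _ (fun σ hσ => ?_) hw
  rw [← R_vert, Sd_R]
  exact Ch_mono hσ (R_mem _ _ _)

lemma Tm_mem {n : ℕ} {A : Set X} {w : Chain n X} (hw : w ∈ Ch n A) :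
    Tm n X w ∈ Ch (n + 1) A := by
  refine Ch_mem (Tm n X) _ (fun σ hσ => ?_) hw
  rw [← R_vert, Tm_R]
  exact Ch_mono hσ (R_mem _ _ _)

end Pool.Agent.Lib.MP_d476f3_gt
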