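import Pool.Agent.Lib.MP_d476f3_gt.Sing

set_option autoImplicit false

open Set Finsupp Filter Topology

noncomputable section

namespace Pool.Agent.Lib.MP_d476f3_gt

variable {X Y Z : Type*} [TopologicalSpace X] [TopologicalSpace Y] [TopologicalSpace Z]

lemma supp_mem {α M : Type*} [AddCommGroup M] {S : Set α} (f : (α →₀ ℤ) →ₗ[ℤ] M)
    (N : Submodule ℤ M) (h : ∀ a ∈ S, f (single a 1) ∈ N) {w : α →₀ ℤ}
    (hw : w ∈ supported ℤ ℤ S) : f w ∈ N := by
  rw [supported_eq_span_single] at hw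
  have : Submodule.span ℤ ((fun i => single i 1) '' S) ≤ N.comap f := by
    rw [Submodule.span_le]
    rintro _ ⟨σ, hσ, rfl⟩
    exact h σ hσ
  exact this hw

lemma dist_bary (p n : ℕ) (v : Fin (n + 1) → Δ p) (D : ℝ) (hD : ∀ i j, dist (v i) (v j) ≤ D)
    (j : Fin (n + 1)) : dist (v j).1 (bary p n v).1 ≤ n / (n + 1) * D := by
  have hn : (0 : ℝ) < n + 1 := by positivity
  have : (v j).1 - (bary p n v).1 = ∑ i, ((n : ℝ) + 1)⁻¹ • ((v j).1 - (v i).1) := by
    simp only [bary, aff_val, stdSimplex.barycenter_apply, smul_sub, Finset.sum_sub_distrib,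
      Finset.sum_const, Finset.card_univ, Fintype.card_fin]
    rw [← Nat.cast_smul_eq_nsmul ℝ, smul_smul]
    push_cast
    rw [mul_inv_cancel₀ hn.ne', one_smul]
  rw [dist_eq_norm, this, Fin.sum_univ_succAbove _ j, sub_self, smul_zero, zero_add]
  refine (norm_sum_le _ _).trans ?_
  calc _ ≤ ∑ _i : Fin n, ((n : ℝ) + 1)⁻¹ * D := by
        refine Finset.sum_le_sum fun i _ => ?_
        rw [norm_smul, Real.norm_of_nonneg (by positivity), ← dist_eq_norm]
        exact mul_le_mul_of_nonneg_left (hD _ _) (by positivity)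
    _ = _ := by simp; field_simp

lemma lsd_supp (p n0 : ℕ) (D : ℝ) (h0 : 0 ≤ D) : ∀ n, n ≤ n0 + 1 → ∀ v : Fin n → Δ p,
    (∀ i j, dist (v i) (v j) ≤ D) → lsd (bary p) n (single v 1) ∈ supported ℤ ℤ
      {u : Fin n → Δ p | (∀ i, (u i).1 ∈ convexHull ℝ (range fun i => (v i).1)) ∧
        ∀ i j, dist (u i) (u j) ≤ n0 / (n0 + 1) * D} := by
  intro n
  induction n with
  | zero => intro _ v _; exact single_mem_supported ℤ _ ⟨fun i => i.elim0, fun i => i.elim0⟩
  | succ n ih =>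
    intro hn v hv
    have hb : ∀ y ∈ convexHull ℝ (range fun i => (v i).1),
        dist y (bary p n v).1 ≤ n0 / (n0 + 1) * D := by
      refine convexHull_min (t := Metric.closedBall _ _) ?_ (convex_closedBall _ _)
      rintro _ ⟨j, rfl⟩
      refine (dist_bary p n v D hv j).trans (mul_le_mul_of_nonneg_right ?_ h0)
      rw [div_le_div_iff₀ (by positivity) (by positivity)]
      have : (n : ℝ) ≤ n0 := by exact_mod_cast Nat.le_of_succ_le_succ hn
      nlinarith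
    have hb' : (bary p n v).1 ∈ convexHull ℝ (range fun i => (v i).1) :=
      (convex_convexHull ℝ _).sum_mem (fun i _ => stdSimplex.barycenter.2.1 i)
        stdSimplex.barycenter.2.2 fun i _ => subset_convexHull ℝ _ (mem_range_self i)
    rw [lsd_single, lbd_single, map_sum, map_sum]
    refine Submodule.sum_mem _ fun i _ => ?_
    rw [map_smul, map_smul]
    refine Submodule.smul_mem _ _ (supp_mem _ _ ?_ (ih (by omega) _ fun a b => hv _ _))
    rintro u ⟨hu, hu'⟩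
    have hu2 : ∀ j, (u j).1 ∈ convexHull ℝ (range fun i => (v i).1) := fun j =>
      convexHull_mono (by rintro _ ⟨a, rfl⟩; exact ⟨_, rfl⟩) (hu j)
    rw [lcone_single]
    refine single_mem_supported ℤ _ ⟨fun j => ?_, fun j l => ?_⟩
    · exact Fin.cases hb' hu2 j
    · refine Fin.cases ?_ (fun j => ?_) j <;> refine Fin.cases ?_ (fun l => ?_) l
      · simp only [dist_self]; positivity
      · rw [dist_comm]; exact hb _ (hu2 l)
      · exact hb _ (hu2 j)
      · exact hu' j l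

lemma lsd_pow_supp (n N : ℕ) : ((lsd (bary n) (n + 1) ^ N : Module.End ℤ _) (single (vert n) 1)) ∈
    supported ℤ ℤ {u : Fin (n + 1) → Δ n | ∀ i j, dist (u i) (u j) ≤ (n / (n + 1) : ℝ) ^ N} := by
  induction N with
  | zero =>
    refine single_mem_supported ℤ _ fun i j => ?_
    rw [pow_zero]
    exact (Metric.dist_le_diam_of_mem (bounded_stdSimplex _) (vert n i).2 (vert n j).2).trans
      diam_stdSimplex_le
  | succ N ih =>
    rw [pow_succ' (lsd (bary n) (n + 1) : Module.End ℤ _), Module.End.mul_apply]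
    refine supp_mem _ _ (fun u hu => ?_) ih
    refine supported_mono (fun u' hu' i j => ?_) (lsd_supp n n _ (by positivity) _ le_rfl u hu)
    rw [pow_succ']
    exact hu'.2 i j

lemma Sd_pow_R (p n N : ℕ) (σ : C(Δ p, X)) (c : LC (n + 1) (Δ p)) :
    (Sd n X ^ N : Module.End ℤ _) (R (aff p) σ n c) =
      R (aff p) σ n ((lsd (bary p) (n + 1) ^ N : Module.End ℤ _) c) := by
  induction N with
  | zero => rfl
  | succ N ih => rw [pow_succ', pow_succ', Module.End.mul_apply, Module.End.mul_apply, ih, Sd_R]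

lemma Sd_pow_mem {n : ℕ} {A : Set X} {w : Chain n X} (hw : w ∈ Ch n A) (N : ℕ) :
    (Sd n X ^ N : Module.End ℤ _) w ∈ Ch n A := by
  induction N with
  | zero => exact hw
  | succ N ih => rw [pow_succ', Module.End.mul_apply]; exact Sd_mem ih

lemma bd_Sd_pow (n N : ℕ) (c : Chain (n + 1) X) :
    bd n X ((Sd (n + 1) X ^ N : Module.End ℤ _) c) = (Sd n X ^ N : Module.End ℤ _) (bd n X c) := by
  induction N with
  | zero => rfl
  | succ N ih => rw [pow_succ', pow_succ', Module.End.mul_apply, Module.End.mul_apply, bd_Sd, ih]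

lemma sub_Sd_pow {n : ℕ} {A B : Set X} {w : Chain (n + 1) X} (hw : w ∈ Ch (n + 1) A)
    (hb : bd n X w ∈ Ch n B) (N : ℕ) :
    w - (Sd (n + 1) X ^ N : Module.End ℤ _) w ∈ Bd (n + 1) A ⊔ Ch (n + 1) B := by
  induction N with
  | zero => simp
  | succ N ih =>
    rw [pow_succ', Module.End.mul_apply]
    obtain ⟨u, hu⟩ : ∃ u, u = (Sd (n + 1) X ^ N : Module.End ℤ _) w := ⟨_, rfl⟩
    rw [← hu] at ih ⊢
    have : w - Sd (n + 1) X u = (w - u) + (bd (n + 1) X (Tm (n + 1) X u) + Tm n X (bd n X u)) := by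
      rw [bd_Tm]; abel
    rw [this]
    refine Submodule.add_mem _ ih (Submodule.add_mem_sup (bd_mem_Bd (Tm_mem ?_)) (Tm_mem ?_))
    · rw [hu]; exact Sd_pow_mem hw N
    · rw [hu, bd_Sd_pow]; exact Sd_pow_mem hb N

lemma exists_small {n : ℕ} {A U V : Set X} (hU : IsOpen U) (hV : IsOpen V) (hA : A ⊆ U ∪ V)
    {w : Chain n X} (hw : w ∈ Ch n A) :
    ∃ N, (Sd n X ^ N : Module.End ℤ _) w ∈ Ch n (A ∩ U) ⊔ Ch n (A ∩ V) := by
  let S : Submodule ℤ (Chain n X) :=
    { carrier := {w | ∀ᶠ N in atTop, (Sd n X ^ N : Module.End ℤ _) w ∈ Ch n (A ∩ U) ⊔ Ch n (A ∩ V)}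
      add_mem' := fun ha hb => (ha.and hb).mono fun N h => by
        rw [map_add]; exact Submodule.add_mem _ h.1 h.2
      zero_mem' := by simp
      smul_mem' := fun c a ha => ha.mono fun N h => by
        rw [map_smul]; exact Submodule.smul_mem _ _ h }
  refine (Ch_mem LinearMap.id S (fun σ hσ => ?_) hw).exists
  obtain ⟨δ, hδ, H⟩ := lebesgue_number_lemma_of_metric (s := univ) (ι := Bool)
    (c := fun b => σ ⁻¹' (if b then U else V)) isCompact_univ
    (fun b => by cases b <;> simp [hU.preimage σ.continuous, hV.preimage σ.continuous])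
    (fun x _ => by
      rcases hA (hσ ⟨x, rfl⟩) with h | h
      · exact mem_iUnion.2 ⟨true, h⟩
      · exact mem_iUnion.2 ⟨false, h⟩)
  have hlim : Tendsto (fun N : ℕ => (n / (n + 1) : ℝ) ^ N) atTop (𝓝 0) :=
    tendsto_pow_atTop_nhds_zero_of_lt_one (by positivity)
      (by rw [div_lt_one (by positivity)]; linarith)
  refine (hlim.eventually (gt_mem_nhds hδ)).mono fun N hN => ?_
  rw [LinearMap.id_apply, ← R_vert, Sd_pow_R]
  refine supp_mem _ _ (fun u hu => ?_) (lsd_pow_supp n N)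
  obtain ⟨b, hb⟩ := H (u 0) trivial
  have h1 : ∀ x, aff n n u x ∈ Metric.ball (u 0) δ := fun x =>
    (convex_ball (u 0).1 δ).sum_mem (fun i _ => x.2.1 i) x.2.2 fun i _ => (hu i 0).trans_lt hN
  have h2 : range (σ.comp (aff n n u)) ⊆ A ∩ (if b then U else V) := by
    rintro _ ⟨x, rfl⟩
    exact ⟨hσ ⟨_, rfl⟩, hb (h1 x)⟩
  rw [R_single]
  cases b
  · exact Submodule.mem_sup_right (single_mem_Ch h2 _)
  · exact Submodule.mem_sup_left (single_mem_Ch h2 _)

lemma exists_decomp {n : ℕ} {A B U V : Set X} (hU : IsOpen U) (hV : IsOpen V) (hA : A ⊆ U ∪ V)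
    {w : Chain (n + 1) X} (hw : w ∈ Ch (n + 1) A) (hb : bd n X w ∈ Ch n B) :
    ∃ w1 ∈ Ch (n + 1) (A ∩ U), ∃ w2 ∈ Ch (n + 1) (A ∩ V),
      w - (w1 + w2) ∈ Bd (n + 1) A ⊔ Ch (n + 1) B := by
  obtain ⟨N, hN⟩ := exists_small hU hV hA hw
  obtain ⟨w1, h1, w2, h2, h⟩ := Submodule.mem_sup.1 hN
  exact ⟨w1, h1, w2, h2, h ▸ sub_Sd_pow hw hb N⟩

lemma mem_Bd_of_sup_empty {n : ℕ} {A : Set X} {w : Chain n X} (h : w ∈ Bd n A ⊔ Ch n ∅) :
    w ∈ Bd n A := by
  obtain ⟨a, ha, b, hb, rfl⟩ := Submodule.mem_sup.1 h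
  rw [Ch_empty hb, add_zero]
  exact ha

lemma bd_of_mem_Bd {n : ℕ} {A : Set X} {w : Chain (n + 1) X} (h : w ∈ Bd (n + 1) A) :
    bd n X w = 0 := by
  obtain ⟨c, -, rfl⟩ := h
  exact bd_bd _ _

lemma exists_decomp_cycle {n : ℕ} {A U V : Set X} (hU : IsOpen U) (hV : IsOpen V) (hA : A ⊆ U ∪ V)
    {w : Chain (n + 1) X} (hw : w ∈ Ch (n + 1) A) (hb : bd n X w = 0) :
    ∃ w1 ∈ Ch (n + 1) (A ∩ U), ∃ w2 ∈ Ch (n + 1) (A ∩ V),
      w - (w1 + w2) ∈ Bd (n + 1) A ∧ bd n X w1 ∈ Ch n (A ∩ U ∩ V) ∧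
        bd n X w1 + bd n X w2 = 0 := by
  obtain ⟨w1, h1, w2, h2, h⟩ := exists_decomp (B := ∅) hU hV hA hw (by simp [hb])
  have h' := mem_Bd_of_sup_empty h
  have h3 : bd n X w1 + bd n X w2 = 0 := by
    have := bd_of_mem_Bd h'
    rwa [map_sub, hb, zero_sub, neg_eq_zero, map_add] at this
  refine ⟨w1, h1, w2, h2, h', Ch_inter (bd_mem h1) ?_, h3⟩
  rw [eq_neg_of_add_eq_zero_left h3]
  exact Submodule.neg_mem _ (Ch_mono inter_subset_right (bd_mem h2))

lemma mv_unique {n : ℕ} {U V : Set X} (hU : IsOpen U) (hV : IsOpen V) {w1 w2 : Chain (n + 2) X}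
    (h1 : w1 ∈ Ch (n + 2) U) (h2 : w2 ∈ Ch (n + 2) V) (h : w1 + w2 ∈ Bd (n + 2) (U ∪ V)) :
    bd (n + 1) X w1 ∈ Bd (n + 1) (U ∩ V) := by
  obtain ⟨c, hc, hcw⟩ := h
  obtain ⟨N, hN⟩ := exists_small hU hV Subset.rfl hc
  obtain ⟨c1, hc1, c2, hc2, hc'⟩ := Submodule.mem_sup.1 hN
  have h3 := congrArg (bd (n + 2) X) hc'
  rw [bd_Sd_pow, hcw, map_add, map_add] at h3
  have hx : (Sd (n + 2) X ^ N : Module.End ℤ _) w1 - bd (n + 2) X c1 ∈ Ch (n + 2) (U ∩ V) := by
    refine Ch_inter (Submodule.sub_mem _ (Sd_pow_mem h1 N)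
      (Ch_mono inter_subset_right (bd_mem hc1))) ?_
    have : (Sd (n + 2) X ^ N : Module.End ℤ _) w1 - bd (n + 2) X c1 =
        bd (n + 2) X c2 - (Sd (n + 2) X ^ N : Module.End ℤ _) w2 := by
      rw [sub_eq_sub_iff_add_eq_add, ← h3]; abel
    rw [this]
    exact Submodule.sub_mem _ (Ch_mono inter_subset_right (bd_mem hc2)) (Sd_pow_mem h2 N)
  have hb := bd_mem_Bd hx
  rw [map_sub, bd_bd, sub_zero, bd_Sd_pow] at hb
  have h4 : bd (n + 1) X w1 ∈ Ch (n + 1) (U ∩ V) := by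
    refine Ch_inter (bd_mem h1) ?_
    have : bd (n + 1) X w1 + bd (n + 1) X w2 = 0 := by rw [← map_add, ← hcw, bd_bd]
    rw [eq_neg_of_add_eq_zero_left this]
    exact Submodule.neg_mem _ (bd_mem h2)
  have h5 := mem_Bd_of_sup_empty (sub_Sd_pow (B := ∅) h4 (by simp [bd_bd]) N)
  simpa using Submodule.add_mem _ h5 hb

/-- all `(n+1)`-cycles in `A` bound in `A` -/
def Acyc (n : ℕ) (A : Set X) : Prop :=
  ∀ v ∈ Ch (n + 1) A, bd n X v = 0 → v ∈ Bd (n + 1) A

lemma Acyc.union {n : ℕ} {U V : Set X} (hU : IsOpen U) (hV : IsOpen V) (h1 : Acyc (n + 1) U)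
    (h2 : Acyc (n + 1) V) (h3 : Acyc n (U ∩ V)) : Acyc (n + 1) (U ∪ V) := by
  intro v hv hb
  obtain ⟨w1, a1, w2, a2, a3, a4, a5⟩ := exists_decomp_cycle hU hV Subset.rfl hv hb
  obtain ⟨c, hc, hc'⟩ := h3 _ (Ch_mono (by intro x hx; exact ⟨hx.1.2, hx.2⟩) a4) (bd_bd _ _)
  have b1 := h1 (w1 - c) (Submodule.sub_mem _ (Ch_mono inter_subset_right a1)
    (Ch_mono inter_subset_left hc)) (by rw [map_sub, hc', sub_self])
  have b2 := h2 (w2 + c) (Submodule.add_mem _ (Ch_mono inter_subset_right a2)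
    (Ch_mono inter_subset_right hc)) (by rw [map_add, hc', ← a5]; abel)
  have := Submodule.add_mem _ a3 (Submodule.add_mem _ (Bd_mono subset_union_left b1)
    (Bd_mono subset_union_right b2))
  simpa using this

open Classical in
/-- the part of a chain lying in `A` -/
def part (n : ℕ) (A : Set X) : Chain n X →ₗ[ℤ] Chain n X :=
  linearCombination ℤ fun σ => if range σ ⊆ A then single σ 1 else 0

lemma part_mem {n : ℕ} (A : Set X) {B : Set X} {w : Chain n X} (hw : w ∈ Ch n B) :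
    part n A w ∈ Ch n (A ∩ B) := by
  refine Ch_mem _ _ (fun σ hσ => ?_) hw
  simp only [part, linearCombination_single, one_smul]
  split_ifs with h
  · exact single_mem_Ch (subset_inter h hσ) _
  · simp

lemma part_pos {n : ℕ} {A : Set X} {w : Chain n X} (hw : w ∈ Ch n A) : part n A w = w :=
  Ch_ext _ LinearMap.id (fun σ hσ => by simp [part, hσ]) hw

lemma part_neg {n : ℕ} {A B : Set X} (h : Disjoint A B) {w : Chain n X} (hw : w ∈ Ch n B) :
    part n A w = 0 :=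
  Ch_empty (by simpa [h.inter_eq] using part_mem A hw)

section Split

variable {ι : Type*} {U : ι → Set X} (hU : ∀ i, IsOpen (U i))
  (hd : Pairwise (Function.onFun Disjoint U))
include hU hd

lemma exists_index {n : ℕ} {σ : C(Δ n, X)} (h : range σ ⊆ ⋃ i, U i) : ∃ i, range σ ⊆ U i := by
  obtain ⟨i, hi⟩ := mem_iUnion.1 (h ⟨vert n 0, rfl⟩)
  refine ⟨i, (isPreconnected_range σ.continuous).subset_left_of_subset_union (hU i)
    (isOpen_biUnion (s := {j | j ≠ i}) fun j _ => hU j) ?_ ?_ ⟨_, ⟨_, rfl⟩, hi⟩⟩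
  · exact disjoint_iUnion₂_right.2 fun j hj => hd (Ne.symm hj)
  · intro x hx
    obtain ⟨j, hj⟩ := mem_iUnion.1 (h hx)
    by_cases hji : j = i
    · exact Or.inl (hji ▸ hj)
    · exact Or.inr (mem_biUnion hji hj)

lemma bd_part {n : ℕ} {w : Chain (n + 1) X} (hw : w ∈ Ch (n + 1) (⋃ i, U i)) (i : ι) :
    bd n X (part (n + 1) (U i) w) = part n (U i) (bd n X w) := by
  refine Ch_ext (bd n X ∘ₗ part (n + 1) (U i)) (part n (U i) ∘ₗ bd n X) (fun σ hσ => ?_) hw
  obtain ⟨j, hj⟩ := exists_index hU hd hσ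
  have hj' := single_mem_Ch hj 1
  by_cases h : i = j
  · subst h
    simp only [LinearMap.comp_apply, part_pos hj', part_pos (bd_mem hj')]
  · simp only [LinearMap.comp_apply, part_neg (hd h) hj', part_neg (hd h) (bd_mem hj'), map_zero]

lemma sum_part [Fintype ι] {n : ℕ} {w : Chain n X} (hw : w ∈ Ch n (⋃ i, U i)) :
    ∑ i, part n (U i) w = w := by
  have := Ch_ext (∑ i, part n (U i)) LinearMap.id (fun σ hσ => ?_) hw
  · simpa using this
  obtain ⟨j, hj⟩ := exists_index hU hd hσ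
  have hj' := single_mem_Ch hj 1
  rw [LinearMap.sum_apply, Finset.sum_eq_single j (fun i _ h => part_neg (hd h) hj') (by simp),
    part_pos hj', LinearMap.id_apply]

lemma Acyc.iUnion [Finite ι] {n : ℕ} (h : ∀ i, Acyc n (U i)) : Acyc n (⋃ i, U i) := by
  intro v hv hb
  cases nonempty_fintype ι
  rw [← sum_part hU hd hv]
  refine Submodule.sum_mem _ fun i _ => Bd_mono (subset_iUnion U i) (h i _ ?_ ?_)
  · exact Ch_mono inter_subset_left (part_mem _ hv)
  · rw [bd_part hU hd hv, hb, map_zero]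

/-- decomposition of a cycle along a disjoint family of open sets covering a closed set -/
lemma exists_family_decomp [Fintype ι] {n : ℕ} {A V : Set X} (hV : IsOpen V)
    (hA : A ⊆ (⋃ i, U i) ∪ V) {w : Chain (n + 1) X} (hw : w ∈ Ch (n + 1) A) (hb : bd n X w = 0) :
    ∃ (u : ι → Chain (n + 1) X) (w2 : Chain (n + 1) X), (∀ i, u i ∈ Ch (n + 1) (U i ∩ A)) ∧
      w2 ∈ Ch (n + 1) (A ∩ V) ∧ w - (∑ i, u i + w2) ∈ Bd (n + 1) A ∧
      ∀ i, bd n X (u i) ∈ Ch n (U i ∩ V) := by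
  obtain ⟨w1, a1, w2, a2, a3, a4, -⟩ := exists_decomp_cycle (isOpen_iUnion hU) hV hA hw hb
  have h1 := Ch_mono inter_subset_right a1
  refine ⟨fun i => part (n + 1) (U i) w1, w2, fun i => part_mem _ (Ch_mono inter_subset_left a1),
    a2, by rwa [sum_part hU hd h1], fun i => ?_⟩
  rw [bd_part hU hd h1]
  exact part_mem _ (Ch_mono inter_subset_right a4)

end Split

end Pool.Agent.Lib.MP_d476f3_gt
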