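import Pool.Agent.Lib.MP_d476f3_gt.Box
import Pool.Agent.Lib.MP_d476f3_gt.Detect

set_option autoImplicit false

open Set Filter Topology

noncomputable section

namespace Pool.Agent.Lib.MP_d476f3_gt

/-- projection onto the unit interval -/
def clamp (s : ℝ) : ℝ := max 0 (min 1 s)

@[fun_prop] lemma continuous_clamp : Continuous clamp := by unfold clamp; fun_prop

lemma clamp_zero {s : ℝ} (h : s ≤ 0) : clamp s = 0 := max_eq_left ((min_le_right _ _).trans h)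

lemma clamp_one {s : ℝ} (h : 1 ≤ s) : clamp s = 1 := by simp [clamp, h]

lemma clamp_nonneg (s : ℝ) : 0 ≤ clamp s := le_max_left _ _

lemma clamp_le (s : ℝ) : clamp s ≤ 1 := max_le zero_le_one (min_le_left _ _)

lemma mem_piece_of_gap {m : ℕ} {x : Fin m → ℝ} {Z : Finset (Fin m)} {δ : ℝ} (h0 : 0 < δ)
    (hδ : δ ≤ 1 / 2) (h1 : ∀ t ∈ Z, ∃ n : ℤ, |x t - n| < δ) (h2 : ∀ s ∉ Z, ∀ n : ℤ, δ ≤ |x s - n|) :
    ∃ c, x ∈ piece Z c := by
  classical
  choose! n hn using h1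
  have h3 : ∀ s ∉ Z, δ ≤ x s - ⌊x s⌋ ∧ δ ≤ ⌊x s⌋ + 1 - x s := fun s hs => by
    have a := h2 s hs ⌊x s⌋
    have b := h2 s hs (⌊x s⌋ + 1)
    rw [abs_of_nonneg (sub_nonneg.2 (Int.floor_le _))] at a
    rw [abs_sub_comm, Int.cast_add, Int.cast_one,
      abs_of_nonneg (sub_nonneg.2 (Int.lt_floor_add_one _).le)] at b
    exact ⟨a, b⟩
  refine ⟨fun t => if t ∈ Z then n t else ⌊x t⌋, fun t ht => ?_, fun t ht => ?_,
    fun t ht s hs => ?_⟩
  · simp only [if_pos ht]; linarith [hn t ht]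
  · simp only [if_neg ht]; constructor <;> linarith [(h3 t ht).1, (h3 t ht).2]
  · simp only [if_pos ht, if_neg hs]; constructor <;> linarith [(h3 s hs).1, (h3 s hs).2, hn t ht]

namespace Cfg

variable {m k N : ℕ} {c : Cfg m k N} {x a : Fin m → ℝ} {b : Fin k → ℝ} {i : Fin (N + 1)}

/-- the parameters normal to a sheet -/
def aT (γ : c.Sheet) (a : Fin m → ℝ) : Fin k → ℝ := fun j => a (γ.2.1.emb j)

@[fun_prop] lemma continuous_aT (γ : c.Sheet) : Continuous (aT γ) := by unfold aT; fun_prop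

/-- test function of the first sheet of a box -/
def Box.G1 (B : c.Box) (a : Fin m → ℝ) (b : Fin k → ℝ) (x : Fin m → ℝ) : Fin k → ℝ :=
  y1 c.μ (B.t x) (X B.g1 x - (clamp (4 - B.S x) * c.ε) • b) (X B.g2 x) -
    c.D (clamp (B.S x - 2)) (c.ε • aT B.g1 a)

/-- test function of the second sheet of a box -/
def Box.G2 (B : c.Box) (a : Fin m → ℝ) (b : Fin k → ℝ) (x : Fin m → ℝ) : Fin k → ℝ :=
  y2 c.μ (B.t x) (X B.g1 x) (X B.g2 x - (clamp (B.S x - 7) * c.ε) • aT B.g2 a) -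
    c.D (clamp (9 - B.S x)) (c.ε • b)

lemma Box.continuous_G1 (B : c.Box) :
    Continuous fun p : (Fin m → ℝ) × (Fin m → ℝ) × (Fin k → ℝ) => B.G1 p.2.1 p.2.2 p.1 := by
  have h1 := B.contDiff_t.continuous
  have h2 := (contDiff_X B.g1).continuous
  have h3 := (contDiff_X B.g2).continuous
  have h4 := c.hμ.smooth.continuous
  have h5 := B.contDiff_S.continuous
  refine Continuous.sub (by unfold y1; fun_prop) (c.hμ.contD.comp (f := fun p :
    (Fin m → ℝ) × (Fin m → ℝ) × (Fin k → ℝ) => (clamp (B.S p.1 - 2), c.ε • aT B.g1 p.2.1))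
    (by fun_prop))

lemma Box.continuous_G2 (B : c.Box) :
    Continuous fun p : (Fin m → ℝ) × (Fin m → ℝ) × (Fin k → ℝ) => B.G2 p.2.1 p.2.2 p.1 := by
  have h1 := B.contDiff_t.continuous
  have h2 := (contDiff_X B.g1).continuous
  have h3 := (contDiff_X B.g2).continuous
  have h4 := c.hμ.smooth.continuous
  have h5 := B.contDiff_S.continuous
  refine Continuous.sub (by unfold y2; fun_prop) (c.hμ.contD.comp (f := fun p :
    (Fin m → ℝ) × (Fin m → ℝ) × (Fin k → ℝ) => (clamp (9 - B.S p.1), c.ε • p.2.2))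
    (by fun_prop))

/-- the unmodified test function -/
def G0 (γ : c.Sheet) (a x : Fin m → ℝ) : Fin k → ℝ := c.μ (X γ x - c.ε • aT γ a)

lemma Box.G1_out (B : c.Box) (h : 9 ≤ B.S x) : c.μ (B.G1 a b x) = G0 B.g1 a x := by
  simp [Box.G1, G0, B.t_zero (by linarith : 6 ≤ B.S x), clamp_zero (by linarith : 4 - B.S x ≤ 0),
    clamp_one (by linarith : 1 ≤ B.S x - 2), c.hμ.D1]

lemma Box.G2_out (B : c.Box) (h : 9 ≤ B.S x) : B.G2 a b x = G0 B.g2 a x := by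
  simp [Box.G2, G0, B.t_zero (by linarith : 6 ≤ B.S x), clamp_zero (by linarith : 9 - B.S x ≤ 0),
    clamp_one (by linarith : 1 ≤ B.S x - 7), c.hμ.D0]

open Classical in
/-- the test function of a sheet -/
def test (γ : c.Sheet) (a : Fin m → ℝ) (b : Fin k → ℝ) (x : Fin m → ℝ) : Fin k → ℝ :=
  G0 γ a x + ∑ B : c.Box, ((if B.g1 = γ then c.μ (B.G1 a b x) - G0 γ a x else 0) +
    (if B.g2 = γ then B.G2 a b x - G0 γ a x else 0))

lemma continuous_test (γ : c.Sheet) : Continuous (test γ a b) := by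
  have h4 := c.hμ.smooth.continuous
  have h0 : Continuous (G0 γ a) := h4.comp ((contDiff_X γ).continuous.sub continuous_const)
  have h : Continuous fun x : Fin m → ℝ => (x, a, b) := by fun_prop
  refine h0.add (continuous_finsetSum _ fun B _ => Continuous.add ?_ ?_) <;> split_ifs
  exacts [(h4.comp (B.continuous_G1.comp h)).sub h0, continuous_const,
    (B.continuous_G2.comp h).sub h0, continuous_const]

lemma test_out {γ : c.Sheet} (h : ∀ B : c.Box, B.g1 = γ ∨ B.g2 = γ → 9 ≤ B.S x) :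
    test γ a b x = G0 γ a x := by
  rw [test, Finset.sum_eq_zero, add_zero]
  intro B _
  by_cases h1 : B.g1 = γ
  · subst h1
    simp [B.G1_out (h B (Or.inl rfl)), B.g_ne.symm]
  by_cases h2 : B.g2 = γ
  · subst h2
    simp [B.G2_out (h B (Or.inr rfl)), B.g_ne]
  simp [h1, h2]

lemma test_in (B : c.Box) (hx : x ∈ c.K) (h : B.S x < 10) :
    test B.g1 a b x = c.μ (B.G1 a b x) ∧ test B.g2 a b x = B.G2 a b x := by
  classical
  have key : ∀ γ : c.Sheet, ∀ B' ∈ Finset.univ, B' ≠ B →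
      ((if B'.g1 = γ then c.μ (B'.G1 a b x) - G0 γ a x else 0) +
        (if B'.g2 = γ then B'.G2 a b x - G0 γ a x else 0)) = 0 := fun γ B' _ e => by
    have h1 : 9 ≤ B'.S x := by
      by_contra! h1
      exact e (Box.unique hx (by linarith) h)
    rw [B'.G1_out h1, B'.G2_out h1]
    by_cases a1 : B'.g1 = γ <;> by_cases a2 : B'.g2 = γ <;> simp [a1, a2]
  constructor
  · rw [test, Finset.sum_eq_single B (by simpa using key _) (by simp)]
    simp [B.g_ne.symm]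
  · rw [test, Finset.sum_eq_single B (by simpa using key _) (by simp)]
    simp [B.g_ne]

variable (c) in
/-- the translation of the grid -/
def θ (i : Fin (N + 1)) (a : Fin m → ℝ) : Fin m → ℝ := fun t => c.τ (i, t) + c.ε * c.ρ * a t

lemma r_mul (ha : ∀ t, a t ∈ Icc (0 : ℝ) 1) (t : Fin m) :
    0 ≤ c.ε * c.ρ * a t ∧ c.ε * c.ρ * a t ≤ c.ρ / 4 := by
  have := c.hε
  have := c.hρ
  refine ⟨mul_nonneg (by positivity) (ha t).1, ?_⟩
  calc _ ≤ 1 / 4 * c.ρ * 1 := by gcongr; exacts [(ha t).1, c.ε_le, (ha t).2]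
    _ = _ := by ring

lemma θ_le (ha : ∀ t, a t ∈ Icc (0 : ℝ) 1) (t : Fin m) : |c.θ i a t| ≤ 2 := by
  rw [θ, abs_le]
  constructor <;> linarith [(c.hτ (i, t)).1, (c.hτ (i, t)).2, (r_mul (c := c) ha t).1,
    (r_mul (c := c) ha t).2, c.hρ']

lemma segment_thick (hx : x ∈ c.K) (ha : ∀ t, a t ∈ Icc (0 : ℝ) 1) :
    segment ℝ (x - c.θ i a) x ⊆ Metric.thickening 3 c.K := by
  refine ((convex_ball x 3).segment_subset ?_ (Metric.mem_ball_self three_pos)).trans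
    (Metric.ball_subset_thickening hx 3)
  rw [mem_ball_iff_norm, sub_sub_cancel_left, norm_neg]
  exact ((pi_norm_le_iff_of_nonneg two_pos.le).2 (θ_le ha)).trans_lt (by norm_num)

lemma exists_sheet (i : Fin (N + 1)) (f : Face m k) (h : ∀ j, |f.2 (f.1.emb j)| ≤ c.n0) :
    ∃ γ : c.Sheet, γ.1 = i ∧ γ.2.1 = f.1 ∧
      ∀ a x, c.ρ⁻¹ • f.π (x - c.θ i a) = X γ x - c.ε • aT γ a := by
  refine ⟨(i, f.1, fun j => ⟨_, Finset.mem_Icc.2 (abs_le.1 (h j))⟩), rfl, rfl, fun a x => ?_⟩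
  funext j
  have := c.hρ.ne'
  simp only [Face.π, θ, X, aT, Pi.smul_apply, Pi.sub_apply, smul_eq_mul]
  field_simp
  ring

lemma exists_hit (hx : x ∈ c.K) (ha : ∀ t, a t ∈ Icc (0 : ℝ) 1) (T : Dir m k)
    (hT : T.1 ⊆ intc (x - c.θ i a)) :
    ∃ γ : c.Sheet, γ.1 = i ∧ γ.2.1 = T ∧ X γ x = c.ε • aT γ a := by
  have h1 : ∀ j, (x - c.θ i a) (T.emb j) = ⌊(x - c.θ i a) (T.emb j)⌋ := fun j => by
    obtain ⟨n, hn⟩ := mem_intc.1 (hT (T.emb_mem j))
    simp [hn]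
  obtain ⟨γ, a1, a2, a3⟩ := exists_sheet (c := c) i (T, fun t => ⌊(x - c.θ i a) t⌋) fun j => by
    have h2 : |((⌊(x - c.θ i a) (T.emb j)⌋ : ℤ) : ℝ)| ≤ c.n0 := by
      rw [← h1, Pi.sub_apply]
      linarith [abs_sub (x (T.emb j)) (c.θ i a (T.emb j)), θ_le (c := c) (i := i) ha (T.emb j),
        c.bnd x hx (T.emb j)]
    exact_mod_cast h2
  refine ⟨γ, a1, a2, sub_eq_zero.1 ?_⟩
  rw [← a3, smul_eq_zero]
  exact Or.inr (funext fun j => sub_eq_zero.2 (h1 j))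

lemma near_of_intc (ha : ∀ t, a t ∈ Icc (0 : ℝ) 1) {t : Fin m} {n : ℤ}
    (h : |(x - c.θ i a) t - n| < 2 * c.ρ) : (i, t) ∈ near c.τ (3 * c.ρ) x := by
  refine mem_near.2 ⟨n, ?_⟩
  simp only [Pi.sub_apply, θ, abs_lt] at h ⊢
  constructor <;> linarith [h.1, h.2, (r_mul (c := c) ha t).1, (r_mul (c := c) ha t).2, c.hρ]

variable (c) in
/-- the set avoids the modified skeleton with parameters `a`, `b` -/
structure NoHit (K' : Set (Fin m → ℝ)) (i : Fin (N + 1)) (a : Fin m → ℝ) (b : Fin k → ℝ) :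
    Prop where
  n0 : ∀ x ∈ K', ∀ γ : c.Sheet, γ.1 = i → (∀ B : c.Box, B.g1 = γ ∨ B.g2 = γ → 9 ≤ B.S x) →
    X γ x ≠ c.ε • aT γ a
  n1 : ∀ x ∈ K', ∀ B : c.Box, B.S x ∈ Icc (2 : ℝ) 9 → B.G1 a b x ≠ 0
  n2 : ∀ x ∈ K', ∀ B : c.Box, B.S x ∈ Icc (0 : ℝ) 9 → B.G2 a b x ≠ 0

lemma NoHit.mem_Wle {K' : Set (Fin m → ℝ)} (H : c.NoHit K' i a b) (hx : x ∈ c.K) (hx' : x ∈ K')
    (ha : ∀ t, a t ∈ Icc (0 : ℝ) 1) : x - c.θ i a ∈ Wle m k := by
  by_contra h
  have h : k < (intc (x - c.θ i a)).card := not_le.1 h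
  obtain ⟨T, hT, hT'⟩ := Finset.exists_subset_card_eq h.le
  obtain ⟨γ, rfl, a2, a3⟩ := exists_hit hx ha ⟨T, hT'⟩ hT
  have h1 := H.n0 x hx' γ rfl
  by_contra! h2
  obtain ⟨B, hB, hB'⟩ : ∃ B : c.Box, (B.g1 = γ ∨ B.g2 = γ) ∧ B.S x < 9 := by
    by_contra! h3
    exact h1 h3 a3
  have hγ : γ ∈ B.1 := by rcases hB with rfl | rfl; exacts [B.g1_mem, B.g2_mem]
  refine absurd (Finset.card_le_card fun t ht => B.mem_dir hx (by linarith) hγ ?_)
    (not_le.2 (γ.2.1.2.trans_lt h))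
  obtain ⟨n, hn⟩ := mem_intc.1 ht
  exact near_of_intc ha (n := n) (by rw [hn]; simpa using c.hρ)

theorem NoHit.dvd {j : ℕ} {μ : ℕ → (Fin k → ℝ) → (Fin k → ℝ)} (W : Wind (Fin k → ℝ) j μ)
    (hμ : μ c.P = c.μ) (hP : c.P ≠ 0) (hK : Bornology.IsBounded c.K) {S : Type*}
    [TopologicalSpace S] {z : Chain (j + 2) S} (hz : bd (j + 1) S z = 0) {e : S → (Fin m → ℝ)}
    (he : Continuous e) (heK : ∀ s, e s ∈ c.K) (H : c.NoHit (range e) i a b)
    (ha : ∀ t, a t ∈ Icc (0 : ℝ) 1) (f : Near k c.K) :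
    (c.P : ℤ) ∣ W.D f.1 (push (fun s => e s - c.θ i a) (j + 2) z) := by
  have hh : Continuous fun s => e s - c.θ i a := he.sub continuous_const
  obtain ⟨γ, rfl, a2, a3⟩ := exists_sheet (c := c) i f.1 fun j => by
    obtain ⟨y, hy, hy'⟩ := f.2
    obtain ⟨x, hx, hxy⟩ := Metric.mem_thickening_iff.1 hy'
    have h1 := abs_lt.1 (piece_near hy (f.1.1.emb j))
    have h2 := abs_lt.1 ((dist_le_pi_dist y x (f.1.1.emb j)).trans_lt hxy)
    have h3 := c.bnd x hx (f.1.1.emb j)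
    have h4 : |(f.1.2 (f.1.1.emb j) : ℝ)| ≤ c.n0 := by
      rw [abs_le]
      constructor <;> linarith [h1.1, h1.2, h2.1, h2.2, le_abs_self (x (f.1.1.emb j)),
        neg_abs_le (x (f.1.1.emb j))]
    exact_mod_cast h4
  have hW : ∀ s, e s - c.θ γ.1 a ∈ Wle m k := fun s => H.mem_Wle (heK s) ⟨s, rfl⟩ ha
  refine W.dvd hK hP (hμ ▸ c.hμ.smooth.continuous) (hμ ▸ c.hμ.zero)
    (hμ ▸ fun v => c.hμ.eq_zero) hz hh
    (fun s => ⟨segment_thick (heK s) ha (left_mem_segment _ _ _), hW s⟩)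
    (Z := {s | e s - c.θ γ.1 a ∉ Wlt m k} ∪
      ⋃ B : {B : c.Box // B.g1.1 = γ.1 ∨ B.g2.1 = γ.1}, {s | B.1.S (e s) ≤ 9})
    ((isOpen_Wlt.isClosed_compl.preimage hh).union (isClosed_iUnion_of_finite fun B =>
      isClosed_le (B.1.contDiff_S.continuous.comp he) continuous_const))
    (fun s hs => Or.inl hs) ?_ (inv_pos.2 c.hρ) f (g := fun s => test γ a b (e s))
    (g' := fun s => X γ (e s) - c.ε • b) ((continuous_test γ).comp he)
    (((contDiff_X γ).continuous.comp he).sub continuous_const)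
    (G := ⋃ B : {B : c.Box // B.g1 = γ}, {s | B.1.S (e s) < 2})
    (isOpen_iUnion fun B => isOpen_lt (B.1.contDiff_S.continuous.comp he) continuous_const)
    (fun s _ hs => ?_) (fun s _ hs => ?_) fun s hs => ?_
  · rintro s (hs | hs)
    · exact exists_face (hW s) hs
    obtain ⟨⟨B, hB⟩, hs⟩ := mem_iUnion.1 hs
    have hs : B.S (e s) < 10 := lt_of_le_of_lt hs (by norm_num)
    obtain ⟨γ', h1, h2⟩ : ∃ γ' ∈ B.1, γ'.1 = γ.1 :=
      hB.elim (fun h => ⟨_, B.g1_mem, h⟩) fun h => ⟨_, B.g2_mem, h⟩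
    rw [← h2]
    obtain ⟨n, hn⟩ := mem_piece_of_gap (x := e s - c.θ γ'.1 a) (Z := γ'.2.1.1) (δ := 2 * c.ρ)
      (by linarith [c.hρ]) (by linarith [c.hρ']) (fun t ht => by
        obtain ⟨j, rfl⟩ := γ'.2.1.exists_emb ht
        have := abs_lt.1 (X_lt (B.X_lt hs h1) j)
        refine ⟨γ'.2.2 j, ?_⟩
        simp only [Pi.sub_apply, θ, abs_lt]
        constructor <;> linarith [this.1, this.2, (r_mul (c := c) ha (γ'.2.1.emb j)).1,
          (r_mul (c := c) ha (γ'.2.1.emb j)).2, c.hρ])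
      fun t ht n => not_lt.1 fun h => ht (B.mem_dir (heK s) hs h1 (near_of_intc ha h))
    exact ⟨(γ'.2.1, n), hn⟩
  · rw [a3, hμ]
    refine test_out fun B hB => le_of_lt (not_le.1 fun h => hs (Or.inr (mem_iUnion.2
      ⟨⟨B, hB.imp (congrArg _) (congrArg _)⟩, h⟩)))
  · by_cases h : ∀ B : c.Box, B.g1 = γ ∨ B.g2 = γ → 9 ≤ B.S (e s)
    · rw [test_out h] at hs
      exact absurd (sub_eq_zero.1 (c.hμ.eq_zero hs)) (H.n0 _ ⟨s, rfl⟩ γ rfl h)
    push Not at h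
    obtain ⟨B, rfl | rfl, hB⟩ := h
    · rw [(test_in B (heK s) (by linarith)).1] at hs
      refine ⟨mem_iUnion.2 ⟨⟨B, rfl⟩, lt_of_not_ge (a := B.S (e s)) fun h => ?_⟩,
        Or.inr (mem_iUnion.2 ⟨⟨B, Or.inl rfl⟩, hB.le⟩)⟩
      exact H.n1 _ ⟨s, rfl⟩ B ⟨h, hB.le⟩ (c.hμ.eq_zero hs)
    · rw [(test_in B (heK s) (by linarith)).2] at hs
      exact absurd hs (H.n2 _ ⟨s, rfl⟩ B ⟨B.S_nonneg _, hB.le⟩)
  · obtain ⟨⟨B, rfl⟩, hs⟩ := mem_iUnion.1 hs
    have hs : B.S (e s) < 2 := hs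
    rw [(test_in B (heK s) (by linarith)).1, hμ]
    simp [Box.G1, B.t_one (by linarith : B.S (e s) ≤ 5),
      clamp_one (by linarith : 1 ≤ 4 - B.S (e s)), clamp_zero (by linarith : B.S (e s) - 2 ≤ 0),
      c.hμ.D0]

end Cfg

end Pool.Agent.Lib.MP_d476f3_gt
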